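import Pool.Agent.T9h21.TB.Form

/-!
# A connected configuration with prescribed clause columns

The proof is that of `Pool.Agent.T9h21.TB.Board.Good.conn`, whose conclusion does not mention that
the configuration is unchanged outside the connector columns.
-/

set_option autoImplicit false

namespace Pool.Agent.T9h88.XC

open Pool.Agent.T9h21.TB Pool.Agent.T9h21.TB.Board

variable {b : Board} {act : ℕ → ℕ → Bool} {m : ℕ → Bool} {kc cc : ℕ → Bool} {z0 : ℕ → ℕ → Bool}

/-- There is a configuration whose graph is connected. -/
theorem conn2 (hM : 1 ≤ b.M) (hfin : {v | b.Val act v}.Finite)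
    (hG : Good b act m kc cc z0) : ∃ z, Legal b act m z ∧ (∀ i c, kc c = false → z i c = z0 i c) ∧
      ∀ v, b.Val act v → Mem b hM act m z v := by
  have hH : b.H = 2 * b.h + 2 := rfl
  obtain ⟨w, hw⟩ := exists_max (fun w : ℕ → ℕ → Bool => cnt b hM act m (b.zw m kc z0 w))
    (({v | b.Val act v}.ncard) + 1) (fun w => by
      have h1 : {v | Mem b hM act m (b.zw m kc z0 w) v} ⊆ insert (.S 0 false) {v | b.Val act v} := by
        intro v hv
        obtain ⟨p⟩ := hv.symm
        cases p with
        | nil => exact Set.mem_insert _ _
        | cons h _ => exact Set.mem_insert_of_mem _ h.1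
      exact (Set.ncard_le_ncard h1 (hfin.insert _)).trans (Set.ncard_insert_le _ _))
  set z := b.zw m kc z0 w with hz
  have hL : Legal b act m z := hG.legal w
  have hsame : ∀ i c, i + 1 < b.H → c < b.M → kc c = true → b.lm m i c = true →
      b.lm m (i + 1) c = false → Same b hM act m z i c := by
    intro i c hi hc hk h0 h1
    have ht := hG.tog w hi hc hk h0 h1
    have h2 := setw_self w i c
    cases h3 : w i c with
    | false =>
      rw [h3] at h2
      have := ht.same_closed (hM := hM) hfin (by rw [h2]; exact hw _)
      rwa [h2] at this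
    | true =>
      rw [h3] at h2
      have := ht.same_open (hM := hM) hfin (by rw [h2]; exact hw _)
      rwa [h2] at this
  have hzk : ∀ i c, kc c = true → z i c = true → b.lm m i c = true ∧ b.lm m (i + 1) c = false ∧
      i ≤ 2 * b.h := by
    intro i c hk h
    rw [hz] at h
    unfold zw at h
    rw [if_pos hk, Bool.and_eq_true] at h
    exact av_true.1 h.2
  have hzn : ∀ i c, kc c = false → z i c = z0 i c := by
    intro i c hk
    rw [hz]
    unfold zw
    rw [hk]; rfl
  have hupn : ∀ i c, kc c = false → up z i c = up z0 i c := by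
    intro i c hk
    cases i with
    | zero => rfl
    | succ i => exact hzn i c hk
  -- crossing
  have hcross : ∀ i < b.H, ∀ c < b.M, cc c = false →
      (Mem b hM act m z (Zn i c) ↔ Mem b hM act m z (Zn i (c + 1))) := by
    intro i hi c hc hcc
    cases hk : kc c with
    | false =>
      have h1 : z i c = false := by rw [hzn i c hk]; exact hG.z0_F c hc hcc i
      have h2 : up z i c = false := by
        rw [hupn i c hk]
        cases i with
        | zero => rfl
        | succ i => exact hG.z0_F c hc hcc i
      exact Mem.congr (r_str hL hi hc h2 h1).1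
    | true =>
      cases h1 : z i c with
      | true =>
        obtain ⟨g1, g2, g3⟩ := hzk i c hk h1
        exact (hsame i c (by omega) hc hk g1 g2).1
      | false =>
        cases h2 : up z i c with
        | false => exact Mem.congr (r_str hL hi hc h2 h1).1
        | true =>
          cases i with
          | zero => simp [up] at h2
          | succ i =>
            obtain ⟨g1, g2, g3⟩ := hzk i c hk h2
            exact (hsame i c hi hc hk g1 g2).2.2
  have hcross0 : ∀ c < b.M, (Mem b hM act m z (Zn 0 c) ↔ Mem b hM act m z (Zn 0 (c + 1))) := by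
    intro c hc
    cases hcc : cc c with
    | false => exact hcross 0 (by omega) c hc hcc
    | true =>
      have hk : kc c = false := by
        by_contra h
        rw [Bool.not_eq_false] at h
        have := hG.kc_cc c hc h
        rw [hcc] at this
        simp at this
      exact Mem.congr (r_str hL (by omega) hc rfl (by rw [hzn 0 c hk]; exact hG.z0_top c)).1
  have hSl : ∀ i < b.H, (Gr b hM act m z).Reachable (.S i false) (Zn i 0) := by
    intro i hi
    obtain ⟨s, hs⟩ := gu_or (b := b) (m := m) (k := 0) (tr_even (z := z) i 0)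
    have h2 := b.two_le_len i 0
    have h1 : (Gr b hM act m z).Reachable (.S i false) (.X i 0 1 s) :=
      rch hi (by rw [Nat.mul_zero] at hs; cases s <;> simp [cand, hs])
    exact h1.trans (r_Q ⟨hi, by omega, by omega, fun h => by omega⟩ s).symm
  have hSr : ∀ i < b.H, (Gr b hM act m z).Reachable (.S i true) (Zn i b.M) := by
    intro i hi
    obtain ⟨s, hs⟩ := gu_or (b := b) (m := m) (k := 12) (tr_even (z := z) i b.M)
    have h2 : b.len i (2 * b.M) = 12 := by rw [len_even hM, if_pos (Or.inr rfl)]
    have h1 : (Gr b hM act m z).Reachable (.S i true) (.X i (2 * b.M) 12 s) :=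
      rch hi (by cases s <;> simp [cand, hs])
    exact (h1.trans (r_Q ⟨hi, by omega, by omega, fun h => by omega⟩ s).symm).trans
      (r_seg hi (by omega) (by omega) (by omega) (tr_even i b.M)).symm
  have h00 : ∀ c ≤ b.M, Mem b hM act m z (Zn 0 c) := by
    intro c
    induction c with
    | zero => intro _; exact hSl 0 (by omega)
    | succ c ih => intro hc; exact (hcross0 c (by omega)).1 (ih (by omega))
  have hwin : ∀ i < b.H, ∀ c1 c2, c1 ≤ c2 → c2 ≤ b.M → (∀ e, c1 ≤ e → e < c2 → cc e = false) →
      (Mem b hM act m z (Zn i c1) ↔ Mem b hM act m z (Zn i c2)) := by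
    intro i hi c1 c2 h12 hc2 hcc
    induction c2 with
    | zero =>
      obtain rfl : c1 = 0 := by omega
      exact Iff.rfl
    | succ c2 ih =>
      rcases Nat.lt_or_ge c2 c1 with h | h
      · obtain rfl : c1 = c2 + 1 := by omega
        exact Iff.rfl
      · exact (ih h (by omega) (fun e h1 h2 => hcc e h1 (by omega))).trans
          (hcross i hi c2 (by omega) (hcc c2 h (by omega)))
  have hZ : ∀ i, i < b.H → ∀ c ≤ b.M, Mem b hM act m z (Zn i c) := by
    intro i
    induction i with
    | zero => intro _; exact h00
    | succ i ih =>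
      intro hi c hc
      obtain ⟨c1, c2, h1, h2, h3, h4, h5⟩ := hG.win c hc
      obtain ⟨e, h6, h7, h8, h9, h10⟩ := h5 i hi
      have h11 := (hsame i e hi (by omega) h8 h9 h10).2.1
      have h12 := h11.1 (ih (by omega) e (by omega))
      have h13 := (hwin (i + 1) hi c1 e h6 (by omega) (fun e' h1 h2 => h4 e' h1 (by omega))).2 h12
      exact (hwin (i + 1) hi c1 c h1 hc (fun e' h1 h2 => h4 e' h1 (by omega))).1 h13
  have hthru : ∀ i < b.H, ∀ c < b.M, up z i c = true → z i c = true → b.lit i c = true →
      b.lm m i c = true → False := by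
    intro i hi c hc h1 h2 h3 h4
    cases hk : kc c with
    | false =>
      rw [hupn i c hk] at h1
      rw [hzn i c hk] at h2
      exact hG.z0_thru i hi c hc h1 h2 h3 h4
    | true =>
      cases i with
      | zero => simp [up] at h1
      | succ i =>
        have h5 := hzk i c hk h1
        have h6 := hzk (i + 1) c hk h2
        rw [h6.1] at h5
        simp at h5
  have hpair : ∀ i, i < b.H → ∀ c < b.M, (∀ s, Mem b hM act m z (.X i (2 * c + 1) 0 s)) ∧
      (∀ s, Mem b hM act m z (.X i (2 * c + 2) 0 s)) ∧
      (∀ k, 1 ≤ k → k ≤ b.len i (2 * c + 1) → Mem b hM act m z (.Q i (2 * c + 1) k)) := by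
    intro i
    induction i with
    | zero =>
      intro hi c hc
      by_cases hud : up z 0 c = z 0 c
      · obtain ⟨-, h1, h2, h3⟩ := r_str (hM := hM) hL hi hc rfl hud.symm
        have h4 := hZ 0 hi c hc.le
        exact ⟨fun s => h4.trans (h1 s), fun s => h4.trans (h2 s),
          fun k hk hk' => h4.trans (h3 k hk hk')⟩
      · obtain ⟨g1, g2, g3, g4, g5⟩ := r_tr (hM := hM) hL hi hc hud
        have h1 := (hZ 0 hi c hc.le).trans (r_Zl hi hc)
        have h2 := (hZ 0 hi (c + 1) hc).trans (r_Zr hi hc)
        have h3 : Mem b hM act m z (.Q 0 (2 * c + 1) 1) := h1.trans (g4 _).symm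
        have h4 : Mem b hM act m z (.Q 0 (2 * c + 1) 2) := h2.trans (g5 _).symm
        refine ⟨fun s => h3.trans (g4 s), fun s => h4.trans (g5 s), fun k hk hk' => ?_⟩
        obtain rfl | rfl : k = 1 ∨ k = 2 := by omega
        · exact h3
        · exact h4
    | succ i ih =>
      intro hi c hc
      have h1 := (hZ (i + 1) hi c hc.le).trans (r_Zl hi hc)
      have h2 := (hZ (i + 1) hi (c + 1) hc).trans (r_Zr hi hc)
      by_cases hud : up z (i + 1) c = z (i + 1) c
      · cases hz1 : z (i + 1) c with
        | false =>
          rw [hz1] at hud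
          obtain ⟨-, h1, h2, h3⟩ := r_str (hM := hM) hL hi hc hud hz1
          have h4 := hZ (i + 1) hi c hc.le
          exact ⟨fun s => h4.trans (h1 s), fun s => h4.trans (h2 s),
            fun k hk hk' => h4.trans (h3 k hk hk')⟩
        | true =>
          obtain ⟨g1, g2, g3⟩ := r_in (hM := hM) hL hi hc hud
          rw [hz1] at hud
          have hzi : z i c = true := hud
          obtain ⟨q1, q2, -⟩ := ih (by omega) c hc
          have p1 : Mem b hM act m z (.X (i + 1) (2 * c + 1) 0 true) :=
            (q1 false).trans (r_vert hL (by omega) (by omega) (by omega)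
              (by rw [show (2 * c + 1 - 1) / 2 = c by omega]; exact hzi))
          have p2 : Mem b hM act m z (.X (i + 1) (2 * c + 2) 0 true) :=
            (q2 false).trans (r_vert hL (by omega) (by omega) (by omega)
              (by rw [show (2 * c + 2 - 1) / 2 = c by omega]; exact hzi))
          have p3 : Mem b hM act m z (.Q (i + 1) (2 * c + 1) 1) := by
            cases hl : b.lm m (i + 1) c with
            | false =>
              rw [hl] at g1
              exact p1.trans g1.symm
            | true =>
              cases hl' : b.lm m (i + 1) (c + 1) with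
              | true =>
                rw [hl'] at g2
                exact p2.trans g2.symm
              | false =>
                exfalso
                have h5 := lm_succ (b := b) (m := m) (i + 1) c
                rw [hl, hl'] at h5
                exact hthru (i + 1) hi c hc hud hz1
                  (of_xor_true _ h5) hl
          refine ⟨fun s => ?_, fun s => ?_, fun k hk hk' => p3.trans (g3 k hk hk')⟩
          · rcases eq_or_not s (b.lm m (i + 1) c) with hs | hs
            · rw [hs]; exact h1
            · rw [hs]; exact p3.trans g1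
          · rcases eq_or_not s (b.lm m (i + 1) (c + 1)) with hs | hs
            · rw [hs]; exact p3.trans g2
            · rw [hs]; exact h2
      · obtain ⟨g1, g2, g3, g4, g5⟩ := r_tr (hM := hM) hL hi hc hud
        have h3 : Mem b hM act m z (.Q (i + 1) (2 * c + 1) 1) := h1.trans (g4 _).symm
        have h4 : Mem b hM act m z (.Q (i + 1) (2 * c + 1) 2) := h2.trans (g5 _).symm
        refine ⟨fun s => h3.trans (g4 s), fun s => h4.trans (g5 s), fun k hk hk' => ?_⟩
        obtain rfl | rfl : k = 1 ∨ k = 2 := by omega
        · exact h3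
        · exact h4
  have hQ1 : ∀ i n k, i < b.H → n ≤ 2 * b.M → k ≤ b.len i n → 1 ≤ k →
      Mem b hM act m z (.Q i n k) := by
    intro i n k h1 h2 h3 h4
    rcases Nat.even_or_odd' n with ⟨c, rfl | rfl⟩
    · exact (hZ i h1 c (by omega)).trans (r_seg h1 h2 h4 h3 (tr_even i c))
    · exact (hpair i h1 c (by omega)).2.2 k h4 h3
  have hX : ∀ i n k s, b.Val act (.X i n k s) → Mem b hM act m z (.X i n k s) := by
    rintro i n k s hv
    rcases Nat.eq_zero_or_pos k with rfl | hk
    · have hn := hv.2.2.2 rfl
      have hn2 := hv.2.1
      rcases Nat.even_or_odd' n with ⟨c, rfl | rfl⟩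
      · obtain ⟨c, rfl⟩ : ∃ c', c = c' + 1 := ⟨c - 1, by omega⟩
        exact (hpair i hv.1 c (by omega)).2.1 s
      · exact (hpair i hv.1 c (by omega)).1 s
    · exact (hQ1 i n k hv.1 hv.2.1 hv.2.2.1 hk).trans (r_Q (val_Q hv hk) s)
  have hQ : ∀ i n k, b.Val act (.Q i n k) → Mem b hM act m z (.Q i n k) := by
    intro i n k hv
    rcases Nat.eq_zero_or_pos k with rfl | hk
    · exact (hX i n 0 true ⟨hv.1, hv.2.1, hv.2.2.1, fun h => (hv.2.2.2 h).1⟩).trans
        (r_Q hv true).symm
    · exact hQ1 i n k hv.1 hv.2.1 hv.2.2.1 hk
  have hS : ∀ i r, i < b.H → Mem b hM act m z (.S i r) := by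
    intro i r hi
    cases r with
    | false => exact (hZ i hi 0 (Nat.zero_le _)).trans (hSl i hi).symm
    | true => exact (hZ i hi b.M le_rfl).trans (hSr i hi).symm
  have hC : ∀ i r, i < b.H → Mem b hM act m z (.C i r) := by
    intro i r hi
    have h1 : (Gr b hM act m z).Reachable (.C i r) (.S i r) := rch hi (by simp [cand])
    exact (hS i r hi).trans h1.symm
  refine ⟨z, hL, hzn, fun v hv => ?_⟩
  cases v with
  | X i n k s => exact hX i n k s hv
  | Q i n k => exact hQ i n k hv
  | S i r => exact hS i r hv
  | C i r => exact hC i r hv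
  | T i r =>
    have h1 : (Gr b hM act m z).Reachable (.T i r) (.C i r) := rch hv (by simp [cand])
    exact (hC i r hv.1).trans h1.symm
  | A e c =>
    have h1 : (Gr b hM act m z).Reachable (.A e c) (.X e (2 * c + 1) 0 false) :=
      rch hv (by simp [cand])
    exact (hX _ _ _ _ ⟨by have := hv.1; omega, by have := hv.2.1; omega, Nat.zero_le _,
      fun _ => by omega⟩).trans h1.symm

end Pool.Agent.T9h88.XC
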