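import Mathlib

/-!
# The corruption bound for unique disjointness

A rank one nonnegative matrix with much weight on the disjoint pairs of sets has much weight on
the pairs that meet in one element (Razborov).
-/

set_option autoImplicit false

namespace Pool.Agent.T9h88.XC

open Finset

variable {m : ℕ}

/-- the sum over the subsets -/
def Us (u : Finset (Fin m) → ℝ) (T : Finset (Fin m)) : ℝ := ∑ a ∈ T.powerset, u a

theorem Us_nonneg {u : Finset (Fin m) → ℝ} (h0 : ∀ a, 0 ≤ u a) (T : Finset (Fin m)) :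
    0 ≤ Us u T := sum_nonneg fun a _ => h0 a

theorem Us_mono {u : Finset (Fin m) → ℝ} (h0 : ∀ a, 0 ≤ u a) {S T : Finset (Fin m)} (h : S ⊆ T) :
    Us u S ≤ Us u T :=
  sum_le_sum_of_subset_of_nonneg (powerset_mono.2 h) fun a _ _ => h0 a

theorem Us_le {u : Finset (Fin m) → ℝ} {α : ℝ} (h1 : ∀ a, u a ≤ α) (T : Finset (Fin m)) :
    Us u T ≤ α * 2 ^ T.card := by
  unfold Us
  refine (sum_le_sum fun a _ => h1 a).trans ?_
  rw [sum_const, card_powerset, nsmul_eq_mul]
  push_cast
  rw [mul_comm]

/-- the part of the sum with a given element -/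
theorem Us_erase (u : Finset (Fin m) → ℝ) {T : Finset (Fin m)} {i : Fin m} (hi : i ∈ T) :
    Us u T - Us u (T.erase i) = ∑ a ∈ T.powerset with i ∈ a, u a := by
  unfold Us
  rw [← sum_filter_add_sum_filter_not T.powerset (fun a => i ∈ a)]
  have h : T.powerset.filter (fun a => i ∉ a) = (T.erase i).powerset := by
    ext a
    simp only [mem_filter, mem_powerset, subset_erase]
  rw [h]
  ring

theorem Us_insert (u : Finset (Fin m) → ℝ) {T : Finset (Fin m)} {i : Fin m} (hi : i ∈ T) :
    Us u T - Us u (T.erase i) = ∑ a ∈ (T.erase i).powerset, u (insert i a) := by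
  rw [Us_erase u hi]
  refine sum_nbij' (fun a => a.erase i) (fun a => insert i a) ?_ ?_ ?_ ?_ ?_
  · intro a ha
    simp only [mem_filter, mem_powerset] at ha ⊢
    exact erase_subset_erase _ ha.1
  · intro a ha
    simp only [mem_filter, mem_powerset] at ha ⊢
    exact ⟨insert_subset hi (ha.trans (erase_subset _ _)), mem_insert_self _ _⟩
  · intro a ha
    simp only [mem_filter, mem_powerset] at ha
    exact insert_erase ha.2
  · intro a ha
    simp only [mem_powerset] at ha
    exact erase_insert fun h => notMem_erase i T (ha h)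
  · intro a ha
    simp only [mem_filter, mem_powerset] at ha
    rw [insert_erase ha.2]

/-- The inequality of Gibbs. -/
theorem gibbs {u : Finset (Fin m) → ℝ} {α : ℝ} (hα : 0 < α) (h0 : ∀ a, 0 ≤ u a)
    (h1 : ∀ a, u a ≤ α) (T : Finset (Fin m)) (w : Fin m → ℝ) (hw : ∀ i, 0 < w i)
    (hU : 0 < Us u T) :
    Us u T * (Real.log (Us u T) - Real.log (α * ∏ i ∈ T, (1 + w i))) +
      ∑ i ∈ T, Real.log (w i) * (Us u T - Us u (T.erase i)) ≤ 0 := by
  classical
  set U := Us u T with hUdef
  set Z := ∏ i ∈ T, (1 + w i) with hZ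
  have hZ0 : 0 < Z := prod_pos fun i _ => by linarith [hw i]
  have hg0 : ∀ a : Finset (Fin m), 0 < ∏ i ∈ a, w i := fun a => prod_pos fun i _ => hw i
  have hlog : ∀ a : Finset (Fin m), Real.log U - Real.log (α * Z) + ∑ i ∈ a, Real.log (w i) ≤
      (∏ i ∈ a, w i) * U / (α * Z) - 1 := by
    intro a
    have h2 : Real.log ((∏ i ∈ a, w i) * U / (α * Z)) =
        Real.log U - Real.log (α * Z) + ∑ i ∈ a, Real.log (w i) := by
      rw [Real.log_div (mul_pos (hg0 a) hU).ne' (mul_pos hα hZ0).ne',
        Real.log_mul (hg0 a).ne' hU.ne', Real.log_prod (fun i _ => (hw i).ne')]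
      ring
    rw [← h2]
    exact Real.log_le_sub_one_of_pos (div_pos (mul_pos (hg0 a) hU) (mul_pos hα hZ0))
  have h3 : ∑ a ∈ T.powerset, u a * (Real.log U - Real.log (α * Z) +
      ∑ i ∈ a, Real.log (w i)) ≤ 0 := by
    have h4 : ∀ a ∈ T.powerset, u a * (Real.log U - Real.log (α * Z) +
        ∑ i ∈ a, Real.log (w i)) ≤ (∏ i ∈ a, w i) * (U / Z) - u a := by
      intro a _
      have h5 := mul_le_mul_of_nonneg_left (hlog a) (h0 a)
      have h6 : u a * ((∏ i ∈ a, w i) * U / (α * Z)) ≤ (∏ i ∈ a, w i) * (U / Z) := by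
        have h7 : u a * ((∏ i ∈ a, w i) * U / (α * Z)) = (u a / α) * ((∏ i ∈ a, w i) * (U / Z)) := by
          field_simp
        rw [h7]
        have h8 : u a / α ≤ 1 := (div_le_one hα).2 (h1 a)
        have h9 : 0 ≤ (∏ i ∈ a, w i) * (U / Z) :=
          mul_nonneg (hg0 a).le (div_nonneg hU.le hZ0.le)
        nlinarith
      linarith
    refine (sum_le_sum h4).trans ?_
    rw [sum_sub_distrib, ← sum_mul]
    have h5 : ∑ a ∈ T.powerset, ∏ i ∈ a, w i = Z := by
      rw [hZ, prod_one_add]
    have h6 : ∑ a ∈ T.powerset, u a = U := rfl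
    rw [h5, h6, mul_div_cancel₀ _ hZ0.ne']
    linarith
  have h4 : ∑ a ∈ T.powerset, u a * (Real.log U - Real.log (α * Z) +
      ∑ i ∈ a, Real.log (w i)) = U * (Real.log U - Real.log (α * Z)) +
      ∑ i ∈ T, Real.log (w i) * (U - Us u (T.erase i)) := by
    have h5 : ∀ a ∈ T.powerset, u a * (Real.log U - Real.log (α * Z) +
        ∑ i ∈ a, Real.log (w i)) = u a * (Real.log U - Real.log (α * Z)) +
        ∑ i ∈ T, if i ∈ a then Real.log (w i) * u a else 0 := by
      intro a ha
      rw [mem_powerset] at ha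
      rw [sum_ite_mem, inter_eq_right.2 ha, mul_add, mul_sum]
      congr 1
      exact sum_congr rfl fun i _ => mul_comm _ _
    rw [sum_congr rfl h5, sum_add_distrib, ← sum_mul, sum_comm]
    congr 1
    refine sum_congr rfl fun i hi => ?_
    rw [hUdef, Us_erase u hi, mul_sum, sum_filter]
  rw [← h4]
  exact h3

/-- the exponent -/
noncomputable def c0 : ℝ := 3 / 4 * Real.log 3 - Real.log 2

/-- a function with many biased coordinates is small -/
theorem bias {u : Finset (Fin m) → ℝ} {α : ℝ} (hα : 0 < α) (h0 : ∀ a, 0 ≤ u a)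
    (h1 : ∀ a, u a ≤ α) (T I : Finset (Fin m)) (hI : I ⊆ T)
    (hb : (∀ i ∈ I, 3 / 4 * Us u T < Us u (T.erase i)) ∨
      ∀ i ∈ I, Us u (T.erase i) < 1 / 4 * Us u T) :
    Us u T ≤ α * 2 ^ T.card * Real.exp (-(c0 * I.card)) := by
  classical
  rcases (Us_nonneg h0 T).eq_or_lt with h | hU
  · rw [← h]; positivity
  have hZ : ∀ x : ℝ, 0 < x → α * ∏ i ∈ T, (1 + if i ∈ I then x else 1) =
      α * 2 ^ T.card * ((1 + x) / 2) ^ I.card := by
    intro x hx
    have h2 : ∀ i ∈ T, (1 + if i ∈ I then x else 1) = 2 * if i ∈ I then (1 + x) / 2 else 1 := by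
      intro i _
      split_ifs <;> ring
    rw [prod_congr rfl h2, prod_mul_distrib, prod_const, prod_ite_mem, inter_eq_right.2 hI,
      prod_const]
    ring
  have hsum : ∀ x : ℝ, ∑ i ∈ T, Real.log (if i ∈ I then x else 1) * (Us u T - Us u (T.erase i)) =
      Real.log x * ∑ i ∈ I, (Us u T - Us u (T.erase i)) := by
    intro x
    have h2 : ∀ i ∈ T, Real.log (if i ∈ I then x else 1) * (Us u T - Us u (T.erase i)) =
        if i ∈ I then Real.log x * (Us u T - Us u (T.erase i)) else 0 := by
      intro i _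
      split_ifs <;> simp
    rw [sum_congr rfl h2, sum_ite_mem, inter_eq_right.2 hI, mul_sum]
  have key : ∀ x : ℝ, 0 < x → Us u T * (Real.log (Us u T) -
      Real.log (α * 2 ^ T.card * ((1 + x) / 2) ^ I.card)) +
      Real.log x * ∑ i ∈ I, (Us u T - Us u (T.erase i)) ≤ 0 := by
    intro x hx
    have := gibbs hα h0 h1 T (fun i => if i ∈ I then x else 1) (fun i => by
      split_ifs <;> linarith) hU
    rwa [hZ x hx, hsum x] at this
  have fin : Real.log (Us u T) ≤ Real.log (α * 2 ^ T.card) - c0 * I.card →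
      Us u T ≤ α * 2 ^ T.card * Real.exp (-(c0 * I.card)) := by
    intro h
    rw [← Real.exp_log hU]
    have h2 : α * 2 ^ T.card * Real.exp (-(c0 * I.card)) =
        Real.exp (Real.log (α * 2 ^ T.card) - c0 * I.card) := by
      rw [sub_eq_add_neg, Real.exp_add, Real.exp_log (by positivity)]
    rw [h2]
    exact Real.exp_le_exp.2 h
  apply fin
  have hlogx : ∀ x : ℝ, 0 < x → Real.log (α * 2 ^ T.card * ((1 + x) / 2) ^ I.card) =
      Real.log (α * 2 ^ T.card) + I.card * Real.log ((1 + x) / 2) := by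
    intro x hx
    rw [Real.log_mul (by positivity) (by positivity), Real.log_pow]
  rcases hb with hb | hb
  · -- few sets contain the elements of I
    have h2 := key (1 / 3) (by norm_num)
    rw [hlogx _ (by norm_num)] at h2
    have h3 : ∑ i ∈ I, (Us u T - Us u (T.erase i)) ≤ I.card * (1 / 4 * Us u T) := by
      rw [← nsmul_eq_mul, ← sum_const]
      exact sum_le_sum fun i hi => by linarith [hb i hi]
    have h4 : Real.log (1 / 3) = -Real.log 3 := by rw [one_div, Real.log_inv]
    have h5 : Real.log ((1 + 1 / 3) / 2) = Real.log 2 - Real.log 3 := by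
      rw [show ((1 : ℝ) + 1 / 3) / 2 = 2 / 3 by norm_num, Real.log_div (by norm_num) (by norm_num)]
    rw [h4, h5] at h2
    have h6 : 0 < Real.log 3 := Real.log_pos (by norm_num)
    have h7 : Real.log 3 * ∑ i ∈ I, (Us u T - Us u (T.erase i)) ≤
        Real.log 3 * (I.card * (1 / 4 * Us u T)) := mul_le_mul_of_nonneg_left h3 h6.le
    have h8 : Us u T * (Real.log (Us u T) - (Real.log (α * 2 ^ T.card) - c0 * I.card)) ≤ 0 := by
      unfold c0
      nlinarith
    by_contra h
    push Not at h
    have := mul_pos hU (sub_pos.2 h)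
    linarith
  · have h2 := key 3 (by norm_num)
    rw [hlogx _ (by norm_num)] at h2
    have h3 : I.card * (3 / 4 * Us u T) ≤ ∑ i ∈ I, (Us u T - Us u (T.erase i)) := by
      rw [← nsmul_eq_mul, ← sum_const]
      exact sum_le_sum fun i hi => by linarith [hb i hi]
    have h5 : Real.log ((1 + 3) / 2) = Real.log 2 := by norm_num
    rw [h5] at h2
    have h6 : 0 < Real.log 3 := Real.log_pos (by norm_num)
    have h7 : Real.log 3 * (I.card * (3 / 4 * Us u T)) ≤
        Real.log 3 * ∑ i ∈ I, (Us u T - Us u (T.erase i)) := mul_le_mul_of_nonneg_left h3 h6.le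
    have h8 : Us u T * (Real.log (Us u T) - (Real.log (α * 2 ^ T.card) - c0 * I.card)) ≤ 0 := by
      unfold c0
      nlinarith
    by_contra h
    push Not at h
    have := mul_pos hU (sub_pos.2 h)
    linarith

theorem c0_pos : 1 / 10 < c0 := by
  unfold c0
  have h2 : Real.log 2 < 0.6931471808 := Real.log_two_lt_d9
  have h3 : 3 / 2 * Real.log 2 + 5 / 100 ≤ Real.log 3 := by
    have h4 : Real.log 3 = Real.log (9 / 8) / 2 + 3 / 2 * Real.log 2 := by
      have : Real.log (9 / 8) = 2 * Real.log 3 - 3 * Real.log 2 := by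
        rw [Real.log_div (by norm_num) (by norm_num), show (9 : ℝ) = 3 ^ 2 by norm_num,
          show (8 : ℝ) = 2 ^ 3 by norm_num, Real.log_pow, Real.log_pow]
        norm_num
      rw [this]; ring
    have h5 : 1 / 9 ≤ Real.log (9 / 8) := by
      have := Real.one_sub_inv_le_log_of_pos (show (0 : ℝ) < 9 / 8 by norm_num)
      norm_num at this ⊢
      linarith
    rw [h4]
    linarith
  have h6 : 0.6931471803 < Real.log 2 := Real.log_two_gt_d9
  nlinarith

end Pool.Agent.T9h88.XC
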