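import Pool.Agent.T9h88.XC.Corr

/-!
# The corruption bound, second part
-/

set_option autoImplicit false

namespace Pool.Agent.T9h88.XC

open Finset

variable {m : ℕ}

open Classical in
/-- the biased coordinates -/
noncomputable def Bi (u : Finset (Fin m) → ℝ) (T : Finset (Fin m)) : Finset (Fin m) :=
  T.filter fun i => 3 / 4 * Us u T < Us u (T.erase i) ∨ Us u (T.erase i) < 1 / 4 * Us u T

theorem Bi_card {u : Finset (Fin m) → ℝ} {α : ℝ} (hα : 0 < α) (h0 : ∀ a, 0 ≤ u a)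
    (h1 : ∀ a, u a ≤ α) (T : Finset (Fin m)) (k : ℕ) :
    (Bi u T).card * Us u T ≤ 2 * k * Us u T + m * (α * 2 ^ T.card * Real.exp (-(c0 * k))) := by
  classical
  have hU := Us_nonneg h0 T
  have hE : 0 ≤ α * 2 ^ T.card * Real.exp (-(c0 * k)) := by positivity
  have hm0 : (0 : ℝ) ≤ m := Nat.cast_nonneg _
  rcases Nat.lt_or_ge (2 * k) (Bi u T).card with h | h
  · set I0 := T.filter fun i => 3 / 4 * Us u T < Us u (T.erase i) with hI0
    set I1 := T.filter fun i => Us u (T.erase i) < 1 / 4 * Us u T with hI1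
    have h2 : (Bi u T).card ≤ I0.card + I1.card := by
      unfold Bi
      rw [filter_or]
      exact card_union_le _ _
    have h3 : Us u T ≤ α * 2 ^ T.card * Real.exp (-(c0 * k)) := by
      have hc := c0_pos
      have mono : ∀ I : Finset (Fin m), k ≤ I.card →
          α * 2 ^ T.card * Real.exp (-(c0 * I.card)) ≤ α * 2 ^ T.card * Real.exp (-(c0 * k)) := by
        intro I hI
        refine mul_le_mul_of_nonneg_left (Real.exp_le_exp.2 ?_) (by positivity)
        have : (k : ℝ) ≤ I.card := by exact_mod_cast hI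
        nlinarith
      rcases Nat.lt_or_ge I0.card k with h4 | h4
      · exact (bias hα h0 h1 T I1 (filter_subset _ _) (Or.inr fun i hi => (mem_filter.1 hi).2)).trans
          (mono _ (by omega))
      · exact (bias hα h0 h1 T I0 (filter_subset _ _) (Or.inl fun i hi => (mem_filter.1 hi).2)).trans
          (mono _ h4)
    have h4 : ((Bi u T).card : ℝ) ≤ m := by
      have : (Bi u T).card ≤ (univ : Finset (Fin m)).card := card_le_card (subset_univ _)
      rw [card_univ, Fintype.card_fin] at this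
      exact_mod_cast this
    have h5 : ((Bi u T).card : ℝ) * Us u T ≤ m * (α * 2 ^ T.card * Real.exp (-(c0 * k))) :=
      mul_le_mul h4 h3 hU hm0
    have h6 : 0 ≤ 2 * (k : ℝ) * Us u T := by positivity
    linarith
  · have h2 : ((Bi u T).card : ℝ) ≤ 2 * k := by exact_mod_cast h
    have h3 := mul_le_mul_of_nonneg_right h2 hU
    have h4 := mul_nonneg hm0 hE
    linarith

theorem swap (F : Finset (Fin m) → Fin m → ℝ) :
    ∑ S : Finset (Fin m), ∑ i ∈ Sᶜ, F S i = ∑ T : Finset (Fin m), ∑ i ∈ T, F (T.erase i) i := by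
  rw [sum_sigma', sum_sigma']
  refine sum_nbij' (fun x => ⟨insert x.2 x.1, x.2⟩) (fun x => ⟨x.1.erase x.2, x.2⟩) ?_ ?_ ?_ ?_ ?_
  · rintro ⟨S, i⟩ h
    simp only [mem_sigma, mem_univ, mem_compl, true_and] at h ⊢
    exact mem_insert_self _ _
  · rintro ⟨T, i⟩ h
    simp only [mem_sigma, mem_univ, mem_compl, true_and] at h ⊢
    exact notMem_erase _ _
  · rintro ⟨S, i⟩ h
    simp only [mem_sigma, mem_univ, mem_compl, true_and] at h ⊢
    rw [erase_insert h]
  · rintro ⟨T, i⟩ h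
    simp only [mem_sigma, mem_univ, true_and] at h ⊢
    rw [insert_erase h]
  · rintro ⟨S, i⟩ h
    simp only [mem_sigma, mem_univ, mem_compl, true_and] at h ⊢
    rw [erase_insert h]

theorem compl_erase' {T : Finset (Fin m)} {i : Fin m} (hi : i ∈ T) :
    ((T.erase i)ᶜ).erase i = Tᶜ := by
  ext j
  simp only [mem_erase, mem_compl, not_and, not_not]
  constructor
  · rintro ⟨h1, h2⟩ h3; exact absurd (h2 h1) (by simpa using h3)
  · intro h
    refine ⟨fun h' => h (h' ▸ hi), fun _ => h⟩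

/-- the weight on the disjoint pairs -/
def DD (u v : Finset (Fin m) → ℝ) : ℝ := ∑ T : Finset (Fin m), Us u T * Us v Tᶜ

/-- the weight on the pairs that meet in one element -/
def WW (u v : Finset (Fin m) → ℝ) : ℝ := ∑ T : Finset (Fin m), ∑ i ∈ T,
  (Us u T - Us u (T.erase i)) * (Us v (T.erase i)ᶜ - Us v Tᶜ)

open Classical in
theorem pointwise {x x0 y y0 : ℝ} (h1 : 0 ≤ x0) (h2 : x0 ≤ x) (h3 : 0 ≤ y) (h4 : y ≤ y0) :
    x * y + x0 * y0 ≤ 24 * ((x - x0) * (y0 - y)) +
      (5 * (if 3 / 4 * x < x0 ∨ x0 < 1 / 4 * x then x * y else 0) +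
      5 * (if 3 / 4 * y0 < y ∨ y < 1 / 4 * y0 then x0 * y0 else 0)) := by
  have h5 : 0 ≤ (x - x0) * (y0 - y) := mul_nonneg (by linarith) (by linarith)
  have h6 : 0 ≤ x * y := mul_nonneg (by linarith) h3
  have h7 : 0 ≤ x0 * y0 := mul_nonneg h1 (by linarith)
  by_cases ha : 3 / 4 * x < x0 ∨ x0 < 1 / 4 * x
  · rw [if_pos ha]
    by_cases hb : 3 / 4 * y0 < y ∨ y < 1 / 4 * y0
    · rw [if_pos hb]; linarith
    · rw [if_neg hb]
      push Not at hb
      have : x0 * y0 ≤ x * (4 * y) := mul_le_mul h2 (by linarith) (by linarith) (by linarith)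
      linarith
  · rw [if_neg ha]
    push Not at ha
    by_cases hb : 3 / 4 * y0 < y ∨ y < 1 / 4 * y0
    · rw [if_pos hb]
      have : x * y ≤ (4 * x0) * y0 := mul_le_mul (by linarith) h4 h3 (by linarith)
      linarith
    · rw [if_neg hb]
      push Not at hb
      have e1 : x * y ≤ (4 * (x - x0)) * (3 * (y0 - y)) :=
        mul_le_mul (by linarith) (by linarith) h3 (by linarith)
      have e2 : x0 * y0 ≤ (3 * (x - x0)) * (4 * (y0 - y)) :=
        mul_le_mul (by linarith) (by linarith) (by linarith) (by linarith)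
      linarith

/-- The corruption bound. -/
theorem corr {u v : Finset (Fin m) → ℝ} {α β : ℝ} (hα : 0 < α) (hβ : 0 < β)
    (hu0 : ∀ a, 0 ≤ u a) (hu1 : ∀ a, u a ≤ α) (hv0 : ∀ a, 0 ≤ v a) (hv1 : ∀ a, v a ≤ β)
    (hm : 1 ≤ m) {k : ℕ} (hk : 40 * k ≤ m) :
    m * DD u v ≤ 48 * WW u v + 20 * m * 4 ^ m * (α * β * Real.exp (-(c0 * k))) := by
  classical
  set E := Real.exp (-(c0 * k)) with hE
  have hE0 : 0 < E := Real.exp_pos _
  have hmono : ∀ {S T : Finset (Fin m)}, S ⊆ T → Us u S ≤ Us u T := fun h => Us_mono hu0 h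
  have hmonov : ∀ {S T : Finset (Fin m)}, S ⊆ T → Us v S ≤ Us v T := fun h => Us_mono hv0 h
  -- the left side
  have hL : (m : ℝ) * DD u v = ∑ T : Finset (Fin m), ∑ i ∈ T,
      (Us u T * Us v Tᶜ + Us u (T.erase i) * Us v (T.erase i)ᶜ) := by
    have h1 : ∑ T : Finset (Fin m), ∑ i ∈ T, Us u (T.erase i) * Us v (T.erase i)ᶜ =
        ∑ S : Finset (Fin m), ∑ i ∈ Sᶜ, Us u S * Us v Sᶜ :=
      (swap fun S _ => Us u S * Us v Sᶜ).symm
    simp only [sum_add_distrib]
    rw [h1, ← sum_add_distrib]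
    unfold DD
    rw [mul_sum]
    refine sum_congr rfl fun T _ => ?_
    rw [sum_const, sum_const, card_compl, Fintype.card_fin, nsmul_eq_mul, nsmul_eq_mul]
    have h2 : T.card ≤ m := by
      have := card_le_card (subset_univ T)
      rwa [card_univ, Fintype.card_fin] at this
    rw [Nat.cast_sub h2]
    ring
  -- the biased coordinates
  have hA : ∑ T : Finset (Fin m), ∑ i ∈ T,
      (if 3 / 4 * Us u T < Us u (T.erase i) ∨ Us u (T.erase i) < 1 / 4 * Us u T then
        Us u T * Us v Tᶜ else 0) ≤ 2 * k * DD u v + m * 4 ^ m * (α * β * E) := by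
    have h1 : ∀ T : Finset (Fin m), ∑ i ∈ T,
        (if 3 / 4 * Us u T < Us u (T.erase i) ∨ Us u (T.erase i) < 1 / 4 * Us u T then
          Us u T * Us v Tᶜ else 0) ≤ 2 * k * (Us u T * Us v Tᶜ) + m * 2 ^ m * (α * β * E) := by
      intro T
      rw [← sum_filter, sum_const, nsmul_eq_mul]
      change ((Bi u T).card : ℝ) * _ ≤ _
      have h2 := mul_le_mul_of_nonneg_right (Bi_card hα hu0 hu1 T k) (Us_nonneg hv0 Tᶜ)
      rw [← hE] at h2
      have h3 := Us_le hv1 Tᶜ
      have h4 : (m : ℝ) * (α * 2 ^ T.card * E) * Us v Tᶜ ≤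
          m * (α * 2 ^ T.card * E) * (β * 2 ^ (Tᶜ).card) :=
        mul_le_mul_of_nonneg_left h3 (by positivity)
      have h5 : (2 : ℝ) ^ T.card * 2 ^ (Tᶜ).card = 2 ^ m := by
        rw [← pow_add, card_add_card_compl, Fintype.card_fin]
      have h6 : (m : ℝ) * (α * 2 ^ T.card * E) * (β * 2 ^ (Tᶜ).card) = m * 2 ^ m * (α * β * E) := by
        rw [← h5]; ring
      linarith
    refine (sum_le_sum fun T _ => h1 T).trans ?_
    rw [sum_add_distrib, ← mul_sum, sum_const, card_univ, Fintype.card_finset, Fintype.card_fin,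
      nsmul_eq_mul]
    unfold DD
    have h7 : (4 : ℝ) ^ m = 2 ^ m * 2 ^ m := by rw [← mul_pow]; norm_num
    rw [h7]
    push_cast
    apply le_of_eq
    ring
  have hB : ∑ T : Finset (Fin m), ∑ i ∈ T,
      (if 3 / 4 * Us v (T.erase i)ᶜ < Us v Tᶜ ∨ Us v Tᶜ < 1 / 4 * Us v (T.erase i)ᶜ then
        Us u (T.erase i) * Us v (T.erase i)ᶜ else 0) ≤
      2 * k * DD u v + m * 4 ^ m * (α * β * E) := by
    have h0 : ∑ T : Finset (Fin m), ∑ i ∈ T,
        (if 3 / 4 * Us v (T.erase i)ᶜ < Us v Tᶜ ∨ Us v Tᶜ < 1 / 4 * Us v (T.erase i)ᶜ then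
          Us u (T.erase i) * Us v (T.erase i)ᶜ else 0) =
        ∑ S : Finset (Fin m), ∑ i ∈ Sᶜ,
        (if 3 / 4 * Us v Sᶜ < Us v (Sᶜ.erase i) ∨ Us v (Sᶜ.erase i) < 1 / 4 * Us v Sᶜ then
          Us u S * Us v Sᶜ else 0) := by
      rw [swap (fun S i => if 3 / 4 * Us v Sᶜ < Us v (Sᶜ.erase i) ∨
        Us v (Sᶜ.erase i) < 1 / 4 * Us v Sᶜ then Us u S * Us v Sᶜ else 0)]
      refine sum_congr rfl fun T _ => sum_congr rfl fun i hi => ?_
      rw [compl_erase' hi]
    rw [h0]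
    have h1 : ∀ S : Finset (Fin m), ∑ i ∈ Sᶜ,
        (if 3 / 4 * Us v Sᶜ < Us v (Sᶜ.erase i) ∨ Us v (Sᶜ.erase i) < 1 / 4 * Us v Sᶜ then
          Us u S * Us v Sᶜ else 0) ≤ 2 * k * (Us u S * Us v Sᶜ) + m * 2 ^ m * (α * β * E) := by
      intro S
      rw [← sum_filter, sum_const, nsmul_eq_mul]
      change ((Bi v Sᶜ).card : ℝ) * _ ≤ _
      have h2 := mul_le_mul_of_nonneg_right (Bi_card hβ hv0 hv1 Sᶜ k) (Us_nonneg hu0 S)
      rw [← hE] at h2
      have h3 := Us_le hu1 S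
      have h4 : (m : ℝ) * (β * 2 ^ (Sᶜ).card * E) * Us u S ≤
          m * (β * 2 ^ (Sᶜ).card * E) * (α * 2 ^ S.card) :=
        mul_le_mul_of_nonneg_left h3 (by positivity)
      have h5 : (2 : ℝ) ^ S.card * 2 ^ (Sᶜ).card = 2 ^ m := by
        rw [← pow_add, card_add_card_compl, Fintype.card_fin]
      have h6 : (m : ℝ) * (β * 2 ^ (Sᶜ).card * E) * (α * 2 ^ S.card) = m * 2 ^ m * (α * β * E) := by
        rw [← h5]; ring
      linarith
    refine (sum_le_sum fun T _ => h1 T).trans ?_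
    rw [sum_add_distrib, ← mul_sum, sum_const, card_univ, Fintype.card_finset, Fintype.card_fin,
      nsmul_eq_mul]
    unfold DD
    have h7 : (4 : ℝ) ^ m = 2 ^ m * 2 ^ m := by rw [← mul_pow]; norm_num
    rw [h7]
    push_cast
    apply le_of_eq
    ring
  have hmain : (m : ℝ) * DD u v ≤ 24 * WW u v + (5 * (2 * k * DD u v + m * 4 ^ m * (α * β * E)) +
      5 * (2 * k * DD u v + m * 4 ^ m * (α * β * E))) := by
    rw [hL]
    refine (sum_le_sum fun T _ => sum_le_sum fun i hi => pointwise (Us_nonneg hu0 _)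
      (hmono (erase_subset i T)) (Us_nonneg hv0 _) (hmonov (compl_subset_compl.2
        (erase_subset i T)))).trans ?_
    simp only [sum_add_distrib, ← mul_sum]
    have hW : ∑ T : Finset (Fin m), ∑ i ∈ T, (Us u T - Us u (T.erase i)) *
        (Us v (T.erase i)ᶜ - Us v Tᶜ) = WW u v := rfl
    rw [hW]
    have := mul_le_mul_of_nonneg_left hA (show (0 : ℝ) ≤ 5 by norm_num)
    have := mul_le_mul_of_nonneg_left hB (show (0 : ℝ) ≤ 5 by norm_num)
    linarith
  have hD0 : 0 ≤ DD u v := sum_nonneg fun T _ => mul_nonneg (Us_nonneg hu0 _) (Us_nonneg hv0 _)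
  have hkm : (40 : ℝ) * k ≤ m := by exact_mod_cast hk
  nlinarith

end Pool.Agent.T9h88.XC
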