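import Pool.Agent.T9h88.XC.Vals

/-!
# The length of the tight tours, and a lower bound for all tours
-/

set_option autoImplicit false

namespace Pool.Agent.T9h88.XC

open Pool.Agent.ETSP Pool.Agent.T9h21.TB Pool.Agent.T9h21.TB.Board

variable {m : ℕ} {a : ℕ → Bool} {L : ℤ}

theorem sum_SS (f : Nd → ℝ) : ∑ u ∈ SS m a, f u =
    ∑ i ∈ (Finset.range m).filter (fun i => a i = true), f (.X (i + 2) 0 3 true) +
    ∑ j ∈ pa m a, (f (.X 1 (18 * j + 15) 1 true) + f (.X 1 (18 * j + 15) 1 false)) := by
  unfold SS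
  rw [Finset.sum_union, Finset.sum_union, Finset.sum_add_distrib]
  · congr 1
    · unfold SR
      rw [Finset.sum_image]
      intro i _ j _ h
      simpa using h
    · congr 1
      · unfold SE
        rw [Finset.sum_image]
        intro i _ j _ h
        simpa using h
      · unfold SE
        rw [Finset.sum_image]
        intro i _ j _ h
        simpa using h
  · rw [Finset.disjoint_left]
    intro u h1 h2
    obtain ⟨j, -, rfl⟩ := mem_SE.1 h1
    obtain ⟨j', -, h⟩ := mem_SE.1 h2
    simp at h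
  · rw [Finset.disjoint_left]
    intro u h1 h2
    obtain ⟨i, -, -, rfl⟩ := mem_SR.1 h1
    obtain ⟨j, s, -, h⟩ := mem_SEE.1 h2
    simp at h

theorem bit_abs (x y : ℕ) (h : x + y = 1) : (y : ℝ) = 1 - x := by
  have : ((x + y : ℕ) : ℝ) = 1 := by rw [h]; simp
  push_cast at this
  linarith

/-- The length of a tight tour. -/
theorem tight_len (hm : 1 ≤ m) (hL : 1 ≤ L) {l : List Nd} (hl : l.Nodup)
    (hv : ∀ v, v ∈ l ↔ (bo m).Val (ac m) v)
    (hC : Cyc ((bo m).Val (ac m)) (bo m).Tight l.formPerm) :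
    tl (dd (bo m) L (de m a)) l = L * (bo m).bd +
      (∑ i ∈ (Finset.range m).filter (fun i => a i = true),
        (k1 L + 1 - 2 * (gp (bo m) (Ad l.formPerm) (i + 2) 0 2 true : ℝ)) +
      ∑ j ∈ pa m a, ((e1 L + 1) * ((gp (bo m) (Ad l.formPerm) 1 (18 * j + 15) 0 true : ℝ) +
        (gp (bo m) (Ad l.formPerm) 1 (18 * j + 15) 0 false : ℝ) - 1) +
        (e1 L - 1 + 2 * k4 L))) := by
  classical
  have hM := one_le m
  have hLoc : Loc (bo m) (ac m) (Ad l.formPerm) := loc_of_cyc hM hC
  have hT : ∀ v, v ∈ l.toFinset ↔ (bo m).Val (ac m) v := fun v => by rw [List.mem_toFinset, hv]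
  have h1 := disp_cost (b := bo m) (L := L) (δ := de m a) hM (by omega) hC hT
    (SS_sub hm hT) (fun v _ h => de_SS h) (fun u hu => SS_form hu)
  rw [List.sum_toFinset _ hl, List.sum_toFinset _ hl, tl_formPerm hl] at h1
  rw [h1, bd_eq (ac m) hl hv, sum_SS]
  have h2 : ∀ i ∈ (Finset.range m).filter (fun i => a i = true),
      Fc (bo m) L (de m a) (Ad l.formPerm) (.X (i + 2) 0 3 true) =
        k1 L + 1 - 2 * (gp (bo m) (Ad l.formPerm) (i + 2) 0 2 true : ℝ) := by
    intro i hi
    rw [Finset.mem_filter, Finset.mem_range] at hi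
    obtain ⟨g1, g2, g3⟩ := ex_R hL hi.1 hi.2
    have g4 := gp_step (s := true) hM hLoc (i := i + 2) (n := 0) (k := 2) (by rw [bo_H]; omega)
      (by omega) (by have : (bo m).len (i + 2) 0 = 12 := (by unfold Board.len; rw [ty_F']; rfl)
                     omega)
    have g5 := bit_abs _ _ g4
    unfold Fc
    simp only
    rw [lf_R, rt_R, g1, g2, g3, g5]
    ring
  have h3 : ∀ j ∈ pa m a, Fc (bo m) L (de m a) (Ad l.formPerm) (.X 1 (18 * j + 15) 1 true) +
      Fc (bo m) L (de m a) (Ad l.formPerm) (.X 1 (18 * j + 15) 1 false) =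
      (e1 L + 1) * ((gp (bo m) (Ad l.formPerm) 1 (18 * j + 15) 0 true : ℝ) +
        (gp (bo m) (Ad l.formPerm) 1 (18 * j + 15) 0 false : ℝ) - 1) +
        (e1 L - 1 + 2 * k4 L) := by
    intro j hj
    have hj' := (mem_pa.1 hj).1
    have g4 : ∀ s, (gp (bo m) (Ad l.formPerm) 1 (18 * j + 15) 1 s : ℝ) =
        1 - gp (bo m) (Ad l.formPerm) 1 (18 * j + 15) 0 s := by
      intro s
      refine bit_abs _ _ (gp_step (s := s) hM hLoc (i := 1) (n := 18 * j + 15) (k := 0)
        (by rw [bo_H]; omega) (by rw [bo_M]; omega) ?_)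
      have : (bo m).len 1 (18 * j + 15) = 2 := (by unfold Board.len; rw [ty_E15 m j hj']; rfl)
      omega
    have g6 : ∀ s, Fc (bo m) L (de m a) (Ad l.formPerm) (.X 1 (18 * j + 15) 1 s) =
        (gp (bo m) (Ad l.formPerm) 1 (18 * j + 15) 0 s : ℝ) * (e1 L + 1) - 1 + k4 L := by
      intro s
      obtain ⟨g1, g2, g3⟩ := ex_E hL hj s
      unfold Fc
      simp only
      rw [lf_E, rt_E hj', g1, g2, g3, g4 s]
      simp only [Nat.sub_self]
      ring
    rw [g6 true, g6 false]
    ring
  rw [Finset.sum_congr rfl h2, Finset.sum_congr rfl h3]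
  ring

variable (m a L) in
/-- the length of the tours that use no bit of `a` -/
noncomputable def ca : ℝ := L * (bo m).bd +
  (((Finset.range m).filter fun i => a i = true).card * (k1 L + 1) +
    (pa m a).card * (e1 L - 1 + 2 * k4 L))

theorem tight_len' (hm : 1 ≤ m) (hL : 1 ≤ L) {l : List Nd} (hl : l.Nodup)
    (hv : ∀ v, v ∈ l ↔ (bo m).Val (ac m) v)
    (hC : Cyc ((bo m).Val (ac m)) (bo m).Tight l.formPerm) :
    tl (dd (bo m) L (de m a)) l = ca m a L -
      2 * ∑ i ∈ (Finset.range m).filter (fun i => a i = true),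
        (gp (bo m) (Ad l.formPerm) (i + 2) 0 2 true : ℝ) +
      (e1 L + 1) * ∑ j ∈ pa m a, ((gp (bo m) (Ad l.formPerm) 1 (18 * j + 15) 0 true : ℝ) +
        (gp (bo m) (Ad l.formPerm) 1 (18 * j + 15) 0 false : ℝ) - 1) := by
  rw [tight_len hm hL hl hv hC]
  unfold ca
  rw [Finset.sum_add_distrib, Finset.sum_sub_distrib, Finset.sum_const, ← Finset.mul_sum,
    ← Finset.mul_sum, Finset.sum_const, nsmul_eq_mul, nsmul_eq_mul]
  ring

/-- sums over the pairs -/
theorem sum_block (f : ℕ → ℕ → ℝ) (m : ℕ) : ∀ n : ℕ, ∑ j ∈ Finset.range (n * m),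
    f (j / m) (j % m) = ∑ p ∈ Finset.range n, ∑ q ∈ Finset.range m, f p q := by
  intro n
  induction n with
  | zero => simp
  | succ n ih =>
    rw [Nat.succ_mul, Finset.sum_range_add, ih, Finset.sum_range_succ]
    congr 1
    refine Finset.sum_congr rfl fun q hq => ?_
    rw [Finset.mem_range] at hq
    have hm : 0 < m := by omega
    rw [Nat.add_comm (n * m) q, Nat.add_mul_div_right _ _ hm, Nat.add_mul_mod_self_right,
      Nat.div_eq_of_lt hq, Nat.mod_eq_of_lt hq, Nat.zero_add]

/-- the number of ordered pairs of bits -/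
theorem sum_pairs (x : ℕ → ℝ) (hx : ∀ i, x i = 0 ∨ x i = 1) :
    ∑ j ∈ pa m a, x (j / m) * x (j % m) =
      (∑ i ∈ (Finset.range m).filter (fun i => a i = true), x i) ^ 2 -
        ∑ i ∈ (Finset.range m).filter (fun i => a i = true), x i := by
  unfold pa
  rw [Finset.sum_filter, Finset.sum_filter]
  have h1 := sum_block (fun p q => if a p = true ∧ a q = true ∧ p ≠ q then x p * x q else 0) m m
  rw [h1]
  have h2 : ∀ p ∈ Finset.range m, ∑ q ∈ Finset.range m,
      (if a p = true ∧ a q = true ∧ p ≠ q then x p * x q else 0) =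
      (if a p = true then x p else 0) * (∑ q ∈ Finset.range m, if a q = true then x q else 0) -
        (if a p = true then x p else 0) := by
    intro p hp
    rw [Finset.mul_sum]
    have h3 : (if a p = true then x p else 0) =
        ∑ q ∈ Finset.range m, if q = p then (if a p = true then x p else 0) else 0 := by
      rw [Finset.sum_ite_eq' (Finset.range m) p, if_pos hp]
    conv_rhs => rw [h3]
    rw [← Finset.sum_sub_distrib]
    refine Finset.sum_congr rfl fun q hq => ?_
    by_cases hpq : q = p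
    · subst hpq
      have h4 : ∑ q_1 ∈ Finset.range m, (if q_1 = q then (if a q = true then x q else 0) else 0) =
          (if a q = true then x q else 0) := by
        rw [Finset.sum_ite_eq' (Finset.range m) q, if_pos hp]
      rw [h4]
      by_cases e : a q = true <;> rcases hx q with h | h <;> simp [h, e]
    · have h4 : ∑ q_1 ∈ Finset.range m, (if q_1 = p then (if a p = true then x p else 0) else 0) =
          (if a p = true then x p else 0) := by
        rw [Finset.sum_ite_eq' (Finset.range m) p, if_pos hp]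
      rw [h4, if_neg hpq]
      by_cases e1 : a p = true <;> by_cases e2 : a q = true <;>
        simp [e1, e2, Ne.symm hpq]
  rw [Finset.sum_congr rfl h2, Finset.sum_sub_distrib, ← Finset.sum_mul]
  ring

end Pool.Agent.T9h88.XC
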