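import Pool.Agent.T9h21.TB.Cyc
import Pool.Agent.ETSP.Geo

/-!
# Tours as lists and as permutations
-/

set_option autoImplicit false

namespace Pool.Agent.T9h88.XC

open Pool.Agent.ETSP

section

variable {V : Type} {d : V → V → ℝ}

theorem pl_zip : ∀ (l : List V) (a b : V), pl d a l b = (List.zipWith d (a :: l) (l ++ [b])).sum := by
  intro l
  induction l with
  | nil => intro a b; simp [pl]
  | cons x l ih => intro a b; simp only [pl, ih, List.cons_append, List.zipWith_cons_cons,
      List.sum_cons]

theorem tl_zip (l : List V) : tl d l = (List.zipWith d l (l.rotate 1)).sum := by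
  cases l with
  | nil => simp [tl]
  | cons a l => simp only [tl, pl_zip]; simp

theorem tl_formPerm [DecidableEq V] {l : List V} (hl : l.Nodup) :
    (l.map fun v => d v (l.formPerm v)).sum = tl d l := by
  rw [tl_zip]
  congr 1
  apply List.ext_getElem
  · simp
  · intro i h1 h2
    have h3 : i < l.length := by simpa using h1
    rw [List.getElem_map, List.getElem_zipWith, List.formPerm_apply_getElem _ hl,
      List.getElem_rotate]

theorem pl_map {W : Type} (f : V → W) (d' : W → W → ℝ) (hd : ∀ v w, d' (f v) (f w) = d v w)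
    (l : List V) : ∀ a b, pl d' (f a) (l.map f) (f b) = pl d a l b := by
  induction l with
  | nil => intro a b; simp [pl, hd]
  | cons x l ih => intro a b; simp only [pl, List.map_cons, ih, hd]

theorem tl_map {W : Type} (f : V → W) (d' : W → W → ℝ) (hd : ∀ v w, d' (f v) (f w) = d v w)
    (l : List V) : tl d' (l.map f) = tl d l := by
  cases l with
  | nil => simp [tl]
  | cons x l => simp only [tl, List.map_cons]; exact pl_map f d' hd l x x

theorem pl_reverse (hs : ∀ a b, d a b = d b a) (l : List V) : ∀ a b,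
    pl d a l.reverse b = pl d b l a := by
  induction l with
  | nil => intro a b; exact hs a b
  | cons x l ih =>
    intro a b
    rw [List.reverse_cons, pl_append, ih]
    simp only [pl]
    rw [hs x b]
    ring

end

/-- `σ` is a tour through `n` places: it leads from every place to every other. -/
def IsTour {n : ℕ} (σ : Equiv.Perm (Fin n)) : Prop := ∀ p q, ∃ k : ℕ, (σ ^ k) p = q

theorem list_of_tour {n : ℕ} (hn : 2 ≤ n) {σ : Equiv.Perm (Fin n)} (hσ : IsTour σ) :
    ∃ T : List (Fin n), T.Nodup ∧ (∀ i, i ∈ T) ∧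
      ∀ d : Fin n → Fin n → ℝ, ∑ i, d i (σ i) = tl d T := by
  classical
  set x : Fin n := ⟨0, by omega⟩ with hx
  have hsame : ∀ y, σ.SameCycle x y := by
    intro y
    obtain ⟨k, hk⟩ := hσ x y
    exact ⟨k, by rw [zpow_natCast]; exact hk⟩
  have hsup : x ∈ σ.support := by
    rw [Equiv.Perm.mem_support]
    intro h
    obtain ⟨k, hk⟩ := hσ x ⟨1, by omega⟩
    have h1 : ∀ k : ℕ, (σ ^ k) x = x := by
      intro k
      induction k with
      | zero => rfl
      | succ k ih => rw [pow_succ, Equiv.Perm.mul_apply, h, ih]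
    rw [h1] at hk
    rw [hx] at hk
    simp at hk
  have hnd := Equiv.Perm.nodup_toList σ x
  have hall : ∀ i, i ∈ Equiv.Perm.toList σ x := fun i =>
    Equiv.Perm.mem_toList_iff.2 ⟨hsame i, hsup⟩
  refine ⟨Equiv.Perm.toList σ x, hnd, hall, fun d => ?_⟩
  rw [← tl_formPerm hnd]
  have h1 : (Equiv.Perm.toList σ x).formPerm = σ := by
    rw [Equiv.Perm.formPerm_toList]
    ext y
    rw [(hsame y).cycleOf_apply]
  rw [h1, ← List.sum_toFinset _ hnd]
  refine Finset.sum_congr ?_ fun _ _ => rfl
  ext i
  simp [hall i]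

theorem tour_of_list {n : ℕ} (hn : 2 ≤ n) {T : List (Fin n)} (hT : T.Nodup) (hall : ∀ i, i ∈ T) :
    ∃ σ : Equiv.Perm (Fin n), IsTour σ ∧
      ∀ d : Fin n → Fin n → ℝ, ∑ i, d i (σ i) = tl d T := by
  classical
  have h1 : T.length = n := by
    have h2 : T.toFinset = Finset.univ := by ext i; simp [hall i]
    have h3 := List.toFinset_card_of_nodup hT
    rw [h2] at h3
    simpa using h3.symm
  have hcyc := List.isCycle_formPerm hT (by omega)
  have hne : ∀ i, T.formPerm i ≠ i := fun i =>
    (List.formPerm_apply_mem_ne_self_iff _ hT _ (hall i)).2 (by omega)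
  refine ⟨T.formPerm, fun p q => ?_, fun d => ?_⟩
  · exact hcyc.exists_pow_eq (hne p) (hne q)
  · rw [← tl_formPerm hT, ← List.sum_toFinset _ hT]
    refine Finset.sum_congr ?_ fun _ _ => rfl
    ext i
    simp [hall i]

end Pool.Agent.T9h88.XC
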