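import Pool.Agent.T9h88.XC.Sound2
import Pool.Agent.T9h88.XC.TourL

/-!
# Boards with slightly displaced points
-/

set_option autoImplicit false

namespace Pool.Agent.T9h88.XC

open Pool.Agent.ETSP Pool.Agent.T9h21.TB Pool.Agent.T9h21.TB.Board

variable (b : Board) (L : ℤ) (δ : Nd → ℤ)

/-- the scaled and displaced position of a node -/
def P (v : Nd) : ℤ × ℤ := (L * b.px v + δ v, L * b.py v)

/-- the distance of two displaced nodes -/
noncomputable def dd (v w : Nd) : ℝ := eucl (P b L δ v) (P b L δ w)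

/-- the excess of the distance over the sum of the radii -/
noncomputable def ex (v w : Nd) : ℝ := dd b L δ v w - L * ((b.rad v : ℝ) + b.rad w)

variable {b L δ}

theorem eucl_eq (p q : ℤ × ℤ) : eucl p q = √(((q.1 : ℝ) - p.1) ^ 2 + ((q.2 : ℝ) - p.2) ^ 2) := by
  unfold eucl nrm
  simp only [Prod.fst_sub, Prod.snd_sub, Int.cast_sub]

theorem eucl_comm (p q : ℤ × ℤ) : eucl p q = eucl q p := by
  rw [eucl_eq, eucl_eq]; congr 1; ring

theorem dd_eq (v w : Nd) : dd b L δ v w = √((L * ((b.px w : ℝ) - b.px v) + (δ w - δ v)) ^ 2 +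
    (L * ((b.py w : ℝ) - b.py v)) ^ 2) := by
  unfold dd P
  rw [eucl_eq]
  simp only [Int.cast_add, Int.cast_mul]
  congr 1
  ring

theorem dd_comm (v w : Nd) : dd b L δ v w = dd b L δ w v := eucl_comm _ _

theorem ex_comm (v w : Nd) : ex b L δ v w = ex b L δ w v := by
  unfold ex; rw [dd_comm, add_comm (b.rad v : ℝ)]

theorem dd_ge (hL : 0 ≤ L) (v w : Nd) :
    L * b.dst v w - (|(δ v : ℝ)| + |(δ w : ℝ)|) ≤ dd b L δ v w := by
  have h1 := eucl_tri (L * b.px v, L * b.py v) (P b L δ v) (L * b.px w, L * b.py w)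
  have h2 := eucl_tri (P b L δ v) (P b L δ w) (L * b.px w, L * b.py w)
  have h3 : ∀ u, eucl (L * b.px u, L * b.py u) (P b L δ u) = |(δ u : ℝ)| := by
    intro u
    rw [eucl_eq]
    unfold P
    simp only [Int.cast_add, Int.cast_mul]
    rw [← Real.sqrt_sq_eq_abs]
    congr 1
    ring
  have h4 : eucl (L * b.px v, L * b.py v) (L * b.px w, L * b.py w) = L * b.dst v w := by
    have hL' : (0 : ℝ) ≤ L := by exact_mod_cast hL
    unfold Board.dst Board.pos
    rw [eucl_eq, eucl_eq]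
    simp only [Int.cast_mul]
    rw [show ((L : ℝ) * b.px w - L * b.px v) ^ 2 + ((L : ℝ) * b.py w - L * b.py v) ^ 2 =
      L ^ 2 * (((b.px w : ℝ) - b.px v) ^ 2 + ((b.py w : ℝ) - b.py v) ^ 2) by ring,
      Real.sqrt_mul (by positivity), Real.sqrt_sq hL']
  rw [h4, h3] at h1
  rw [eucl_comm (P b L δ w), h3] at h2
  have h5 : dd b L δ v w = eucl (P b L δ v) (P b L δ w) := rfl
  linarith

theorem ex_zero (hM : 1 ≤ b.M) (hL : 0 ≤ L) {act : ℕ → ℕ → Bool} {v w : Nd} (hv : b.Val act v)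
    (hw : b.Val act w) (hne : v ≠ w) (ht : b.Tight v w) (h0 : δ v = 0) (h1 : δ w = 0) :
    ex b L δ v w = 0 := by
  have h2 : dd b L δ v w = L * b.dst v w := by
    rw [dd_eq, h0, h1]
    have hL' : (0 : ℝ) ≤ L := by exact_mod_cast hL
    unfold Board.dst Board.pos
    rw [eucl_eq]
    rw [show ((L : ℝ) * ((b.px w : ℝ) - b.px v) + (((0 : ℤ) : ℝ) - ((0 : ℤ) : ℝ))) ^ 2 +
      ((L : ℝ) * ((b.py w : ℝ) - b.py v)) ^ 2 =
      L ^ 2 * (((b.px w : ℝ) - b.px v) ^ 2 + ((b.py w : ℝ) - b.py v) ^ 2) by push_cast; ring,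
      Real.sqrt_mul (by positivity), Real.sqrt_sq hL']
  have h3 := (sep_iff v w).2 (cls hM hv hw hne).1
  have h4 := (tight_iff v w).2 ht
  unfold ex
  rw [h2, le_antisymm h4 h3, sub_self]

section

variable {V : Type} [DecidableEq V] {Q : V → Prop} {R : V → V → Prop} {σ : Equiv.Perm V}

theorem sum_us_w (h : Cyc Q R σ) {v : V} (hv : Q v) {N : List V} (hN : N.Nodup)
    (h1 : σ v ∈ N) (h2 : σ⁻¹ v ∈ N) (f : V → ℝ) :
    (N.map fun w => (us σ v w : ℝ) * f w).sum = f (σ v) + f (σ⁻¹ v) := by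
  rw [← List.sum_toFinset _ hN]
  have h0 : ∀ w, (us σ v w : ℝ) * f w = if w ∈ ({σ v, σ⁻¹ v} : Finset V) then f w else 0 := by
    intro w
    rw [us_eq]
    split_ifs <;> simp
  simp only [h0]
  rw [Finset.sum_ite_mem]
  have h3 : N.toFinset ∩ {σ v, σ⁻¹ v} = {σ v, σ⁻¹ v} := by
    rw [Finset.inter_eq_right]
    intro w hw
    simp only [Finset.mem_insert, Finset.mem_singleton] at hw
    rw [List.mem_toFinset]
    rcases hw with rfl | rfl <;> assumption
  rw [h3, Finset.sum_pair (h.inv_ne hv)]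

end

/-- the neighbourhood relation of a tour -/
def Ad (σ : Equiv.Perm Nd) (v w : Nd) : Prop := σ v = w

variable (b L δ) in
/-- the cost of the displacement of a node -/
noncomputable def Fc (A : Nd → Nd → Prop) : Nd → ℝ
  | .X i n k s => (gp b A i n (k - 1) s : ℝ) * ex b L δ (.X i n k s) (b.lf i n k s) +
      (gp b A i n k s : ℝ) * ex b L δ (.X i n k s) (b.rt i n k s) +
      ex b L δ (.X i n k s) (.Q i n k)
  | _ => 0

/-- The length of a tight tour. -/
theorem disp_cost (hM : 1 ≤ b.M) (hL : 0 ≤ L) {act : ℕ → ℕ → Bool} {σ : Equiv.Perm Nd}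
    (hC : Cyc (b.Val act) b.Tight σ) {T S : Finset Nd} (hT : ∀ v, v ∈ T ↔ b.Val act v)
    (hST : S ⊆ T) (hδ : ∀ v ∈ T, v ∉ S → δ v = 0)
    (hS : ∀ u ∈ S, ∃ i n k s, u = .X i n k s ∧ 1 ≤ k ∧ b.lf i n k s ∉ S ∧ b.rt i n k s ∉ S) :
    ∑ v ∈ T, dd b L δ v (σ v) = 2 * L * ∑ v ∈ T, (b.rad v : ℝ) +
      ∑ u ∈ S, Fc b L δ (Ad σ) u := by
  classical
  have hLoc : Loc b act (Ad σ) := loc_of_cyc hM hC
  have hval : ∀ v, v ∈ T → σ v ∈ T := fun v hv => (hT _).2 (hC.val v ((hT v).1 hv))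
  have hinv : ∀ v, v ∈ T → σ⁻¹ v ∈ T := fun v hv => (hT _).2 (hC.inv v ((hT v).1 hv))
  have hiff : ∀ v, v ∈ T ↔ σ v ∈ T := fun v => ⟨hval v, fun h => by
    have := hinv _ h
    rwa [show σ⁻¹ (σ v) = v from Equiv.symm_apply_apply σ v] at this⟩
  -- no two displaced nodes are neighbours in the tour
  have hSS : ∀ u ∈ S, σ u ∉ S := by
    intro u hu hw
    obtain ⟨i, n, k, s, rfl, hk, h1, h2⟩ := hS u hu
    have hv : b.Val act (.X i n k s) := (hT _).1 (hST hu)
    have h3 := (nb_mem hM hC hv).1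
    rw [nb_rung _ _ _ _ hk] at h3
    simp only [List.mem_cons, List.not_mem_nil, or_false] at h3
    rcases h3 with h3 | h3 | h3 | h3
    · exact h1 (h3 ▸ hw)
    · exact h2 (h3 ▸ hw)
    · have h4 := s_op hM hLoc hv (val_Q hv hk)
      have h5 : ua (Ad σ) (.X i n k s) (.X i n k (!s)) = 1 := by
        unfold ua
        rw [if_pos (show Ad σ _ _ ∨ Ad σ _ _ from Or.inl h3)]
      omega
    · rw [h3] at hw
      obtain ⟨_, _, _, _, h, _⟩ := hS _ hw
      simp at h
  have e1 : ∀ v ∈ T, dd b L δ v (σ v) = L * ((b.rad v : ℝ) + b.rad (σ v)) +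
      ((if v ∈ S then ex b L δ v (σ v) else 0) + (if σ v ∈ S then ex b L δ (σ v) v else 0)) := by
    intro v hv
    have h1 : dd b L δ v (σ v) = L * ((b.rad v : ℝ) + b.rad (σ v)) + ex b L δ v (σ v) := by
      unfold ex; ring
    rw [h1]
    congr 1
    by_cases h2 : v ∈ S
    · rw [if_pos h2, if_neg (hSS v h2), add_zero]
    · rw [if_neg h2]
      by_cases h3 : σ v ∈ S
      · rw [if_pos h3, zero_add, ex_comm]
      · rw [if_neg h3, add_zero]
        exact ex_zero hM hL ((hT v).1 hv) ((hT _).1 (hval v hv)) (Ne.symm (hC.ne v ((hT v).1 hv)))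
          (hC.tight v ((hT v).1 hv)) (hδ v hv h2) (hδ _ (hval v hv) h3)
  rw [Finset.sum_congr rfl e1, Finset.sum_add_distrib, Finset.sum_add_distrib]
  have e2 : ∑ v ∈ T, (b.rad (σ v) : ℝ) = ∑ v ∈ T, (b.rad v : ℝ) :=
    Finset.sum_equiv σ hiff fun _ _ => rfl
  have e3 : ∑ v ∈ T, (if v ∈ S then ex b L δ v (σ v) else 0) = ∑ v ∈ S, ex b L δ v (σ v) := by
    rw [Finset.sum_ite_mem, Finset.inter_eq_right.2 hST]
  have e4 : ∑ v ∈ T, (if σ v ∈ S then ex b L δ (σ v) v else 0) =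
      ∑ v ∈ S, ex b L δ v (σ⁻¹ v) := by
    have h1 : ∑ v ∈ T, (if σ v ∈ S then ex b L δ (σ v) v else 0) =
        ∑ v ∈ T, (if v ∈ S then ex b L δ v (σ⁻¹ v) else 0) := by
      refine Finset.sum_equiv σ hiff fun v _ => ?_
      rw [show σ⁻¹ (σ v) = v from Equiv.symm_apply_apply σ v]
    rw [h1, Finset.sum_ite_mem, Finset.inter_eq_right.2 hST]
  rw [e3, e4, ← Finset.mul_sum, Finset.sum_add_distrib, e2]
  congr 1
  · ring
  · rw [← Finset.sum_add_distrib]
    refine Finset.sum_congr rfl fun u hu => ?_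
    obtain ⟨i, n, k, s, rfl, hk, h1, h2⟩ := hS u hu
    have hv : b.Val act (.X i n k s) := (hT _).1 (hST hu)
    obtain ⟨h3, h4⟩ := nb_mem hM hC hv
    have h5 := sum_us_w hC hv (nodup_rung i n k s hk) h3 h4 (fun w => ex b L δ (.X i n k s) w)
    rw [← h5, nb_rung _ _ _ _ hk]
    simp only [List.map_cons, List.map_nil, List.sum_cons, List.sum_nil, ← ua_perm]
    have h6 : ua (Ad σ) (.X i n k s) (b.lf i n k s) = gp b (Ad σ) i n (k - 1) s := by
      rw [us_lf hv, if_neg (by omega)]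
    have h7 : ua (Ad σ) (.X i n k s) (b.rt i n k s) = gp b (Ad σ) i n k s := us_rt hv
    have h8 := s_op hM hLoc hv (val_Q hv hk)
    have h9 := s_Q hM hLoc (val_Q hv hk) s
    rw [show (fun v w => σ v = w) = Ad σ from rfl]
    unfold Fc
    rw [h6, h7, h8, h9]
    push_cast
    ring

/-- the length of a list of nodes is at least that of the undisplaced nodes -/
theorem pl_ge (hL : 0 ≤ L) : ∀ (l : List Nd) (v w : Nd),
    L * pl b.dst v l w - (|(δ v : ℝ)| + 2 * (l.map fun u => |(δ u : ℝ)|).sum + |(δ w : ℝ)|) ≤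
      pl (dd b L δ) v l w := by
  intro l
  induction l with
  | nil =>
    intro v w
    simp only [pl, List.map_nil, List.sum_nil]
    have := dd_ge (b := b) (δ := δ) hL v w
    linarith
  | cons x l ih =>
    intro v w
    simp only [pl, List.map_cons, List.sum_cons]
    have h1 := dd_ge (b := b) (δ := δ) hL v x
    have h2 := ih x w
    linarith

theorem tl_ge (hL : 0 ≤ L) (l : List Nd) :
    L * tl b.dst l - 2 * (l.map fun u => |(δ u : ℝ)|).sum ≤ tl (dd b L δ) l := by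
  cases l with
  | nil => simp [tl]
  | cons x l =>
    simp only [tl, List.map_cons, List.sum_cons]
    have := pl_ge (b := b) (δ := δ) hL l x x
    linarith

end Pool.Agent.T9h88.XC
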