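import Pool.Agent.T9h88.XC.Udisj

/-!
# The number of inequalities of a linear program
-/

set_option autoImplicit false

namespace Pool.Agent.T9h88.XC

open Finset

variable {V : Type*} [AddCommGroup V] [Module ℝ V]

/-- A feasible point outside a face is separated from it by an inequality that is tight on the
face. -/
theorem face {r : ℕ} (L : AffineSubspace ℝ V) (g : Fin r → V →ᵃ[ℝ] ℝ) (w : V →ᵃ[ℝ] ℝ) {o : ℝ}
    (hopt : ∀ x ∈ L, (∀ i, 0 ≤ g i x) → o ≤ w x) {x0 : V} (hx0 : x0 ∈ L)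
    (hx0' : ∀ i, 0 ≤ g i x0) (hw0 : w x0 = o) {y : V} (hy : y ∈ L) (hy' : ∀ i, 0 ≤ g i y)
    (hwy : o < w y) :
    ∃ i, (∀ x ∈ L, (∀ j, 0 ≤ g j x) → w x = o → g i x = 0) ∧ 0 < g i y := by
  classical
  by_contra hcon
  push Not at hcon
  set T : Fin r → Prop := fun i => ∀ x ∈ L, (∀ j, 0 ≤ g j x) → w x = o → g i x = 0 with hT
  -- a point of the face where all other inequalities are strict
  have key : ∀ S : Finset (Fin r), (∀ i ∈ S, ¬ T i) →
      ∃ z ∈ L, (∀ j, 0 ≤ g j z) ∧ w z = o ∧ ∀ i ∈ S, 0 < g i z := by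
    intro S
    induction S using Finset.induction_on with
    | empty => intro _; exact ⟨x0, hx0, hx0', hw0, by simp⟩
    | insert i S hi ih =>
      intro hS
      obtain ⟨z, hz1, hz2, hz3, hz4⟩ := ih fun j hj => hS j (mem_insert_of_mem hj)
      have h1 := hS i (mem_insert_self _ _)
      simp only [hT] at h1
      push Not at h1
      obtain ⟨x, hx1, hx2, hx3, hx4⟩ := h1
      have hx5 : 0 < g i x := lt_of_le_of_ne (hx2 i) (Ne.symm hx4)
      have hmid : ∀ f : V →ᵃ[ℝ] ℝ, f (AffineMap.lineMap z x (1 / 2 : ℝ)) =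
          (f z + f x) / 2 := by
        intro f
        rw [AffineMap.apply_lineMap, AffineMap.lineMap_apply]
        simp only [vsub_eq_sub, smul_eq_mul, vadd_eq_add]
        ring
      refine ⟨AffineMap.lineMap z x (1 / 2 : ℝ), AffineMap.lineMap_mem _ hz1 hx1, fun j => ?_,
        ?_, fun j hj => ?_⟩
      · rw [hmid]; have := hz2 j; have := hx2 j; linarith
      · rw [hmid, hz3, hx3]; ring
      · rw [hmid]
        rcases mem_insert.1 hj with rfl | hj
        · have := hz2 j; linarith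
        · have := hz4 j hj; have := hx2 j; linarith
  obtain ⟨z, hz1, hz2, hz3, hz4⟩ := key (univ.filter fun i => ¬ T i) (fun i hi => by
    simpa using hi)
  have hline : ∀ (f : V →ᵃ[ℝ] ℝ) (e : ℝ), f (AffineMap.lineMap z y (-e)) =
      f z - e * (f y - f z) := by
    intro f e
    rw [AffineMap.apply_lineMap, AffineMap.lineMap_apply]
    simp only [vsub_eq_sub, smul_eq_mul, vadd_eq_add]
    ring
  have hev : ∀ᶠ e : ℝ in nhdsWithin 0 (Set.Ioi 0), ∀ i, 0 ≤ g i z - e * (g i y - g i z) := by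
    rw [Filter.eventually_all]
    intro i
    by_cases hi : T i
    · have h1 : g i z = 0 := hi z hz1 hz2 hz3
      have h2 : g i y = 0 := le_antisymm (hcon i hi) (hy' i)
      refine Filter.Eventually.of_forall fun e => ?_
      rw [h1, h2]; simp
    · have h1 : 0 < g i z := hz4 i (by simpa using hi)
      have hc : Continuous fun e : ℝ => g i z - e * (g i y - g i z) := by fun_prop
      have h2 : ∀ᶠ e : ℝ in nhds 0, 0 < g i z - e * (g i y - g i z) := by
        refine hc.continuousAt.eventually (p := fun t => 0 < t) ?_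
        dsimp only
        rw [zero_mul, sub_zero]
        exact lt_mem_nhds h1
      exact (Filter.Eventually.filter_mono nhdsWithin_le_nhds h2).mono fun e he => he.le
  obtain ⟨e, he1, he2⟩ := (hev.and self_mem_nhdsWithin).exists
  have he3 : (0 : ℝ) < e := he2
  have h1 := hopt (AffineMap.lineMap z y (-e)) (AffineMap.lineMap_mem _ hz1 hy) (fun i => by
    rw [hline]; exact he1 i)
  rw [hline, hz3] at h1
  have : 0 < e * (w y - o) := mul_pos he3 (by linarith)
  linarith

/-- the part of the affine subspace with given values of the binary variables -/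
def Ek {k : ℕ} (E : AffineSubspace ℝ V) (h : Fin k → V →ᵃ[ℝ] ℝ) (κ : Fin k → Bool) :
    AffineSubspace ℝ V :=
  E ⊓ ⨅ j, (AffineSubspace.mk' (if κ j = true then (1 : ℝ) else 0) ⊥).comap (h j)

theorem mem_Ek {k : ℕ} {E : AffineSubspace ℝ V} {h : Fin k → V →ᵃ[ℝ] ℝ} {κ : Fin k → Bool}
    {x : V} : x ∈ Ek E h κ ↔ x ∈ E ∧ ∀ j, h j x = if κ j = true then (1 : ℝ) else 0 := by
  unfold Ek
  rw [AffineSubspace.mem_inf_iff]
  have h1 : x ∈ (⨅ j, (AffineSubspace.mk' (if κ j = true then (1 : ℝ) else 0) ⊥).comap (h j)) ↔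
      ∀ j, h j x = if κ j = true then (1 : ℝ) else 0 := by
    rw [← SetLike.mem_coe, AffineSubspace.coe_iInf, Set.mem_iInter]
    refine forall_congr' fun j => ?_
    rw [SetLike.mem_coe, AffineSubspace.mem_comap, AffineSubspace.mem_mk', Submodule.mem_bot,
      vsub_eq_sub, sub_eq_zero]
  rw [h1]

/-- A mixed binary program whose slack vanishes on the pairs that meet in one element, and is
positive on the disjoint pairs, is exponentially large. -/
theorem mip_bound {m r k : ℕ} (E : AffineSubspace ℝ V) (g : Fin r → V →ᵃ[ℝ] ℝ)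
    (h : Fin k → V →ᵃ[ℝ] ℝ)
    (y : (Fin m → Bool) → V) (w : (Fin m → Bool) → V →ᵃ[ℝ] ℝ) (o : (Fin m → Bool) → ℝ)
    (hy : ∀ b, y b ∈ E ∧ (∀ i, 0 ≤ g i (y b)) ∧ ∀ j, h j (y b) = 0 ∨ h j (y b) = 1)
    (hopt : ∀ a, ∀ x ∈ E, (∀ i, 0 ≤ g i x) → (∀ j, h j x = 0 ∨ h j x = 1) → o a ≤ w a x)
    (h1 : ∀ a b, One a b → w a (y b) = o a) (h0 : ∀ a b, Dj a b → o a < w a (y b)) :
    3 ^ m ≤ (2 ^ k * (r + 1) + 1) * 2 ^ m := by
  classical
  set κ : (Fin m → Bool) → Fin k → Bool := fun b j => decide (h j (y b) = 1) with hκ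
  have hyk : ∀ b, y b ∈ Ek E h (κ b) := by
    intro b
    rw [mem_Ek]
    refine ⟨(hy b).1, fun j => ?_⟩
    rcases (hy b).2.2 j with h2 | h2
    · rw [hκ]; simp [h2]
    · rw [hκ]; simp [h2]
  have hoptk : ∀ a c, ∀ x ∈ Ek E h c, (∀ i, 0 ≤ g i x) → o a ≤ w a x := by
    intro a c x hx hg
    rw [mem_Ek] at hx
    refine hopt a x hx.1 hg fun j => ?_
    rw [hx.2 j]
    split_ifs
    · exact Or.inr rfl
    · exact Or.inl rfl
  have hrect := rect (m := m) (ι := (Fin k → Bool) × Fin (r + 1))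
    (fun i a => Fin.cases (∀ x ∈ Ek E h i.1, (∀ j, 0 ≤ g j x) → w a x ≠ o a)
      (fun j => ∀ x ∈ Ek E h i.1, (∀ j, 0 ≤ g j x) → w a x = o a → g j x = 0) i.2)
    (fun i b => κ b = i.1 ∧ Fin.cases True (fun j => 0 < g j (y b)) i.2) ?_ ?_
  · rwa [Fintype.card_prod, Fintype.card_fun, Fintype.card_bool, Fintype.card_fin,
      Fintype.card_fin] at hrect
  · rintro ⟨c, i⟩ a b hA ⟨hc, hB⟩ hone
    simp only at hc hA hB
    subst hc
    have h2 := h1 a b hone
    revert hB
    revert hA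
    refine Fin.cases ?_ (fun j => ?_) i
    · intro hA _
      exact hA (y b) (hyk b) (hy b).2.1 h2
    · intro hA hB
      simp only [Fin.cases_succ] at hA hB
      have := hA (y b) (hyk b) (hy b).2.1 h2
      rw [this] at hB
      exact lt_irrefl _ hB
  · rintro a b - hd
    by_cases hx : ∃ x ∈ Ek E h (κ b), (∀ j, 0 ≤ g j x) ∧ w a x = o a
    · obtain ⟨x0, hx0, hx1, hx2⟩ := hx
      obtain ⟨i, hi1, hi2⟩ := face (Ek E h (κ b)) g (w a) (hoptk a (κ b)) hx0 hx1 hx2 (hyk b)
        (hy b).2.1 (h0 a b hd)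
      exact ⟨(κ b, i.succ), by simpa using hi1, rfl, by simpa using hi2⟩
    · push Not at hx
      exact ⟨(κ b, 0), by simpa using hx, rfl, by simp⟩

end Pool.Agent.T9h88.XC
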