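import Pool.Agent.T9h88.XC.Disp

/-!
# The formula, and the displacement of its board
-/

set_option autoImplicit false

namespace Pool.Agent.T9h88.XC

open Pool.Agent.ETSP Pool.Agent.T9h21.TB Pool.Agent.T9h21.TB.Board

/-- The formula: row `1` is the escape, row `i + 2` is the `i`-th bit, and the clause of column
`p m + q` says that the escape is used or the bits `p ≠ q` are not both true. -/
def fm (m : ℕ) : Fm where
  h := m
  k := m * m
  pr := fun _ i => decide (i = 1)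
  nr := fun j i => decide (j / m < m ∧ j / m ≠ j % m ∧ (i = j / m + 2 ∨ i = j % m + 2))
  tm := fun _ i => decide (i = 2 * m + 1)
  bl := fun _ _ => false
  te := fun i => decide (i = 2 * m + 1)

theorem fm_ok {m : ℕ} (hm : 1 ≤ m) : (fm m).OK := by
  have hmod : ∀ j, j % m < m := fun j => Nat.mod_lt _ hm
  constructor
  · intro j i h1 h2
    simp only [fm, decide_eq_true_eq] at h1 h2
    generalize j / m = p at h2
    omega
  · intro j i h1
    simp only [fm, decide_eq_true_eq, decide_eq_false_iff_not] at h1 ⊢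
    omega
  · intro j i h1
    simp only [fm, decide_eq_true_eq, decide_eq_false_iff_not] at h1 ⊢
    have := hmod j
    generalize j / m = p at h1
    omega
  · intro j i h1
    exact h1
  · intro j i h1
    simp [fm] at h1
  · intro j i h1 h2
    simp only [fm, decide_eq_true_eq] at h1 h2
    omega

/-- the board -/
def bo (m : ℕ) : Board := (fm m).board

/-- the activation points -/
def ac (m : ℕ) : ℕ → ℕ → Bool := (fm m).ac fun _ _ => true

theorem bo_M (m : ℕ) : (bo m).M = 9 * (m * m) + 6 := rfl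

theorem bo_h (m : ℕ) : (bo m).h = m := rfl

theorem bo_H (m : ℕ) : (bo m).H = 2 * m + 2 := rfl

theorem one_le (m : ℕ) : 1 ≤ (bo m).M := by rw [bo_M]; omega

/-- the rows of the bits of `a` -/
def SR (m : ℕ) (a : ℕ → Bool) : Finset Nd :=
  ((Finset.range m).filter fun i => a i = true).image fun i => .X (i + 2) 0 3 true

/-- the columns of the pairs of bits of `a` -/
def pa (m : ℕ) (a : ℕ → Bool) : Finset ℕ :=
  (Finset.range (m * m)).filter fun j => a (j / m) = true ∧ a (j % m) = true ∧ j / m ≠ j % m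

/-- the escapes of the pairs of bits of `a` -/
def SE (m : ℕ) (a : ℕ → Bool) (s : Bool) : Finset Nd :=
  (pa m a).image fun j => .X 1 (18 * j + 15) 1 s

/-- the displaced nodes -/
def SS (m : ℕ) (a : ℕ → Bool) : Finset Nd := SR m a ∪ (SE m a true ∪ SE m a false)

/-- the displacement -/
def de (m : ℕ) (a : ℕ → Bool) (v : Nd) : ℤ :=
  if v ∈ SR m a then -1 else if v ∈ SE m a true ∪ SE m a false then 1 else 0

variable {m : ℕ} {a : ℕ → Bool}

theorem mem_SR {v : Nd} : v ∈ SR m a ↔ ∃ i, i < m ∧ a i = true ∧ v = .X (i + 2) 0 3 true := by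
  unfold SR
  simp only [Finset.mem_image, Finset.mem_filter, Finset.mem_range]
  constructor
  · rintro ⟨i, ⟨h1, h2⟩, rfl⟩; exact ⟨i, h1, h2, rfl⟩
  · rintro ⟨i, h1, h2, rfl⟩; exact ⟨i, ⟨h1, h2⟩, rfl⟩

theorem mem_SE {s : Bool} {v : Nd} : v ∈ SE m a s ↔ ∃ j, j ∈ pa m a ∧ v = .X 1 (18 * j + 15) 1 s := by
  unfold SE
  simp only [Finset.mem_image]
  constructor
  · rintro ⟨j, h1, rfl⟩; exact ⟨j, h1, rfl⟩
  · rintro ⟨j, h1, rfl⟩; exact ⟨j, h1, rfl⟩

theorem mem_SEE {v : Nd} : v ∈ SE m a true ∪ SE m a false ↔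
    ∃ j s, j ∈ pa m a ∧ v = .X 1 (18 * j + 15) 1 s := by
  rw [Finset.mem_union, mem_SE, mem_SE]
  constructor
  · rintro (⟨j, h1, rfl⟩ | ⟨j, h1, rfl⟩)
    · exact ⟨j, true, h1, rfl⟩
    · exact ⟨j, false, h1, rfl⟩
  · rintro ⟨j, s, h1, rfl⟩
    cases s
    · exact Or.inr ⟨j, h1, rfl⟩
    · exact Or.inl ⟨j, h1, rfl⟩

theorem mem_pa {j : ℕ} : j ∈ pa m a ↔
    j < m * m ∧ a (j / m) = true ∧ a (j % m) = true ∧ j / m ≠ j % m := by
  unfold pa
  rw [Finset.mem_filter, Finset.mem_range]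

theorem de_R {i : ℕ} (hi : i < m) (ha : a i = true) : de m a (.X (i + 2) 0 3 true) = -1 := by
  unfold de
  rw [if_pos (mem_SR.2 ⟨i, hi, ha, rfl⟩)]

theorem de_E {j : ℕ} (hj : j ∈ pa m a) (s : Bool) : de m a (.X 1 (18 * j + 15) 1 s) = 1 := by
  unfold de
  rw [if_neg, if_pos (mem_SEE.2 ⟨j, s, hj, rfl⟩)]
  intro h
  obtain ⟨i, -, -, h⟩ := mem_SR.1 h
  simp at h

theorem de_zero {v : Nd} (h1 : ∀ i, v ≠ .X (i + 2) 0 3 true)
    (h2 : ∀ j s, v ≠ .X 1 (18 * j + 15) 1 s) : de m a v = 0 := by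
  unfold de
  rw [if_neg, if_neg]
  · rw [mem_SEE]
    rintro ⟨j, s, -, h⟩
    exact h2 j s h
  · rw [mem_SR]
    rintro ⟨i, -, -, h⟩
    exact h1 i h

theorem de_SS {v : Nd} (h : v ∉ SS m a) : de m a v = 0 := by
  unfold SS at h
  rw [Finset.mem_union, not_or] at h
  unfold de
  rw [if_neg h.1, if_neg h.2]

theorem de_abs (v : Nd) : |(de m a v : ℝ)| = if v ∈ SS m a then 1 else 0 := by
  unfold SS de
  by_cases h1 : v ∈ SR m a
  · rw [if_pos h1, if_pos (Finset.mem_union_left _ h1)]; simp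
  · by_cases h2 : v ∈ SE m a true ∪ SE m a false
    · rw [if_neg h1, if_pos h2, if_pos (Finset.mem_union_right _ h2)]; simp
    · rw [if_neg h1, if_neg h2, if_neg (fun h => (Finset.mem_union.1 h).elim h1 h2)]; simp

theorem de_bound (v : Nd) : |de m a v| ≤ 1 := by
  unfold de
  split_ifs <;> simp

/-- the segment of an escape -/
theorem ty_E15 (m j : ℕ) (_ : j < m * m) : (bo m).ty 1 (18 * j + 15) = .L := by
  unfold Board.ty
  have h1 : (bo m).M = 9 * (m * m) + 6 := rfl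
  rw [if_neg (by omega), if_neg (by rw [h1]; omega), if_pos]
  refine ⟨by omega, ?_⟩
  have h2 : (18 * j + 15) / 2 = 9 * j + 7 := by omega
  rw [h2]
  change (fm m).board.lit 1 (9 * j + 7) = true
  rw [Fm.lit7 1 (by omega)]
  simp [fm]

theorem val_R {i : ℕ} (hm : 1 ≤ m) (hi : i < m) (s : Bool) (k : ℕ) (hk : 1 ≤ k) (hk' : k ≤ 12) :
    (bo m).Val (ac m) (.X (i + 2) 0 k s) := by
  refine ⟨by rw [bo_H]; omega, by omega, ?_, fun h => by omega⟩
  unfold Board.len
  rw [ty_F']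
  exact hk'

theorem val_E {j : ℕ} (hj : j < m * m) (s : Bool) (k : ℕ) (hk' : k ≤ 2) :
    (bo m).Val (ac m) (.X 1 (18 * j + 15) k s) := by
  refine ⟨by rw [bo_H]; omega, by rw [bo_M]; omega, ?_, fun h => by omega⟩
  unfold Board.len
  rw [ty_E15 m j hj]
  exact hk'

theorem SS_sub {T : Finset Nd} (hm : 1 ≤ m) (hT : ∀ v, v ∈ T ↔ (bo m).Val (ac m) v) : SS m a ⊆ T := by
  intro v hv
  unfold SS at hv
  rw [Finset.mem_union, mem_SR, mem_SEE] at hv
  rw [hT]
  rcases hv with ⟨i, h1, -, rfl⟩ | ⟨j, s, h1, rfl⟩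
  · exact val_R hm h1 _ _ (by omega) (by omega)
  · exact val_E (mem_pa.1 h1).1 _ _ (by omega)

theorem lf_R (i : ℕ) : (bo m).lf (i + 2) 0 3 true = .X (i + 2) 0 2 true := by
  unfold lf
  rw [if_neg (by omega), if_neg (by omega)]

theorem rt_R (i : ℕ) : (bo m).rt (i + 2) 0 3 true = .X (i + 2) 0 4 true := by
  unfold rt
  have : (bo m).len (i + 2) 0 = 12 := by unfold Board.len; rw [ty_F']; rfl
  rw [if_pos (by omega)]

theorem lf_E (j : ℕ) (s : Bool) :
    (bo m).lf 1 (18 * j + 15) 1 s = .X 1 (18 * j + 15) 0 s := by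
  unfold lf
  rw [if_neg (by omega), if_neg (by omega)]

theorem rt_E {j : ℕ} (hj : j < m * m) (s : Bool) :
    (bo m).rt 1 (18 * j + 15) 1 s = .X 1 (18 * j + 15) 2 s := by
  unfold rt
  have : (bo m).len 1 (18 * j + 15) = 2 := by unfold Board.len; rw [ty_E15 m j hj]; rfl
  rw [if_pos (by omega)]

theorem SS_form {u : Nd} (hu : u ∈ SS m a) : ∃ i n k s, u = .X i n k s ∧ 1 ≤ k ∧
    (bo m).lf i n k s ∉ SS m a ∧ (bo m).rt i n k s ∉ SS m a := by
  have key : ∀ v, (∀ i, v ≠ .X (i + 2) 0 3 true) → (∀ j s, v ≠ .X 1 (18 * j + 15) 1 s) →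
      v ∉ SS m a := by
    intro v h1 h2 h
    unfold SS at h
    rw [Finset.mem_union, mem_SR, mem_SEE] at h
    rcases h with ⟨i, -, -, rfl⟩ | ⟨j, s, -, rfl⟩
    · exact h1 i rfl
    · exact h2 j s rfl
  unfold SS at hu
  rw [Finset.mem_union, mem_SR, mem_SEE] at hu
  rcases hu with ⟨i, h1, -, rfl⟩ | ⟨j, s, h1, rfl⟩
  · refine ⟨_, _, _, _, rfl, by omega, ?_, ?_⟩
    · rw [lf_R]; apply key <;> simp
    · rw [rt_R]; apply key <;> simp
  · refine ⟨_, _, _, _, rfl, le_rfl, ?_, ?_⟩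
    · rw [lf_E]; apply key <;> simp
    · rw [rt_E (mem_pa.1 h1).1]; apply key <;> simp

end Pool.Agent.T9h88.XC
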