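import Pool.Agent.T9h88.XC.Conn2

/-!
# The configuration of an assignment

The proof is that of `Pool.Agent.T9h21.TB.Fm.good_of_sat`, with an explicit configuration.
-/

set_option autoImplicit false

namespace Pool.Agent.T9h88.XC

open Pool.Agent.T9h21.TB Pool.Agent.T9h21.TB.Board Pool.Agent.T9h21.TB.Fm

variable {F : Fm}

/-- The configuration of a satisfying assignment: every clause uses its last true literal. -/
theorem good2 (hF : F.OK) {x : ℕ → ℕ → Bool} (m0 : ℕ → Bool)
    (hm0 : ∀ j < F.k, ∀ e ≤ 2 * F.h, x j e = true → F.tm j (e + 1) = true →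
      ∃ i ≤ e, F.tl m0 j i = true ∧ ∀ i', i ≤ i' → i' ≤ e → F.bl j i' = false) :
    ∃ (m : ℕ → Bool) (z0 : ℕ → ℕ → Bool), (∀ i, m i = if F.te i = true then false else m0 i) ∧
      (∀ i c, z0 i c = true ↔ c % 9 = 7 ∧ c / 9 < F.k ∧ ∃ e ≤ 2 * F.h,
        x (c / 9) e = true ∧ F.tm (c / 9) (e + 1) = true ∧ i ≤ e ∧
        ∀ i', i < i' → i' ≤ e → F.tl m (c / 9) i' = false) ∧
      Board.Good F.board (F.ac x) m
        (fun c => decide (c % 9 = 0 ∨ c % 9 = 1 ∨ c % 9 = 3 ∨ c % 9 = 4))
        (fun c => decide (c % 9 = 7)) z0 := by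
  classical
  set m : ℕ → Bool := fun i => if F.te i = true then false else m0 i with hmdef
  have hmt : ∀ i, F.te i = true → m i = false := by
    intro i hi; rw [hmdef]; simp only; rw [if_pos hi]
  have hrow : ∀ m' j i, F.tl m' j i = true → 1 ≤ i ∧ i ≤ 2 * F.h ∧ F.te i = false := by
    intro m' j i h
    unfold tl at h
    rw [Bool.or_eq_true, Bool.and_eq_true, Bool.and_eq_true] at h
    rcases h with h | h
    · exact hF.prow j i h.1
    · exact hF.nrow j i h.1
  have htl : ∀ j i, F.tl m0 j i = true → F.tl m j i = true := by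
    intro j i h
    have hi := hrow m0 j i h
    have : m i = m0 i := by rw [hmdef]; simp only; rw [hi.2.2]; rfl
    unfold tl at h ⊢
    rw [this]
    exact h
  -- the true literals of the active clauses
  have hact : ∀ j < F.k, ∀ e ≤ 2 * F.h, x j e = true → F.tm j (e + 1) = true →
      ∃ i ≤ e, F.tl m j i = true ∧ ∀ i', i ≤ i' → i' ≤ e → F.bl j i' = false := by
    intro j hj e he h1 h2
    obtain ⟨i, h3, h4, h5⟩ := hm0 j hj e he h1 h2
    exact ⟨i, h3, htl j i h4, h5⟩
  set P : ℕ → ℕ → Prop := fun i c => c % 9 = 7 ∧ c / 9 < F.k ∧ ∃ e ≤ 2 * F.h,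
    x (c / 9) e = true ∧ F.tm (c / 9) (e + 1) = true ∧ i ≤ e ∧
    ∀ i', i < i' → i' ≤ e → F.tl m (c / 9) i' = false with hP
  have hP1 : ∀ i c e, c / 9 < F.k → e ≤ 2 * F.h → x (c / 9) e = true →
      F.tm (c / 9) (e + 1) = true → i ≤ e →
      (∀ i', i < i' → i' ≤ e → F.tl m (c / 9) i' = false) →
      1 ≤ i ∧ ∀ i', i ≤ i' → i' ≤ e → F.bl (c / 9) i' = false := by
    intro i c e h1 h2 h3 h4 h5 h6
    obtain ⟨i0, g1, g2, g3⟩ := hact _ h1 e h2 h3 h4
    have g4 : i0 ≤ i := by
      by_contra g
      rw [h6 i0 (by omega) g1] at g2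
      simp at g2
    have g5 := hrow _ _ _ g2
    exact ⟨by omega, fun i' g6 g7 => g3 i' (by omega) g7⟩
  have hP0 : ∀ i c, P i c → 1 ≤ i := by
    rintro i c ⟨h1, h2, e, h3, h4, h5, h6, h7⟩
    exact (hP1 i c e h2 h3 h4 h5 h6 h7).1
  set z0 : ℕ → ℕ → Bool := fun i c => decide (P i c) with hz0
  have hz0t : ∀ i c, z0 i c = true ↔ P i c := fun i c => by rw [hz0]; simp only [decide_eq_true_eq]
  have hz0f : ∀ i c, z0 i c = false ↔ ¬ P i c := fun i c => by
    rw [hz0]; simp only [decide_eq_false_iff_not]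
  have hup : ∀ i c, up z0 i c = true ↔ 1 ≤ i ∧ P (i - 1) c := by
    intro i c
    cases i with
    | zero => simp [up]
    | succ i =>
      change z0 i c = true ↔ _
      rw [hz0t, Nat.add_sub_cancel]
      exact ⟨fun h => ⟨by omega, h⟩, fun h => h.2⟩
  have hlm : ∀ i c, F.board.lm m i c = xor (m i) (F.board.par i c) := fun _ _ => rfl
  have hM : F.board.M = 9 * F.k + 6 := rfl
  have hH : F.board.H = 2 * F.h + 2 := rfl
  have hh' : F.board.h = F.h := rfl
  have hblk : ∀ i c, F.board.blk i c = (decide (c % 9 = 7) && F.bl (c / 9) i) := fun _ _ => rfl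
  have htmlm : ∀ i c, c % 9 = 7 → F.tm (c / 9) i = true → F.board.lm m i c = false := by
    intro i c hc ht
    have h1 := hF.tmte _ _ ht
    have h2 : F.nr (c / 9) i = false := by
      by_contra h
      rw [Bool.not_eq_false] at h
      rw [(hF.nrow _ _ h).2.2] at h1
      simp at h1
    rw [hlm, par7 hF i hc, h2, hmt i h1]
    rfl
  refine ⟨m, z0, fun _ => rfl, hz0t, ?_, ?_, ?_, ?_, ?_, ?_, ?_, ?_, ?_, ?_, ?_, ?_⟩
  · intro c _ hk i _
    rw [decide_eq_true_eq] at hk
    change F.lit i c = true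
    unfold Fm.lit
    rw [if_pos hk]
  · intro c _ hk
    rw [decide_eq_true_eq] at hk
    rw [decide_eq_false_iff_not]
    omega
  · intro c _ hk i _
    rw [decide_eq_true_eq] at hk
    rw [hblk, decide_eq_false (by omega)]
    rfl
  · intro e c hk
    unfold ac at hk
    rw [Bool.and_eq_true] at hk
    exact hk.1
  · intro c
    rw [hz0f]
    rintro ⟨h1, h2, e, h3, h4, h5, h6, h7⟩
    omega
  · intro i hi c hc
    by_cases h1 : 1 ≤ i ∧ P (i - 1) c
    · obtain ⟨h0, g1, g2, e, g3, g4, g5, g6, g7⟩ := h1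
      by_cases hie : i ≤ e
      · left
        have h2 : z0 i c = true := (hz0t i c).2
          ⟨g1, g2, e, g3, g4, g5, hie, fun i' g8 g9 => g7 i' (by omega) g9⟩
        rw [h2, (hup i c).2 ⟨h0, g1, g2, e, g3, g4, g5, g6, g7⟩]
      · obtain rfl : i = e + 1 := by omega
        by_cases h2 : P (e + 1) c
        · left
          rw [(hz0t _ c).2 h2, (hup _ c).2 ⟨h0, g1, g2, e, g3, g4, g5, g6, g7⟩]
        · right
          rw [lit7 _ g1, (hz0f _ c).2 h2, htmlm _ c g1 g5, g5]
          exact ⟨by simp, rfl⟩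
    · have h2 : up z0 i c = false := by
        rw [← Bool.not_eq_true, hup]; exact h1
      by_cases h3 : P i c
      · right
        obtain ⟨g1, g2, e, g3, g4, g5, g6, g7⟩ := h3
        have h4 := (hP1 i c e g2 g3 g4 g5 g6 g7).1
        have h5 : F.tl m (c / 9) i = true := by
          by_contra h5
          rw [Bool.not_eq_true] at h5
          apply h1
          refine ⟨h4, g1, g2, e, g3, g4, g5, by omega, fun i' g8 g9 => ?_⟩
          rcases Nat.lt_or_ge i i' with g10 | g10
          · exact g7 i' g10 g9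
          · obtain rfl : i' = i := by omega
            exact h5
        have h6 := tl_rev _ _ (F.tm (c / 9) i) _ (hF.dis (c / 9) i) h5
        rw [lit7 _ g1, (hz0t _ c).2 ⟨g1, g2, e, g3, g4, g5, g6, g7⟩, hlm, par7 hF i g1]
        exact ⟨h6.1, h6.2.symm⟩
      · left
        rw [h2, (hz0f i c).2 h3]
  · intro e he c hc h
    rw [hz0t]
    unfold ac at h
    rw [Bool.and_eq_true, Bool.and_eq_true, decide_eq_true_eq] at h
    exact ⟨h.1, by omega, e, he, h.2.1, h.2.2, le_rfl, fun i' g1 g2 => by omega⟩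
  · intro i hi c hc hb
    rw [hblk, Bool.and_eq_true, decide_eq_true_eq] at hb
    obtain ⟨hc7, hb⟩ := hb
    constructor
    · rw [← Bool.not_eq_true, hup]
      rintro ⟨h0, g1, g2, e, g3, g4, g5, g6, g7⟩
      rcases Nat.lt_or_ge e i with h1 | h1
      · obtain rfl : i = e + 1 := by omega
        rw [(hF.blp _ _ hb).2.2] at g5
        simp at g5
      · have := (hP1 (i - 1) c e g2 g3 g4 g5 g6 g7).2 i (by omega) h1
        rw [hb] at this
        simp at this
    · rw [hz0f]
      rintro ⟨g1, g2, e, g3, g4, g5, g6, g7⟩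
      have := (hP1 i c e g2 g3 g4 g5 g6 g7).2 i le_rfl g6
      rw [hb] at this
      simp at this
  · intro c _ h i
    rw [decide_eq_false_iff_not] at h
    rw [hz0f]
    exact fun h1 => h h1.1
  · intro c
    rw [hz0f]
    intro h
    have := hP0 0 c h
    omega
  · intro i hi c hc h1 h2 h3 h4
    rw [hup] at h1
    obtain ⟨h0, g1, g2, e, g3, g4, g5, g6, g7⟩ := h1
    have h5 : F.tm (c / 9) i = false := by
      by_contra h
      rw [Bool.not_eq_false] at h
      rw [htmlm i c g1 h] at h4
      simp at h4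
    rw [lit7 i g1] at h3
    rw [hlm, par7 hF i g1] at h4
    have h6 := tl_bool _ _ _ _ h5 (hF.dis _ i) h3 h4
    rcases Nat.lt_or_ge e i with h7 | h7
    · obtain rfl : i = e + 1 := by omega
      rw [h5] at g5
      simp at g5
    · have h8 := g7 i (by omega) h7
      unfold tl at h8
      rw [h6] at h8
      simp at h8
  · intro c hc
    set q := (c + 1) / 9 with hq
    refine ⟨min c (9 * q), max c (9 * q + 6), min_le_left _ _, le_max_left _ _, ?_, ?_, ?_⟩
    · rw [max_le_iff]; omega
    · intro e h1 h2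
      rw [min_le_iff] at h1
      rw [lt_max_iff] at h2
      rw [decide_eq_false_iff_not]
      omega
    · intro i hi
      obtain ⟨p0, p1, -, p3, p4, -, -, -⟩ := par_block hF i q
      obtain ⟨p0', p1', -, p3', p4', -, -, -⟩ := par_block hF (i + 1) q
      have hodd : decide ((i + 1) % 2 = 1) = !(decide (i % 2 = 1)) := by
        rcases Nat.mod_two_eq_zero_or_one i with h | h
        · have : (i + 1) % 2 = 1 := by omega
          simp [h, this]
        · have : (i + 1) % 2 = 0 := by omega
          simp [h, this]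
      have key : ∀ t, t = 0 ∨ t = 1 ∨ t = 3 ∨ t = 4 → F.board.lm m i (9 * q + t) = true →
          F.board.lm m (i + 1) (9 * q + t) = false →
          ∃ e, min c (9 * q) ≤ e ∧ e < max c (9 * q + 6) ∧
            decide (e % 9 = 0 ∨ e % 9 = 1 ∨ e % 9 = 3 ∨ e % 9 = 4) = true ∧
            F.board.lm m i e = true ∧ F.board.lm m (i + 1) e = false := by
        intro t ht h1 h2
        refine ⟨9 * q + t, ?_, ?_, ?_, h1, h2⟩
        · rw [min_le_iff]; omega
        · rw [lt_max_iff]; omega
        · rw [decide_eq_true_eq]; omega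
      simp only [hlm] at key
      have k0 := key 0 (Or.inl rfl)
      have k1 := key 1 (Or.inr (Or.inl rfl))
      have k3 := key 3 (Or.inr (Or.inr (Or.inl rfl)))
      have k4 := key 4 (Or.inr (Or.inr (Or.inr rfl)))
      rw [Nat.add_zero, p0, p0'] at k0
      rw [p1, p1'] at k1
      rw [p3, p3', hodd] at k3
      rw [p4, p4', hodd] at k4
      simp only [hlm]
      cases e1 : m i with
      | true =>
        cases e2 : m (i + 1) with
        | true =>
          rw [e1, e2] at k3 k4
          cases e3 : decide (i % 2 = 1) with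
          | true => rw [e3] at k4; exact k4 rfl rfl
          | false => rw [e3] at k3; exact k3 rfl rfl
        | false => rw [e1, e2] at k0; exact k0 rfl rfl
      | false =>
        cases e2 : m (i + 1) with
        | true => rw [e1, e2] at k1; exact k1 rfl rfl
        | false =>
          rw [e1, e2] at k3 k4
          cases e3 : decide (i % 2 = 1) with
          | true => rw [e3] at k3; exact k3 rfl rfl
          | false => rw [e3] at k4; exact k4 rfl rfl

end Pool.Agent.T9h88.XC
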