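import Pool.Agent.T9h88.XC.Cost

/-!
# The lower bound for all tours through the nodes
-/

set_option autoImplicit false

namespace Pool.Agent.T9h88.XC

open Pool.Agent.ETSP Pool.Agent.T9h21.TB Pool.Agent.T9h21.TB.Board

variable {m : ℕ} {a : ℕ → Bool} {L : ℤ}

theorem three_le {l : List Nd} (hv : ∀ v, v ∈ l ↔ (bo m).Val (ac m) v) : 3 ≤ l.length := by
  have h4 : [Nd.S 0 false, .S 0 true, .C 0 false].Nodup := by simp
  have h5 : [Nd.S 0 false, .S 0 true, .C 0 false] ⊆ l := by
    intro v hv'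
    rw [hv]
    simp only [List.mem_cons, List.not_mem_nil, or_false] at hv'
    rcases hv' with rfl | rfl | rfl <;> simp only [Val] <;> rw [bo_H] <;> omega
  exact (h4.subperm h5).length_le

theorem cyc_of_tight {l : List Nd} (hl : l.Nodup)
    (hv : ∀ v, v ∈ l ↔ (bo m).Val (ac m) v)
    (ht : tl (bo m).dst l < 2 * (l.map fun v => ((bo m).rad v : ℝ)).sum + 1 / 69) :
    Cyc ((bo m).Val (ac m)) (bo m).Tight l.formPerm := by
  have hC := cyc_of_list (d := (bo m).dst) (r := fun v => ((bo m).rad v : ℝ))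
    (P := (bo m).Val (ac m)) hl (three_le hv) hv
    (fun v w hv hw hne => (sep_iff v w).2 (cls (one_le m) hv hw hne).1) ht
  exact ⟨hC.val, hC.inv, fun v hv => tight_of_lt hv (hC.val v hv) (hC.tight v hv), hC.ne, hC.ne2,
    hC.conn⟩

theorem card_filter_le : ((Finset.range m).filter fun i => a i = true).card ≤ m :=
  (Finset.card_filter_le _ _).trans (by simp)

theorem card_pa_le : (pa m a).card ≤ m * m := by
  unfold pa
  exact (Finset.card_filter_le _ _).trans (by simp)

/-- the bits of a tight tour -/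
theorem bits (hm : 1 ≤ m) {A : Nd → Nd → Prop} (hLoc : Loc (bo m) (ac m) A) {j : ℕ}
    (hj : j < m * m)
    (h1 : gp (bo m) A (j / m + 2) 0 2 true = 1) (h2 : gp (bo m) A (j % m + 2) 0 2 true = 1) :
    gp (bo m) A 1 (18 * j + 15) 0 true = 1 ∧ gp (bo m) A 1 (18 * j + 15) 0 false = 1 := by
  have hM := one_le m
  have hp : j / m < m := Nat.div_lt_of_lt_mul hj
  have hq : j % m < m := Nat.mod_lt _ (by omega)
  have hlam : ∀ i, i < m → gp (bo m) A (i + 2) 0 2 true = 1 → lam (bo m) A (i + 2) 0 true = 1 := by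
    intro i hi h
    have h12 : (bo m).len (i + 2) 0 = 12 := by unfold Board.len; rw [ty_F']; rfl
    have g1 := (gp_alt (s := true) hM hLoc (i := i + 2) (n := 0) (k := 2) (by rw [bo_H]; omega)
      (by omega) (by omega)).1 (by omega)
    have g2 := (gp_alt (s := true) hM hLoc (i := i + 2) (n := 0) (k := 12) (by rw [bo_H]; omega)
      (by omega) (by omega)).1 (by omega)
    unfold lam
    rw [Nat.mul_zero, h12, g2, ← g1, h]
  have hc7 : (9 * j + 7) % 9 = 7 := by omega
  have hcj : (9 * j + 7) / 9 = j := by omega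
  have hact : ac m (2 * m) (9 * j + 7) = true := by
    change (decide ((9 * j + 7) % 9 = 7) && (true && decide (2 * m + 1 = 2 * m + 1))) = true
    rw [hc7]; simp
  obtain ⟨i, hi, -, hlit, hx, g1, g2⟩ := sound2 hM hLoc (9 * j + 7) (by rw [bo_M]; omega) (2 * m)
    (by rw [bo_h]) hact
  have hlit' : (fm m).board.lit i (9 * j + 7) = true := hlit
  have hx' : xor (decide (lam (bo m) A i 0 true = 1)) ((fm m).board.par i (9 * j + 7)) = true := hx
  rw [Fm.lit7 i hc7, hcj] at hlit'
  rw [Fm.par7 (fm_ok hm) i hc7, hcj] at hx'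
  have htm : (fm m).tm j i = false := by
    simp only [fm, decide_eq_false_iff_not]; omega
  have hn15 : 2 * (9 * j + 7) + 1 = 18 * j + 15 := by ring
  rw [hn15] at g1 g2
  cases hnr : (fm m).nr j i with
  | true =>
    exfalso
    rw [hnr, Bool.xor_true] at hx'
    simp only [fm, decide_eq_true_eq] at hnr
    obtain ⟨-, -, rfl | rfl⟩ := hnr
    · rw [hlam _ hp h1] at hx'; simp at hx'
    · rw [hlam _ hq h2] at hx'; simp at hx'
  | false =>
    rw [hnr, htm, Bool.or_false, Bool.or_false] at hlit'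
    simp only [fm, decide_eq_true_eq] at hlit'
    subst hlit'
    exact ⟨g1, g2⟩

theorem nat_quad (n : ℕ) : (0 : ℝ) ≤ ((n : ℝ) - 1) * ((n : ℝ) - 2) := by
  rcases Nat.lt_or_ge n 2 with h | h
  · have : n = 0 ∨ n = 1 := by omega
    rcases this with rfl | rfl <;> norm_num
  · have : (2 : ℝ) ≤ n := by exact_mod_cast h
    nlinarith

theorem lower_tight (hm : 1 ≤ m) (hL : 1 ≤ L) {l : List Nd} (hl : l.Nodup)
    (hv : ∀ v, v ∈ l ↔ (bo m).Val (ac m) v)
    (hC : Cyc ((bo m).Val (ac m)) (bo m).Tight l.formPerm) :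
    ca m a L - 2 ≤ tl (dd (bo m) L (de m a)) l := by
  have hM := one_le m
  have hLoc : Loc (bo m) (ac m) (Ad l.formPerm) := loc_of_cyc hM hC
  rw [tight_len' hm hL hl hv hC]
  set x : ℕ → ℝ := fun i => (gp (bo m) (Ad l.formPerm) (i + 2) 0 2 true : ℝ) with hx
  have hgle : ∀ i n k s, gp (bo m) (Ad l.formPerm) i n k s = 0 ∨
      gp (bo m) (Ad l.formPerm) i n k s = 1 := fun i n k s => by
    have := gp_le (b := bo m) (A := Ad l.formPerm) i n k s
    omega
  have hx01 : ∀ i, x i = 0 ∨ x i = 1 := by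
    intro i
    rcases hgle (i + 2) 0 2 true with h | h
    · left; simp only [hx, h]; norm_num
    · right; simp only [hx, h]; norm_num
  have h1 := sum_pairs (m := m) (a := a) x hx01
  have h2 : ∑ j ∈ pa m a, x (j / m) * x (j % m) ≤ ∑ j ∈ pa m a,
      ((gp (bo m) (Ad l.formPerm) 1 (18 * j + 15) 0 true : ℝ) +
        (gp (bo m) (Ad l.formPerm) 1 (18 * j + 15) 0 false : ℝ) - 1) := by
    refine Finset.sum_le_sum fun j hj => ?_
    have hj1 := (mem_pa.1 hj).1
    have g1 := gp_pos hM hLoc (i := 1) (n := 18 * j + 15) (by rw [bo_H]; omega) (by rw [bo_M]; omega)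
    have g1' : (1 : ℝ) ≤ (gp (bo m) (Ad l.formPerm) 1 (18 * j + 15) 0 true : ℝ) +
        (gp (bo m) (Ad l.formPerm) 1 (18 * j + 15) 0 false : ℝ) := by exact_mod_cast g1
    rcases hgle (j / m + 2) 0 2 true with e1 | e1
    · simp only [hx, e1]; push_cast; linarith
    · rcases hgle (j % m + 2) 0 2 true with e2 | e2
      · simp only [hx, e2]; push_cast; linarith
      · obtain ⟨g2, g3⟩ := bits hm hLoc hj1 e1 e2
        simp only [hx, e1, e2, g2, g3]; push_cast; linarith
  rw [h1] at h2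
  set t : ℝ := ∑ i ∈ (Finset.range m).filter (fun i => a i = true), x i with ht
  obtain ⟨n, hn⟩ : ∃ n : ℕ, t = n := ⟨∑ i ∈ (Finset.range m).filter (fun i => a i = true),
    gp (bo m) (Ad l.formPerm) (i + 2) 0 2 true, by rw [ht]; push_cast; rfl⟩
  have h3 := nat_quad n
  rw [← hn] at h3
  have h4 := (e1_bd hL).1
  have h5 : 0 ≤ t ^ 2 - t := by
    rw [← h1]
    refine Finset.sum_nonneg fun j _ => ?_
    rcases hx01 (j / m) with e | e <;> rcases hx01 (j % m) with e' | e' <;> rw [e, e'] <;> norm_num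
  set W := ∑ j ∈ pa m a, ((gp (bo m) (Ad l.formPerm) 1 (18 * j + 15) 0 true : ℝ) +
        (gp (bo m) (Ad l.formPerm) 1 (18 * j + 15) 0 false : ℝ) - 1) with hW
  nlinarith

/-- The lower bound. -/
theorem lower (hm : 1 ≤ m) (hL : 1000 * ((m : ℤ) * m) ≤ L) {l : List Nd} (hl : l.Nodup)
    (hv : ∀ v, v ∈ l ↔ (bo m).Val (ac m) v) : ca m a L - 2 ≤ tl (dd (bo m) L (de m a)) l := by
  have hm' : (1 : ℤ) ≤ m := by exact_mod_cast hm
  have hL1 : 1 ≤ L := by nlinarith
  by_cases ht : tl (bo m).dst l < 2 * (l.map fun v => ((bo m).rad v : ℝ)).sum + 1 / 69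
  · exact lower_tight hm hL1 hl hv (cyc_of_tight hl hv ht)
  · rw [not_lt] at ht
    rw [← bd_eq (ac m) hl hv] at ht
    have h1 := tl_ge (b := bo m) (L := L) (δ := de m a) (by omega) l
    have h2 : (l.map fun u => |(de m a u : ℝ)|).sum =
        ((Finset.range m).filter fun i => a i = true).card + 2 * (pa m a).card := by
      rw [← List.sum_toFinset _ hl]
      simp only [de_abs]
      rw [Finset.sum_ite_mem, Finset.inter_eq_right.2 (SS_sub (a := a) hm fun v => by
        rw [List.mem_toFinset, hv]), sum_SS, Finset.sum_const, Finset.sum_const]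
      simp only [nsmul_eq_mul]
      ring
    rw [h2] at h1
    have hLr : (1000 : ℝ) * ((m : ℝ) * m) ≤ L := by exact_mod_cast hL
    have hmr : (1 : ℝ) ≤ m := by exact_mod_cast hm
    have c1 : ((((Finset.range m).filter fun i => a i = true).card : ℕ) : ℝ) ≤ m := by
      exact_mod_cast card_filter_le
    have c2 : (((pa m a).card : ℕ) : ℝ) ≤ (m : ℝ) * m := by
      exact_mod_cast card_pa_le
    have c1' : (0 : ℝ) ≤ ((((Finset.range m).filter fun i => a i = true).card : ℕ) : ℝ) :=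
      Nat.cast_nonneg _
    have c2' : (0 : ℝ) ≤ (((pa m a).card : ℕ) : ℝ) := Nat.cast_nonneg _
    obtain ⟨k10, k11⟩ := k1_bd hL1
    obtain ⟨k40, k41⟩ := k4_bd hL1
    obtain ⟨e10, e11⟩ := e1_bd hL1
    unfold ca
    generalize ((((Finset.range m).filter fun i => a i = true).card : ℕ) : ℝ) = u at *
    generalize (((pa m a).card : ℕ) : ℝ) = v at *
    have h3 : u * (k1 L + 1) ≤ u * 2 := by nlinarith
    have h4 : v * (e1 L - 1 + 2 * k4 L) ≤ v * 2 := by nlinarith
    have h5 : (L : ℝ) * ((bo m).bd + 1 / 69) ≤ L * tl (bo m).dst l := by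
      refine mul_le_mul_of_nonneg_left ht ?_
      nlinarith
    nlinarith

end Pool.Agent.T9h88.XC
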