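import Pool.Agent.T9h88.XC.Robust
import Pool.Agent.T9h88.XC.Face

/-!
# Linear programs that are nearly exact on a family with the pattern of unique disjointness
-/

set_option autoImplicit false

namespace Pool.Agent.T9h88.XC

open Finset

variable {V : Type*} [AddCommGroup V] [Module ℝ V]

/-- Farkas' lemma -/
theorem fark {r : ℕ} (E : AffineSubspace ℝ V) (g : Fin r → V →ᵃ[ℝ] ℝ) (w : V →ᵃ[ℝ] ℝ) {o : ℝ}
    {x0 : V} (hx0 : x0 ∈ E) (hx0' : ∀ i, 0 ≤ g i x0)
    (h : ∀ x ∈ E, (∀ i, 0 ≤ g i x) → o ≤ w x) :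
    ∃ (c : ℝ) (d : Fin r → ℝ), 0 ≤ c ∧ (∀ i, 0 ≤ d i) ∧
      ∀ x ∈ E, w x - o = c + ∑ i, d i * g i x := by
  have hlin : ∀ (f : V →ᵃ[ℝ] ℝ) (d : E.direction), f (x0 + (d : V)) = f x0 + f.linear d := by
    intro f d
    have := f.map_vadd x0 (d : V)
    simp only [vadd_eq_add] at this
    rw [add_comm x0, this]
    ring
  have hmem : ∀ d : E.direction, x0 + (d : V) ∈ E := by
    intro d
    have := AffineSubspace.vadd_mem_of_mem_direction d.2 hx0
    rwa [vadd_eq_add, add_comm] at this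
  obtain ⟨c, d, hc, hd, hx⟩ := H575R2.farkas_affine r
    (fun i => -((g i).linear.comp E.direction.subtype)) (fun i => g i x0)
    (-(w.linear.comp E.direction.subtype)) (w x0 - o) (0 : E.direction)
    (fun i => by simpa using hx0' i) (fun x hx => by
      have h1 := h (x0 + (x : V)) (hmem x) (fun i => by
        rw [hlin]
        have h2 := hx i
        simp only [LinearMap.neg_apply, LinearMap.comp_apply, Submodule.subtype_apply] at h2
        linarith)
      rw [hlin] at h1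
      simp only [LinearMap.neg_apply, LinearMap.comp_apply, Submodule.subtype_apply]
      linarith)
  refine ⟨c, d, hc, hd, fun x hx' => ?_⟩
  have hdir : x - x0 ∈ E.direction := by
    have := AffineSubspace.vsub_mem_direction hx' hx0
    rwa [vsub_eq_sub] at this
  have h1 := hx ⟨x - x0, hdir⟩
  have h2 : ∀ f : V →ᵃ[ℝ] ℝ, f x = f x0 + f.linear (x - x0) := by
    intro f
    have := hlin f ⟨x - x0, hdir⟩
    simpa using this
  simp only [LinearMap.neg_apply, LinearMap.comp_apply, Submodule.subtype_apply] at h1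
  rw [h2 w]
  have h3 : ∑ i, d i * g i x = ∑ i, d i * (g i x0 - -((g i).linear (x - x0))) :=
    sum_congr rfl fun i _ => by rw [h2 (g i)]; ring
  rw [h3, ← h1]
  ring

/-- The size of a nearly exact mixed binary program. -/
theorem mip_robust {m r k : ℕ} (E : AffineSubspace ℝ V) (g : Fin r → V →ᵃ[ℝ] ℝ)
    (h : Fin k → V →ᵃ[ℝ] ℝ)
    (y : Finset (Fin m) → V) (w : Finset (Fin m) → V →ᵃ[ℝ] ℝ) (o : Finset (Fin m) → ℝ)
    (hy : ∀ b, y b ∈ E ∧ (∀ i, 0 ≤ g i (y b)) ∧ ∀ j, h j (y b) = 0 ∨ h j (y b) = 1)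
    (hopt : ∀ a, ∀ x ∈ E, (∀ i, 0 ≤ g i x) → (∀ j, h j x = 0 ∨ h j x = 1) → o a ≤ w a x)
    {K ε γ : ℝ} (hε : 0 ≤ ε) (hK : ∀ a b, w a (y b) - o a ≤ K)
    (h1 : ∀ a b i, a ∩ b = {i} → w a (y b) - o a ≤ ε)
    (h0 : ∀ a b, a ∩ b = ∅ → γ ≤ w a (y b) - o a) (hm : 1 ≤ m) {l : ℕ} (hl : 40 * l ≤ m) :
    γ ≤ 48 * ε + 20 * (2 ^ k * (r + 1)) * K * Real.exp (-(c0 * l)) := by
  classical
  set κ : Finset (Fin m) → Fin k → Bool := fun b j => decide (h j (y b) = 1) with hκ
  have hyk : ∀ b, y b ∈ Ek E h (κ b) := by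
    intro b
    rw [mem_Ek]
    refine ⟨(hy b).1, fun j => ?_⟩
    rcases (hy b).2.2 j with h2 | h2
    · rw [hκ]; simp [h2]
    · rw [hκ]; simp [h2]
  have hoptk : ∀ a c, ∀ x ∈ Ek E h c, (∀ i, 0 ≤ g i x) → o a ≤ w a x := by
    intro a c x hx hg
    rw [mem_Ek] at hx
    refine hopt a x hx.1 hg fun j => ?_
    rw [hx.2 j]
    split_ifs
    · exact Or.inr rfl
    · exact Or.inl rfl
  have hF : ∀ (c : Fin k → Bool) (a : Finset (Fin m)), ∃ (e : ℝ) (d : Fin r → ℝ), 0 ≤ e ∧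
      (∀ i, 0 ≤ d i) ∧ ∀ b, κ b = c → w a (y b) - o a = e + ∑ i, d i * g i (y b) := by
    intro c a
    by_cases hc : ∃ b, κ b = c
    · obtain ⟨b0, rfl⟩ := hc
      obtain ⟨e, d, he, hd, hx⟩ := fark (Ek E h (κ b0)) g (w a) (hyk b0) (hy b0).2.1
        (hoptk a (κ b0))
      exact ⟨e, d, he, hd, fun b hb => hx _ (by rw [← hb]; exact hyk b)⟩
    · exact ⟨0, fun _ => 0, le_rfl, fun _ => le_rfl, fun b hb => absurd ⟨b, hb⟩ hc⟩
  choose c d hc hd hx using hF
  have hsum : ∀ a b, ∑ i : (Fin k → Bool) × Fin (r + 1),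
      (Fin.cons (c i.1 a) (d i.1 a) : Fin (r + 1) → ℝ) i.2 *
      (if κ b = i.1 then (Fin.cons 1 (fun i => g i (y b)) : Fin (r + 1) → ℝ) i.2 else 0) =
      w a (y b) - o a := by
    intro a b
    rw [Fintype.sum_prod_type, Finset.sum_eq_single (κ b)]
    · simp only [if_true]
      rw [Fin.sum_univ_succ]
      simp only [Fin.cons_zero, Fin.cons_succ, mul_one]
      rw [hx (κ b) a b rfl]
    · intro c' _ hc'
      refine sum_eq_zero fun i _ => ?_
      rw [if_neg (Ne.symm hc'), mul_zero]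
    · intro h'; exact absurd (mem_univ _) h'
  have := robust (ι := (Fin k → Bool) × Fin (r + 1))
    (fun i a => (Fin.cons (c i.1 a) (d i.1 a) : Fin (r + 1) → ℝ) i.2)
    (fun i b => if κ b = i.1 then (Fin.cons 1 (fun i => g i (y b)) : Fin (r + 1) → ℝ) i.2 else 0)
    (by
      rintro ⟨c', i⟩ a
      refine Fin.cases ?_ (fun i => ?_) i
      · simpa using hc c' a
      · simpa using hd c' a i)
    (by
      rintro ⟨c', i⟩ b
      dsimp only
      split_ifs
      · refine Fin.cases ?_ (fun i => ?_) i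
        · simp
        · simpa using (hy b).2.1 i
      · exact le_rfl) (K := K) (g := γ) hε (fun a b => by rw [hsum]; exact hK a b)
    (fun a b i h => by rw [hsum]; exact h1 a b i h) (fun a b h => by rw [hsum]; exact h0 a b h)
    hm hl
  rw [Fintype.card_prod, Fintype.card_fun, Fintype.card_bool, Fintype.card_fin,
    Fintype.card_fin] at this
  push_cast at this
  exact this

end Pool.Agent.T9h88.XC
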