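import Pool.Agent.T9h88.XC.Pad

/-!
# The number of inequalities of an exact linear program
-/

set_option autoImplicit false

namespace Pool.Agent.T9h88.XC

open Pool.Agent.ETSP Pool.Agent.T9h21.TB Pool.Agent.T9h21.TB.Board

/-- the extension of a set of bits -/
def ext {m : ℕ} (a : Fin m → Bool) (i : ℕ) : Bool := if h : i < m then a ⟨i, h⟩ else false

theorem sum_ext {m : ℕ} (a b : Fin m → Bool) :
    ∑ i ∈ (Finset.range m).filter (fun i => ext a i = true), ind (ext b) i =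
      ∑ i : Fin m, if a i = true ∧ b i = true then (1 : ℝ) else 0 := by
  rw [Finset.sum_filter, Finset.sum_range]
  refine Finset.sum_congr rfl fun i _ => ?_
  have h : ∀ c : Fin m → Bool, ext c i = c i := by
    intro c
    unfold ext
    rw [dif_pos i.2]
  unfold ind
  rw [h, h]
  by_cases h1 : a i = true <;> by_cases h2 : b i = true <;> simp [h1, h2]

theorem sum_one {m : ℕ} {a b : Fin m → Bool} (h : One a b) :
    ∑ i ∈ (Finset.range m).filter (fun i => ext a i = true), ind (ext b) i = 1 := by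
  rw [sum_ext]
  obtain ⟨i, hi, hu⟩ := h
  rw [Finset.sum_eq_single i]
  · rw [if_pos hi]
  · intro j _ hj
    rw [if_neg fun h' => hj (hu j h')]
  · intro h; exact absurd (Finset.mem_univ _) h

theorem sum_dj {m : ℕ} {a b : Fin m → Bool} (h : Dj a b) :
    ∑ i ∈ (Finset.range m).filter (fun i => ext a i = true), ind (ext b) i = 0 := by
  rw [sum_ext]
  exact Finset.sum_eq_zero fun i _ => if_neg (h i)

theorem ind01 (bb : ℕ → Bool) (i : ℕ) : ind bb i = 0 ∨ ind bb i = 1 := by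
  unfold ind; split_ifs <;> simp

/-- a labelling of the nodes and the additional points -/
theorem label {m n : ℕ} (hm : 1 ≤ m) (hn : 5000 * m ^ 3 ≤ n) : ∃ (K : ℕ) (f : Fin n → Nd ⊕ ℕ),
    K ≤ n ∧ Function.Injective f ∧ (∀ i, f i ∈ NW m K) ∧ ∀ u ∈ NW m K, ∃ i, f i = u := by
  have h1 := card_nds hm
  set K := n - ((bo m).nds (ac m)).length with hK
  have h2 : (NW m K).length = n := by
    unfold NW
    rw [List.length_append, List.length_map, List.length_map, List.length_range]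
    omega
  refine ⟨K, fun i => (NW m K)[i]'(by rw [h2]; exact i.2), by omega, ?_, fun i => List.getElem_mem _,
    fun u hu => ?_⟩
  · intro i j h
    have h' : (NW m K)[i.1]'(by rw [h2]; exact i.2) = (NW m K)[j.1]'(by rw [h2]; exact j.2) := h
    rw [(nodup_NW (m := m) (K := K)).getElem_inj_iff] at h'
    exact Fin.ext h'
  · obtain ⟨i, hi, rfl⟩ := List.getElem_of_mem hu
    exact ⟨⟨i, by omega⟩, rfl⟩

/-- The bound for mixed binary programs. -/
theorem main {m n r k : ℕ} (hm : 1 ≤ m) (hn : 5000 * m ^ 3 ≤ n) {V : Type*} [AddCommGroup V]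
    [Module ℝ V] (E : AffineSubspace ℝ V) (g : Fin r → V →ᵃ[ℝ] ℝ) (h : Fin k → V →ᵃ[ℝ] ℝ)
    (y : Equiv.Perm (Fin n) → V) (w : (Fin n → ℤ × ℤ) → V →ᵃ[ℝ] ℝ)
    (hy : ∀ σ, IsTour σ → y σ ∈ E ∧ (∀ i, 0 ≤ g i (y σ)) ∧ ∀ j, h j (y σ) = 0 ∨ h j (y σ) = 1)
    (hw : ∀ p : Fin n → ℤ × ℤ, Function.Injective p →
      (∀ i, |(p i).1| ≤ (n : ℤ) ^ 2 ∧ |(p i).2| ≤ (n : ℤ) ^ 2) →
      (∀ σ, IsTour σ → w p (y σ) = ∑ i, eucl (p i) (p (σ i))) ∧
      ∀ x ∈ E, (∀ i, 0 ≤ g i x) → (∀ j, h j x = 0 ∨ h j x = 1) →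
        ∃ σ, IsTour σ ∧ ∑ i, eucl (p i) (p (σ i)) ≤ w p x) :
    3 ^ m ≤ (2 ^ k * (r + 1) + 1) * 2 ^ m := by
  classical
  obtain ⟨K, f, hKn, hf, hf1, hf2⟩ := label hm hn
  have hm3 : m * m ≤ m ^ 3 := by
    have : m ^ 3 = m * m * m := by ring
    rw [this]
    exact Nat.le_mul_of_pos_right _ hm
  have hm3' : 1 ≤ m ^ 3 := Nat.one_le_pow _ _ hm
  have hn2 : 2 ≤ n := by omega
  have hL1 : (1 : ℤ) ≤ n := by omega
  have hL3 : (3 : ℤ) ≤ n := by omega
  have hK18 : (K : ℤ) < 18 * n := by omega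
  have hL : 1000 * ((m : ℤ) * m) ≤ n := by
    have : 1000 * (m * m) ≤ n := by omega
    exact_mod_cast this
  -- the instances
  set p : (Fin m → Bool) → Fin n → ℤ × ℤ := fun a i => PW m n (ext a) (f i) with hp
  have hpinj : ∀ a, Function.Injective (p a) := fun a i j h =>
    hf (PW_inj hL3 hK18 (hf1 i) (hf1 j) h)
  have hpbd : ∀ a i, |(p a i).1| ≤ (n : ℤ) ^ 2 ∧ |(p a i).2| ≤ (n : ℤ) ^ 2 := fun a i =>
    PW_bd hm hn hKn (hf1 i)
  have hlen : ∀ a (T : List (Fin n)), tl (DW m n (ext a)) (T.map f) =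
      tl (fun i j => eucl (p a i) (p a j)) T := fun a T =>
    tl_map f (DW m n (ext a)) (d := fun i j => eucl (p a i) (p a j)) (fun _ _ => rfl) T
  -- the tours
  have htour : ∀ b : Fin m → Bool, ∃ σ : Equiv.Perm (Fin n), IsTour σ ∧ ∀ a : Fin m → Bool,
      ∑ i, eucl (p a i) (p a (σ i)) = ca m (ext a) n -
      2 * ∑ i ∈ (Finset.range m).filter (fun i => ext a i = true), ind (ext b) i +
      (e1 n + 1) * ∑ j ∈ pa m (ext a), ind (ext b) (j / m) * ind (ext b) (j % m) := by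
    intro b
    obtain ⟨l, h1, h2, h3⟩ := upper_W hm K (ext b)
    have h4 : ∀ u ∈ l, ∃ i, f i = u := fun u hu => hf2 u ((h2 u).1 hu)
    obtain ⟨T, hT⟩ : ∃ T : List (Fin n), T.map f = l := by
      clear h1 h2 h3
      induction l with
      | nil => exact ⟨[], rfl⟩
      | cons u l ih =>
        obtain ⟨T, hT⟩ := ih fun u hu => h4 u (by simp [hu])
        obtain ⟨i, hi⟩ := h4 u (by simp)
        exact ⟨i :: T, by rw [List.map_cons, hT, hi]⟩
    have hTn : T.Nodup := by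
      rw [← hT] at h1
      exact h1.of_map _
    have hTa : ∀ i, i ∈ T := by
      intro i
      have h5 : f i ∈ l := (h2 _).2 (hf1 i)
      rw [← hT, List.mem_map] at h5
      obtain ⟨j, hj, hij⟩ := h5
      rwa [← hf hij]
    obtain ⟨σ, hσ, hsum⟩ := tour_of_list hn2 hTn hTa
    refine ⟨σ, hσ, fun a => ?_⟩
    rw [← h3 (ext a) n hL1 hK18, ← hT, hlen a T, ← hsum]
  choose τ hτ1 hτ2 using htour
  have hval : ∀ a b : Fin m → Bool, ∑ i, eucl (p a i) (p a (τ b i)) = ca m (ext a) n -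
      2 * (∑ i ∈ (Finset.range m).filter (fun i => ext a i = true), ind (ext b) i) +
      (e1 n + 1) * ((∑ i ∈ (Finset.range m).filter (fun i => ext a i = true), ind (ext b) i) ^ 2 -
        ∑ i ∈ (Finset.range m).filter (fun i => ext a i = true), ind (ext b) i) := by
    intro a b
    rw [hτ2 b a, sum_pairs _ (ind01 _)]
  refine mip_bound E g h (fun b => y (τ b)) (fun a => w (p a)) (fun a => ca m (ext a) n - 2)
    (fun b => hy _ (hτ1 b)) ?_ ?_ ?_
  · intro a x hx hx' hx''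
    obtain ⟨σ, hσ, hle⟩ := (hw (p a) (hpinj a) (hpbd a)).2 x hx hx' hx''
    refine le_trans ?_ hle
    obtain ⟨T, hT1, hT2, hT3⟩ := list_of_tour hn2 hσ
    rw [hT3 (fun i j => eucl (p a i) (p a j)), ← hlen]
    refine lower_W hm hL (K := K) (hT1.map hf) fun v => ?_
    rw [List.mem_map]
    constructor
    · rintro ⟨i, -, rfl⟩; exact hf1 i
    · intro hv
      obtain ⟨i, rfl⟩ := hf2 v hv
      exact ⟨i, hT2 i, rfl⟩
  · intro a b hab
    rw [(hw (p a) (hpinj a) (hpbd a)).1 _ (hτ1 b), hval, sum_one hab]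
    ring
  · intro a b hab
    rw [(hw (p a) (hpinj a) (hpbd a)).1 _ (hτ1 b), hval, sum_dj hab]
    have := (e1_bd hL1).1
    linarith

end Pool.Agent.T9h88.XC
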