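import Pool.Agent.T9h88.XC.Pad2

/-!
# The number of inequalities of an approximate linear program
-/

set_option autoImplicit false

namespace Pool.Agent.T9h88.XC

open Pool.Agent.ETSP Pool.Agent.T9h21.TB Pool.Agent.T9h21.TB.Board

/-- the bits of a set -/
def exs {m : ℕ} (a : Finset (Fin m)) : ℕ → Bool := ext fun i => decide (i ∈ a)

theorem sum_exs {m : ℕ} (a b : Finset (Fin m)) :
    ∑ i ∈ (Finset.range m).filter (fun i => exs a i = true), ind (exs b) i =
      ((a ∩ b).card : ℝ) := by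
  unfold exs
  rw [sum_ext]
  simp only [decide_eq_true_eq]
  rw [Finset.sum_ite, Finset.sum_const_zero, add_zero, Finset.sum_const, nsmul_eq_mul, mul_one]
  congr 2
  ext i
  simp

theorem bd_le {m n : ℕ} (hm : 1 ≤ m) (hn : 5000 * m ^ 3 ≤ n) : ((bo m).bd : ℝ) ≤ 34 * n := by
  have h1 := bd_eq (b := bo m) (ac m) (nodup_nds (b := bo m) (act := ac m)) (fun v => mem_nds)
  rw [h1]
  have h2 : ∀ l : List Nd, (∀ v ∈ l, (bo m).Val (ac m) v) →
      (l.map fun v => ((bo m).rad v : ℝ)).sum ≤ 17 * l.length := by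
    intro l
    induction l with
    | nil => intro _; simp
    | cons v l ih =>
      intro h
      rw [List.map_cons, List.sum_cons, List.length_cons]
      have h3 := ih fun w hw => h w (by simp [hw])
      have h4 : ((bo m).rad v : ℝ) ≤ 17 := by exact_mod_cast rad_le v (h v (by simp))
      push_cast
      linarith
  have h3 := h2 ((bo m).nds (ac m)) fun v hv => mem_nds.1 hv
  have h4 : ((((bo m).nds (ac m)).length : ℕ) : ℝ) ≤ n := by
    exact_mod_cast (card_nds hm).trans hn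
  linarith

theorem ca_le {m n : ℕ} {a : ℕ → Bool} {L : ℤ} (hL : 1 ≤ L) (hm : 1 ≤ m)
    (hn : 5000 * m ^ 3 ≤ n) : ca m a L ≤ L * (34 * n) + 2 * m + 2 * m ^ 2 := by
  have hLr : (1 : ℝ) ≤ L := by exact_mod_cast hL
  have c1 : ((((Finset.range m).filter fun i => a i = true).card : ℕ) : ℝ) ≤ m := by
    exact_mod_cast card_filter_le
  have c2 : (((pa m a).card : ℕ) : ℝ) ≤ (m : ℝ) * m := by
    exact_mod_cast card_pa_le
  have c1' : (0 : ℝ) ≤ ((((Finset.range m).filter fun i => a i = true).card : ℕ) : ℝ) :=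
    Nat.cast_nonneg _
  have c2' : (0 : ℝ) ≤ (((pa m a).card : ℕ) : ℝ) := Nat.cast_nonneg _
  obtain ⟨k10, k11⟩ := k1_bd hL
  obtain ⟨k40, k41⟩ := k4_bd hL
  obtain ⟨e10, e11⟩ := e1_bd hL
  unfold ca
  generalize ((((Finset.range m).filter fun i => a i = true).card : ℕ) : ℝ) = u at *
  generalize (((pa m a).card : ℕ) : ℝ) = v at *
  have h3 : u * (k1 L + 1) ≤ u * 2 := by nlinarith
  have h4 : v * (e1 L - 1 + 2 * k4 L) ≤ v * 2 := by nlinarith
  have h5 := mul_le_mul_of_nonneg_left (bd_le hm hn) (show (0 : ℝ) ≤ L by linarith)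
  nlinarith

/-- The bound for approximate mixed binary programs. -/
theorem main2 {m n r k l : ℕ} (hm : 1 ≤ m) (hn : 5000 * m ^ 3 ≤ n) (hl : 40 * l ≤ m)
    {V : Type*} [AddCommGroup V] [Module ℝ V] (E : AffineSubspace ℝ V)
    (g : Fin r → V →ᵃ[ℝ] ℝ) (h : Fin k → V →ᵃ[ℝ] ℝ) (y : Equiv.Perm (Fin n) → V)
    (w : (Fin n → ℤ × ℤ) → V →ᵃ[ℝ] ℝ)
    {η : ℝ} (hη0 : 0 ≤ η) (hη : η * (35000 * (m : ℝ) ^ 2 * n) ≤ 1 / 192)
    (hy : ∀ σ, IsTour σ → y σ ∈ E ∧ (∀ i, 0 ≤ g i (y σ)) ∧ ∀ j, h j (y σ) = 0 ∨ h j (y σ) = 1)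
    (hw : ∀ p : Fin n → ℤ × ℤ, Function.Injective p →
      (∀ i, |(p i).1| ≤ (n : ℤ) ^ 3 ∧ |(p i).2| ≤ (n : ℤ) ^ 3) →
      (∀ σ, IsTour σ → |w p (y σ) - ∑ i, eucl (p i) (p (σ i))| ≤
        1 + η * ∑ i, eucl (p i) (p (σ i))) ∧
      ∀ x ∈ E, (∀ i, 0 ≤ g i x) → (∀ j, h j x = 0 ∨ h j x = 1) → ∃ σ, IsTour σ ∧
        (1 - η) * ∑ i, eucl (p i) (p (σ i)) - 1 ≤ w p x) :
    1 ≤ 20 * (2 ^ k * (r + 1)) * (2 * (m : ℝ) ^ 2 + 3) * Real.exp (-(c0 * l)) := by
  classical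
  obtain ⟨K, f, hKn, hf, hf1, hf2⟩ := label hm hn
  have hm3 : m * m ≤ m ^ 3 := by
    have : m ^ 3 = m * m * m := by ring
    rw [this]
    exact Nat.le_mul_of_pos_right _ hm
  have hm3' : 1 ≤ m ^ 3 := Nat.one_le_pow _ _ hm
  have hmm : 1 ≤ m * m := Nat.mul_le_mul hm hm
  have hn2 : 2 ≤ n := by omega
  set L : ℤ := 1000 * ((m : ℤ) * m) with hLdef
  have hmm' : (1 : ℤ) ≤ (m : ℤ) * m := by exact_mod_cast hmm
  have hL1 : (1 : ℤ) ≤ L := by omega
  have hL3 : (3 : ℤ) ≤ L := by omega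
  have hq1 : (1 : ℤ) ≤ (n : ℤ) := by omega
  have hK18 : (K : ℤ) < 18 * ((n : ℤ) * L) := by
    have h1 : (n : ℤ) * 1 ≤ n * L := mul_le_mul_of_nonneg_left hL1 (by omega)
    omega
  -- the instances
  set p : Finset (Fin m) → Fin n → ℤ × ℤ := fun a i => PX m n L (exs a) (f i) with hp
  have hpinj : ∀ a, Function.Injective (p a) := fun a i j h =>
    hf (PX_inj hL3 hq1 hK18 (hf1 i) (hf1 j) h)
  have hpbd : ∀ a i, |(p a i).1| ≤ (n : ℤ) ^ 3 ∧ |(p a i).2| ≤ (n : ℤ) ^ 3 := fun a i =>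
    PX_bd hm hn hKn (hf1 i)
  have hlen : ∀ a (T : List (Fin n)), tl (DX m n L (exs a)) (T.map f) =
      tl (fun i j => eucl (p a i) (p a j)) T := fun a T =>
    tl_map f (DX m n L (exs a)) (d := fun i j => eucl (p a i) (p a j)) (fun _ _ => rfl) T
  -- the tours
  have htour : ∀ b : Finset (Fin m), ∃ σ : Equiv.Perm (Fin n), IsTour σ ∧
      ∀ a : Finset (Fin m), ∑ i, eucl (p a i) (p a (σ i)) = n * (ca m (exs a) L -
      2 * ∑ i ∈ (Finset.range m).filter (fun i => exs a i = true), ind (exs b) i +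
      (e1 L + 1) * ∑ j ∈ pa m (exs a), ind (exs b) (j / m) * ind (exs b) (j % m)) := by
    intro b
    obtain ⟨l, h1, h2, h3⟩ := upper_X hm K (exs b)
    have h4 : ∀ u ∈ l, ∃ i, f i = u := fun u hu => hf2 u ((h2 u).1 hu)
    obtain ⟨T, hT⟩ : ∃ T : List (Fin n), T.map f = l := by
      clear h1 h2 h3
      induction l with
      | nil => exact ⟨[], rfl⟩
      | cons u l ih =>
        obtain ⟨T, hT⟩ := ih fun u hu => h4 u (by simp [hu])
        obtain ⟨i, hi⟩ := h4 u (by simp)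
        exact ⟨i :: T, by rw [List.map_cons, hT, hi]⟩
    have hTn : T.Nodup := by
      rw [← hT] at h1
      exact h1.of_map _
    have hTa : ∀ i, i ∈ T := by
      intro i
      have h5 : f i ∈ l := (h2 _).2 (hf1 i)
      rw [← hT, List.mem_map] at h5
      obtain ⟨j, hj, hij⟩ := h5
      rwa [← hf hij]
    obtain ⟨σ, hσ, hsum⟩ := tour_of_list hn2 hTn hTa
    refine ⟨σ, hσ, fun a => ?_⟩
    have h5 := h3 (exs a) n L hL1 (by omega) hK18
    rw [← hT, hlen a T, ← hsum] at h5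
    rw [h5]
    push_cast
    ring
  choose τ hτ1 hτ2 using htour
  have hval : ∀ a b : Finset (Fin m), ∑ i, eucl (p a i) (p a (τ b i)) =
      n * (ca m (exs a) L - 2 * ((a ∩ b).card : ℝ) +
      (e1 L + 1) * (((a ∩ b).card : ℝ) ^ 2 - (a ∩ b).card)) := by
    intro a b
    rw [hτ2 b a, sum_pairs _ (ind01 _), sum_exs]
  -- all tours are long
  have hlow : ∀ a σ, IsTour σ → n * (ca m (exs a) L - 2) ≤ ∑ i, eucl (p a i) (p a (σ i)) := by
    intro a σ hσ
    obtain ⟨T, hT1, hT2, hT3⟩ := list_of_tour hn2 hσ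
    rw [hT3 (fun i j => eucl (p a i) (p a j)), ← hlen]
    have h1 := lower_X (a := exs a) (q := n) hm (le_of_eq hLdef.symm) (by omega) (K := K)
      (hT1.map hf) fun v => (by
        rw [List.mem_map]
        constructor
        · rintro ⟨i, -, rfl⟩; exact hf1 i
        · intro hv
          obtain ⟨i, rfl⟩ := hf2 v hv
          exact ⟨i, hT2 i, rfl⟩)
    push_cast at h1
    exact h1
  -- constants
  have hnr : (5000 : ℝ) * (m : ℝ) ^ 3 ≤ n := by exact_mod_cast hn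
  have hmr : (1 : ℝ) ≤ m := by exact_mod_cast hm
  have hm2r : (m : ℝ) ≤ (m : ℝ) ^ 2 := by nlinarith
  have hm3r : (m : ℝ) ^ 2 ≤ (m : ℝ) ^ 3 := by nlinarith
  have hn5 : (5000 : ℝ) ≤ n := by nlinarith
  have hLr : (L : ℝ) = 1000 * (m : ℝ) ^ 2 := by rw [hLdef]; push_cast; ring
  have hn0 : (0 : ℝ) < n := by linarith
  set O : ℝ := n * (35000 * (m : ℝ) ^ 2 * n) with hO
  have hbig : (0 : ℝ) ≤ 35000 * (m : ℝ) ^ 2 * n := by positivity
  have hη1 : η ≤ 1 := by
    have h1 : (1 : ℝ) ≤ 35000 * (m : ℝ) ^ 2 * n := by nlinarith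
    nlinarith
  have hsmall : 2 * (m : ℝ) + 4 * (m : ℝ) ^ 2 ≤ 1000 * (m : ℝ) ^ 2 * n := by nlinarith
  have hcaO : ∀ a : ℕ → Bool, n * (ca m a L + 2 * (m : ℝ) ^ 2) ≤ O := by
    intro a
    rw [hO]
    refine mul_le_mul_of_nonneg_left ?_ hn0.le
    have := ca_le (a := a) hL1 hm hn
    rw [hLr] at this
    nlinarith
  obtain ⟨e10, e11⟩ := e1_bd hL1
  have htm : ∀ a b : Finset (Fin m), (0 : ℝ) ≤ ((a ∩ b).card : ℝ) ∧ ((a ∩ b).card : ℝ) ≤ m := by
    intro a b
    refine ⟨Nat.cast_nonneg _, ?_⟩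
    have := Finset.card_le_card (Finset.subset_univ (a ∩ b))
    rw [Finset.card_univ, Fintype.card_fin] at this
    exact_mod_cast this
  have htt : ∀ a b : Finset (Fin m), 0 ≤ ((a ∩ b).card : ℝ) ^ 2 - (a ∩ b).card := by
    intro a b
    rcases Nat.eq_zero_or_pos (a ∩ b).card with h | h
    · rw [h]; norm_num
    · have : (1 : ℝ) ≤ ((a ∩ b).card : ℝ) := by exact_mod_cast h
      nlinarith
  have hup : ∀ a b : Finset (Fin m), - 2 * ((a ∩ b).card : ℝ) +
      (e1 L + 1) * (((a ∩ b).card : ℝ) ^ 2 - (a ∩ b).card) ≤ 2 * (m : ℝ) ^ 2 := by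
    intro a b
    obtain ⟨h1, h2⟩ := htm a b
    have h3 := htt a b
    nlinarith
  have hlenO : ∀ a b, ∑ i, eucl (p a i) (p a (τ b i)) ≤ O := by
    intro a b
    rw [hval]
    refine le_trans ?_ (hcaO (exs a))
    refine mul_le_mul_of_nonneg_left ?_ hn0.le
    have := hup a b
    linarith
  have hoO : ∀ a : Finset (Fin m), n * (ca m (exs a) L - 2) ≤ O := by
    intro a
    refine le_trans ?_ (hcaO (exs a))
    refine mul_le_mul_of_nonneg_left ?_ hn0.le
    nlinarith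
  set e : ℝ := 1 + η * O with he
  have heO : η * O ≤ n / 192 := by
    rw [hO]
    have : η * (n * (35000 * (m : ℝ) ^ 2 * n)) = n * (η * (35000 * (m : ℝ) ^ 2 * n)) := by ring
    rw [this]
    have := mul_le_mul_of_nonneg_left hη hn0.le
    linarith
  have he96 : e ≤ n / 96 := by
    have : (1 : ℝ) ≤ n / 192 := by linarith
    linarith
  have he0 : 0 ≤ e := by
    have : 0 ≤ η * O := mul_nonneg hη0 (by positivity)
    linarith
  have hwe : ∀ a b, |w (p a) (y (τ b)) - ∑ i, eucl (p a i) (p a (τ b i))| ≤ e := by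
    intro a b
    refine ((hw (p a) (hpinj a) (hpbd a)).1 _ (hτ1 b)).trans ?_
    have := mul_le_mul_of_nonneg_left (hlenO a b) hη0
    linarith
  have hfin := mip_robust E g h (fun b => y (τ b)) (fun a => w (p a))
    (fun a => n * (ca m (exs a) L - 2) - e) (fun b => hy _ (hτ1 b)) ?_ (K := n * (2 * (m : ℝ) ^ 2 + 3))
    (ε := n / 48) (γ := 2 * n) (by positivity) ?_ ?_ ?_ hm hl
  · have h1 : (n : ℝ) * 1 ≤ n * (20 * (2 ^ k * (r + 1)) * (2 * (m : ℝ) ^ 2 + 3) *
        Real.exp (-(c0 * l))) := by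
      linarith
    exact le_of_mul_le_mul_left h1 hn0
  · intro a x hx hx' hx''
    obtain ⟨σ, hσ, hle⟩ := (hw (p a) (hpinj a) (hpbd a)).2 x hx hx' hx''
    refine le_trans ?_ hle
    have h1 := hlow a σ hσ
    have h2 := mul_le_mul_of_nonneg_left h1 (show 0 ≤ 1 - η by linarith)
    have h3 := mul_le_mul_of_nonneg_left (hoO a) hη0
    linarith
  · intro a b
    have h1 := abs_le.1 (hwe a b)
    have h2 := hval a b
    have h3 := hup a b
    have h4 := mul_le_mul_of_nonneg_left h3 hn0.le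
    linarith
  · intro a b i hab
    have h1 := abs_le.1 (hwe a b)
    have h2 := hval a b
    rw [hab, Finset.card_singleton] at h2
    push_cast at h2
    linarith
  · intro a b hab
    have h1 := abs_le.1 (hwe a b)
    have h2 := hval a b
    rw [hab, Finset.card_empty] at h2
    push_cast at h2
    linarith

end Pool.Agent.T9h88.XC
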