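import Pool.Agent.T9h88.XC.Upper
import Pool.Agent.T9h88.XC.Face

/-!
# Instances with any number of points, and the bound for linear programs
-/

set_option autoImplicit false

namespace Pool.Agent.T9h88.XC

open Pool.Agent.ETSP Pool.Agent.T9h21.TB Pool.Agent.T9h21.TB.Board

variable {m : ℕ} {a : ℕ → Bool} {L : ℤ}

theorem length_flatMap_le {α β : Type} (f : α → List β) (c : ℕ) (l : List α)
    (h : ∀ x ∈ l, (f x).length ≤ c) : (l.flatMap f).length ≤ l.length * c := by
  induction l with
  | nil => simp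
  | cons x l ih =>
    rw [List.flatMap_cons, List.length_append, List.length_cons, Nat.succ_mul]
    have h1 := h x (by simp)
    have h2 := ih fun y hy => h y (by simp [hy])
    omega

/-- the number of nodes -/
theorem card_nds (hm : 1 ≤ m) : ((bo m).nds (ac m)).length ≤ 5000 * m ^ 3 := by
  have h1 : ∀ i, ((bo m).rowN i).length ≤ (2 * (bo m).M + 1) * 39 + 6 := by
    intro i
    unfold Board.rowN
    rw [List.length_append]
    have h2 : (List.flatMap (fun n => List.flatMap (fun k => (bo m).stN i n k)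
        (List.range ((bo m).len i n + 1))) (List.range (2 * (bo m).M + 1))).length ≤
        (2 * (bo m).M + 1) * 39 := by
      refine (length_flatMap_le _ 39 _ fun n _ => ?_).trans (by rw [List.length_range])
      refine (length_flatMap_le _ 3 _ fun k _ => ?_).trans ?_
      · unfold stN qN
        split_ifs <;> simp
      · rw [List.length_range]
        have := (bo m).len_le i n
        omega
    have h3 : (endN i).length ≤ 6 := by
      unfold endN
      split_ifs <;> simp
    omega
  have h2 : ((bo m).actN (ac m)).length ≤ (2 * m + 1) * (bo m).M := by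
    unfold Board.actN
    refine (length_flatMap_le _ (bo m).M _ fun e _ => ?_).trans (by
      rw [List.length_range, bo_h])
    refine (length_flatMap_le _ 1 _ fun k _ => ?_).trans (by rw [List.length_range, Nat.mul_one])
    split_ifs <;> simp
  unfold Board.nds
  rw [List.length_append]
  have h3 : (List.flatMap (fun i => (bo m).rowN i) (List.range (bo m).H)).length ≤
      (2 * m + 2) * ((2 * (bo m).M + 1) * 39 + 6) :=
    (length_flatMap_le _ _ _ fun i _ => h1 i).trans (by rw [List.length_range, bo_H])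
  refine (add_le_add h3 h2).trans ?_
  rw [bo_M]
  have e1 : m ≤ m * m := Nat.le_mul_of_pos_left m hm
  have e2 : (2 * (9 * (m * m) + 6) + 1) * 39 + 6 ≤ 1215 * (m * m) := by
    have : 1 ≤ m * m := hm.trans e1
    omega
  have e3 : 9 * (m * m) + 6 ≤ 15 * (m * m) := by
    have : 1 ≤ m * m := hm.trans e1
    omega
  calc (2 * m + 2) * ((2 * (9 * (m * m) + 6) + 1) * 39 + 6) + (2 * m + 1) * (9 * (m * m) + 6)
      ≤ (4 * m) * (1215 * (m * m)) + (3 * m) * (15 * (m * m)) :=
        add_le_add (Nat.mul_le_mul (by omega) e2) (Nat.mul_le_mul (by omega) e3)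
    _ ≤ 5000 * m ^ 3 := by nlinarith [Nat.zero_le (m ^ 3)]

/-- the position of the nodes and of the additional points -/
def PW (m : ℕ) (L : ℤ) (a : ℕ → Bool) : Nd ⊕ ℕ → ℤ × ℤ
  | .inl v => P (bo m) L (de m a) v
  | .inr t => (-19 * L + t + 1, 0)

/-- the distance of nodes or additional points -/
noncomputable def DW (m : ℕ) (L : ℤ) (a : ℕ → Bool) (u v : Nd ⊕ ℕ) : ℝ :=
  eucl (PW m L a u) (PW m L a v)

/-- the nodes and `K` additional points -/
def NW (m K : ℕ) : List (Nd ⊕ ℕ) :=
  ((bo m).nds (ac m)).map .inl ++ (List.range K).map .inr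

theorem mem_NW {K : ℕ} {u : Nd ⊕ ℕ} : u ∈ NW m K ↔
    (∃ v, (bo m).Val (ac m) v ∧ u = .inl v) ∨ ∃ t, t < K ∧ u = .inr t := by
  unfold NW
  simp only [List.mem_append, List.mem_map, List.mem_range, mem_nds]
  constructor
  · rintro (⟨v, h, rfl⟩ | ⟨t, h, rfl⟩)
    · exact Or.inl ⟨v, h, rfl⟩
    · exact Or.inr ⟨t, h, rfl⟩
  · rintro (⟨v, h, rfl⟩ | ⟨t, h, rfl⟩)
    · exact Or.inl ⟨v, h, rfl⟩
    · exact Or.inr ⟨t, h, rfl⟩

theorem nodup_NW {K : ℕ} : (NW m K).Nodup := by
  unfold NW
  rw [List.nodup_append']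
  refine ⟨(nodup_nds).map Sum.inl_injective, (List.nodup_range).map Sum.inr_injective, ?_⟩
  intro u h1 h2
  simp only [List.mem_map] at h1 h2
  obtain ⟨v, -, rfl⟩ := h1
  obtain ⟨t, -, h⟩ := h2
  simp at h

/-- the abscissas of the nodes -/
theorem px_cases {v : Nd} (hv : (bo m).Val (ac m) v) :
    ((bo m).px v = -19 ∧ de m a v = 0) ∨ ((bo m).px v = -1 ∧ de m a v = 0) ∨ 0 ≤ (bo m).px v := by
  cases v with
  | X i n k s =>
    right; right
    obtain ⟨o, x, h1, -, h2, -⟩ := st_data hv.2.2.1
    simp only [px]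
    rw [h1]
    positivity
  | Q i n k =>
    right; right
    obtain ⟨o, x, h1, -, h2, -⟩ := st_data hv.2.2.1
    simp only [px]
    rw [h1]
    positivity
  | S i r =>
    cases r with
    | false => right; left; exact ⟨by simp [px], de_zero (by simp) (by simp)⟩
    | true => right; right; simp only [px, if_true]; positivity
  | C i r =>
    cases r with
    | false => left; exact ⟨by simp [px], de_zero (by simp) (by simp)⟩
    | true => right; right; simp only [px, if_true]; positivity
  | T i r =>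
    cases r with
    | false => left; exact ⟨by simp [px], de_zero (by simp) (by simp)⟩
    | true => right; right; simp only [px, if_true]; positivity
  | A e c => right; right; simp only [px]; positivity

theorem px_le {v : Nd} (hv : (bo m).Val (ac m) v) : (bo m).px v ≤ 64 * (bo m).M + 51 := by
  cases v with
  | X i n k s =>
    obtain ⟨o, x, h1, -, h2, h3, -⟩ := st_data hv.2.2.1
    have : (n : ℤ) ≤ 2 * (bo m).M := by exact_mod_cast hv.2.1
    simp only [px]
    rw [h1]
    omega
  | Q i n k =>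
    obtain ⟨o, x, h1, -, h2, h3, -⟩ := st_data hv.2.2.1
    have : (n : ℤ) ≤ 2 * (bo m).M := by exact_mod_cast hv.2.1
    simp only [px]
    rw [h1]
    omega
  | S i r =>
    simp only [px]
    split_ifs <;> omega
  | C i r =>
    simp only [px]
    split_ifs <;> omega
  | T i r =>
    simp only [px]
    split_ifs <;> omega
  | A e c =>
    have : (c : ℤ) < (bo m).M := by exact_mod_cast hv.2.1
    simp only [px]
    omega

theorem py_bd {v : Nd} (hv : (bo m).Val (ac m) v) : |(bo m).py v| ≤ 72 * m + 63 := by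
  have hi : ∀ i : ℕ, i < (bo m).H → (i : ℤ) ≤ 2 * m + 1 := by
    intro i hi
    rw [bo_H] at hi
    omega
  rw [abs_le]
  cases v with
  | X i n k s =>
    obtain ⟨o, x, -, h1, -, -, h2, -⟩ := st_data hv.2.2.1
    have := hi i hv.1
    simp only [py]
    rw [h1]
    rcases sg_cases s with ⟨-, h5⟩ | ⟨-, h5⟩ <;> rw [h5] <;> rcases h2 with rfl | rfl | rfl <;>
      constructor <;> omega
  | Q i n k =>
    have := hi i hv.1
    simp only [py]
    constructor <;> omega
  | S i r =>
    have := hi i hv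
    simp only [py]
    constructor <;> omega
  | C i r =>
    have := hi i hv
    simp only [py]
    constructor <;> omega
  | T i r =>
    have := hi i hv.1
    simp only [py]
    constructor <;> omega
  | A e c =>
    have h1 : (e : ℤ) ≤ 2 * m := by
      have := hv.1
      rw [bo_h] at this
      omega
    simp only [py]
    constructor <;> omega

theorem PW_inj {K : ℕ} (hL : 3 ≤ L) (hK : (K : ℤ) < 18 * L) {u v : Nd ⊕ ℕ} (hu : u ∈ NW m K)
    (hv : v ∈ NW m K) (h : PW m L a u = PW m L a v) : u = v := by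
  have key : ∀ v t, (bo m).Val (ac m) v → t < K → PW m L a (.inl v) ≠ PW m L a (.inr t) := by
    intro v t hv ht h
    unfold PW P at h
    rw [Prod.mk.injEq] at h
    have h1 := h.1
    have h2 := abs_le.1 (de_bound (m := m) (a := a) v)
    have h3 : (t : ℤ) < K := by exact_mod_cast ht
    rcases px_cases (a := a) hv with ⟨g1, g2⟩ | ⟨g1, g2⟩ | g1
    · rw [g1, g2] at h1; omega
    · rw [g1, g2] at h1; omega
    · nlinarith
  rw [mem_NW] at hu hv
  rcases hu with ⟨x, hx, rfl⟩ | ⟨t, ht, rfl⟩ <;> rcases hv with ⟨x', hx', rfl⟩ | ⟨t', ht', rfl⟩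
  · congr 1
    refine pos_inj (one_le m) hx hx' ?_
    unfold PW P at h
    rw [Prod.mk.injEq] at h
    have h2 := abs_le.1 (de_bound (m := m) (a := a) x)
    have h3 := abs_le.1 (de_bound (m := m) (a := a) x')
    unfold Board.pos
    rw [Prod.mk.injEq]
    constructor
    · have h1 := h.1
      by_contra hne
      rcases lt_or_gt_of_ne hne with h4 | h4
      · have : (bo m).px x + 1 ≤ (bo m).px x' := h4
        nlinarith
      · have : (bo m).px x' + 1 ≤ (bo m).px x := h4
        nlinarith
    · exact mul_left_cancel₀ (by omega) h.2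
  · exact absurd h (key _ _ hx ht')
  · exact absurd h.symm (key _ _ hx' ht)
  · unfold PW at h
    rw [Prod.mk.injEq] at h
    congr 1
    omega

/-- the coordinates are small -/
theorem PW_bd {n K : ℕ} (hm : 1 ≤ m) (hn : 5000 * m ^ 3 ≤ n) (hK : K ≤ n) {u : Nd ⊕ ℕ}
    (hu : u ∈ NW m K) : |(PW m n a u).1| ≤ (n : ℤ) ^ 2 ∧ |(PW m n a u).2| ≤ (n : ℤ) ^ 2 := by
  have hn' : (5000 : ℤ) * (m : ℤ) ^ 3 ≤ n := by exact_mod_cast hn
  have hm' : (1 : ℤ) ≤ m := by exact_mod_cast hm
  have hm2 : (1 : ℤ) ≤ (m : ℤ) ^ 2 := by nlinarith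
  have hm3 : (m : ℤ) ^ 2 ≤ (m : ℤ) ^ 3 := by nlinarith
  have hm4 : (m : ℤ) ≤ (m : ℤ) ^ 2 := by nlinarith
  have hn0 : (5000 : ℤ) ≤ n := by linarith
  rw [mem_NW] at hu
  rcases hu with ⟨x, hx, rfl⟩ | ⟨t, ht, rfl⟩
  · have h1 := px_le hx
    have h2 := py_bd hx
    have h3 := abs_le.1 (de_bound (m := m) (a := a) x)
    have h4 : -19 ≤ (bo m).px x := by
      rcases px_cases (a := a) hx with ⟨g1, -⟩ | ⟨g1, -⟩ | g1 <;> omega
    have hM : ((bo m).M : ℤ) = 9 * (m : ℤ) ^ 2 + 6 := by rw [bo_M]; push_cast; ring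
    rw [hM] at h1
    have h5 : (bo m).px x ≤ 1011 * (m : ℤ) ^ 2 := by linarith
    constructor
    · simp only [PW, P]
      rw [abs_le]
      constructor
      · nlinarith
      · have : (n : ℤ) * (bo m).px x ≤ n * (1011 * (m : ℤ) ^ 2) :=
          mul_le_mul_of_nonneg_left h5 (by linarith)
        have : (n : ℤ) * (1011 * (m : ℤ) ^ 2 + 1) ≤ n * n :=
          mul_le_mul_of_nonneg_left (by linarith) (by linarith)
        nlinarith
    · simp only [PW, P]
      rw [abs_mul, abs_of_nonneg (by linarith : (0 : ℤ) ≤ n)]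
      have : (n : ℤ) * |(bo m).py x| ≤ n * n :=
        mul_le_mul_of_nonneg_left (by linarith) (by linarith)
      nlinarith
  · have h3 : (t : ℤ) < K := by exact_mod_cast ht
    have h4 : (K : ℤ) ≤ n := by exact_mod_cast hK
    constructor
    · simp only [PW]
      rw [abs_le]
      constructor <;> nlinarith
    · simp only [PW]
      rw [abs_zero]
      positivity

theorem DW_tri (u v w : Nd ⊕ ℕ) : DW m L a u w ≤ DW m L a u v + DW m L a v w := eucl_tri _ _ _

theorem DW_nonneg (u v : Nd ⊕ ℕ) : 0 ≤ DW m L a u v := eucl_nonneg _ _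

theorem eucl_hor (x y : ℤ) (h : x ≤ y) : eucl (x, 0) (y, 0) = y - x := by
  rw [eucl_eq]
  have h' : (x : ℝ) ≤ y := by exact_mod_cast h
  rw [show ((y : ℝ) - x) ^ 2 + (((0 : ℤ) : ℝ) - ((0 : ℤ) : ℝ)) ^ 2 = ((y : ℝ) - x) ^ 2 by
    push_cast; ring, Real.sqrt_sq (by linarith)]

theorem PW_C : PW m L a (.inl (.C 0 false)) = (-19 * L, 0) := by
  unfold PW P
  simp only [px, py]
  rw [de_zero (by simp) (by simp)]
  norm_num
  ring

theorem PW_S : PW m L a (.inl (.S 0 false)) = (-L, 0) := by
  unfold PW P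
  simp only [px, py]
  rw [de_zero (by simp) (by simp)]
  norm_num

theorem pl_extra (K : ℕ) : pl (DW m L a) (.inl (.C 0 false)) ((List.range K).map .inr)
    (.inr K) = K + 1 := by
  induction K with
  | zero =>
    simp only [List.range_zero, List.map_nil, pl]
    unfold DW
    rw [PW_C]
    unfold PW
    rw [eucl_hor _ _ (by push_cast; omega)]
    push_cast; ring
  | succ K ih =>
    rw [List.range_succ, List.map_append, List.map_singleton, pl_append, ih]
    simp only [pl]
    unfold DW PW
    rw [eucl_hor _ _ (by push_cast; omega)]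
    push_cast; ring

theorem pl_extra' (K : ℕ) (hK : (K : ℤ) < 18 * L) :
    pl (DW m L a) (.inl (.C 0 false)) ((List.range K).map .inr) (.inl (.S 0 false)) =
      dd (bo m) L (de m a) (.C 0 false) (.S 0 false) := by
  have h1 : dd (bo m) L (de m a) (.C 0 false) (.S 0 false) = 18 * L := by
    change eucl (PW m L a (.inl (.C 0 false))) (PW m L a (.inl (.S 0 false))) = _
    rw [PW_C, PW_S, eucl_hor _ _ (by omega)]
    push_cast; ring
  rw [h1]
  cases K with
  | zero =>
    simp only [List.range_zero, List.map_nil, pl]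
    exact h1
  | succ K =>
    rw [List.range_succ, List.map_append, List.map_singleton, pl_append, pl_extra]
    simp only [pl]
    unfold DW
    rw [PW_S]
    unfold PW
    rw [eucl_hor _ _ (by push_cast at hK ⊢; omega)]
    push_cast; ring

theorem sub_left : ∀ l : List (Nd ⊕ ℕ), ((l.filterMap Sum.getLeft?).map .inl).Sublist l := by
  intro l
  induction l with
  | nil => simp
  | cons u l ih =>
    cases u with
    | inl v =>
      rw [List.filterMap_cons_some (by rfl : Sum.getLeft? (Sum.inl v) = some v), List.map_cons]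
      exact ih.cons_cons _
    | inr t =>
      rw [List.filterMap_cons_none (by rfl)]
      exact ih.cons _

theorem mem_left {l : List (Nd ⊕ ℕ)} {v : Nd} : v ∈ l.filterMap Sum.getLeft? ↔ .inl v ∈ l := by
  rw [List.mem_filterMap]
  constructor
  · rintro ⟨u, hu, h⟩
    cases u with
    | inl w => simp at h; rwa [← h]
    | inr t => simp at h
  · intro h
    exact ⟨_, h, rfl⟩

/-- the lower bound for the tours through the nodes and the additional points -/
theorem lower_W (hm : 1 ≤ m) (hL : 1000 * ((m : ℤ) * m) ≤ L) {K : ℕ} {l : List (Nd ⊕ ℕ)}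
    (hl : l.Nodup) (hv : ∀ v, v ∈ l ↔ v ∈ NW m K) : ca m a L - 2 ≤ tl (DW m L a) l := by
  have h1 : (l.filterMap Sum.getLeft?).Nodup := by
    have := hl.sublist (sub_left l)
    exact this.of_map _
  have h2 : ∀ v, v ∈ l.filterMap Sum.getLeft? ↔ (bo m).Val (ac m) v := by
    intro v
    rw [mem_left, hv, mem_NW]
    constructor
    · rintro (⟨w, hw, h⟩ | ⟨t, -, h⟩)
      · simp at h; rwa [h]
      · simp at h
    · intro h; exact Or.inl ⟨v, h, rfl⟩
  have h3 := lower (a := a) hm hL h1 h2
  have h4 := tl_sublist (d := DW m L a) DW_tri DW_nonneg (sub_left l)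
  rw [tl_map Sum.inl (DW m L a) (d := dd (bo m) L (de m a)) (fun _ _ => rfl)] at h4
  linarith

/-- the tours of the sets of bits -/
theorem upper_W (hm : 1 ≤ m) (K : ℕ) (bb : ℕ → Bool) : ∃ l : List (Nd ⊕ ℕ), l.Nodup ∧
    (∀ v, v ∈ l ↔ v ∈ NW m K) ∧
    ∀ (a : ℕ → Bool) (L : ℤ), 1 ≤ L → (K : ℤ) < 18 * L →
      tl (DW m L a) l = ca m a L -
      2 * ∑ i ∈ (Finset.range m).filter (fun i => a i = true), ind bb i +
      (e1 L + 1) * ∑ j ∈ pa m a, ind bb (j / m) * ind bb (j % m) := by
  obtain ⟨l', h1, h2, h3⟩ := upper hm bb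
  refine ⟨(Nd.S 0 false :: (l' ++ [Nd.C 0 false])).map .inl ++ (List.range K).map .inr, ?_, ?_,
    fun a L hL hK => ?_⟩
  · rw [List.nodup_append']
    refine ⟨h1.map Sum.inl_injective, (List.nodup_range).map Sum.inr_injective, ?_⟩
    intro u h1 h2
    rw [List.mem_map] at h1 h2
    obtain ⟨v, -, rfl⟩ := h1
    obtain ⟨t, -, h⟩ := h2
    simp at h
  · intro v
    rw [mem_NW, List.mem_append, List.mem_map, List.mem_map]
    constructor
    · rintro (⟨w, hw, rfl⟩ | ⟨t, ht, rfl⟩)
      · exact Or.inl ⟨w, (h2 w).1 hw, rfl⟩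
      · exact Or.inr ⟨t, List.mem_range.1 ht, rfl⟩
    · rintro (⟨w, hw, rfl⟩ | ⟨t, ht, rfl⟩)
      · exact Or.inl ⟨w, (h2 w).2 hw, rfl⟩
      · exact Or.inr ⟨t, List.mem_range.2 ht, rfl⟩
  · rw [← h3 a L hL]
    simp only [List.map_cons, List.map_append, List.map_nil, List.cons_append,
      List.append_assoc, List.nil_append, tl]
    rw [pl_append, pl_append, pl_extra' K hK,
      pl_map Sum.inl (DW m L a) (d := dd (bo m) L (de m a)) (fun _ _ => rfl)]
    rfl

end Pool.Agent.T9h88.XC
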