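import Pool.Agent.T9h88.XC.Main
import Pool.Agent.T9h88.XC.LpRobust

/-!
# Enlarged instances
-/

set_option autoImplicit false

namespace Pool.Agent.T9h88.XC

open Pool.Agent.ETSP Pool.Agent.T9h21.TB Pool.Agent.T9h21.TB.Board

variable {m : ℕ} {a : ℕ → Bool} {L q : ℤ}

/-- the enlarged position of the nodes and of the additional points -/
def PX (m : ℕ) (q L : ℤ) (a : ℕ → Bool) : Nd ⊕ ℕ → ℤ × ℤ
  | .inl v => (q * (P (bo m) L (de m a) v).1, q * (P (bo m) L (de m a) v).2)
  | .inr t => (-19 * (q * L) + t + 1, 0)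

/-- the distance of nodes or additional points -/
noncomputable def DX (m : ℕ) (q L : ℤ) (a : ℕ → Bool) (u v : Nd ⊕ ℕ) : ℝ :=
  eucl (PX m q L a u) (PX m q L a v)

theorem PX_inj {K : ℕ} (hL : 3 ≤ L) (hq : 1 ≤ q) (hK : (K : ℤ) < 18 * (q * L)) {u v : Nd ⊕ ℕ}
    (hu : u ∈ NW m K) (hv : v ∈ NW m K) (h : PX m q L a u = PX m q L a v) : u = v := by
  have key : ∀ v t, (bo m).Val (ac m) v → t < K → PX m q L a (.inl v) ≠ PX m q L a (.inr t) := by
    intro v t hv ht h
    unfold PX P at h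
    rw [Prod.mk.injEq] at h
    have h1 := h.1
    have h2 := abs_le.1 (de_bound (m := m) (a := a) v)
    have h3 : (t : ℤ) < K := by exact_mod_cast ht
    rcases px_cases (a := a) hv with ⟨g1, g2⟩ | ⟨g1, g2⟩ | g1
    · rw [g1, g2] at h1
      have : q * (L * -19 + 0) = -19 * (q * L) := by ring
      rw [this] at h1
      omega
    · rw [g1, g2] at h1
      have : q * (L * -1 + 0) = -(q * L) := by ring
      rw [this] at h1
      omega
    · simp only at h1
      have h4 : 0 ≤ L * (bo m).px v := mul_nonneg (by omega) g1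
      have h5 : q * (-1) ≤ q * (L * (bo m).px v + de m a v) :=
        mul_le_mul_of_nonneg_left (by omega) (by omega)
      have h6 : q * 3 ≤ q * L := mul_le_mul_of_nonneg_left hL (by omega)
      omega
  rw [mem_NW] at hu hv
  rcases hu with ⟨x, hx, rfl⟩ | ⟨t, ht, rfl⟩ <;> rcases hv with ⟨x', hx', rfl⟩ | ⟨t', ht', rfl⟩
  · have hK0 : ((0 : ℕ) : ℤ) < 18 * L := by push_cast; omega
    refine PW_inj (a := a) (K := 0) hL hK0 (mem_NW.2 (Or.inl ⟨x, hx, rfl⟩))
      (mem_NW.2 (Or.inl ⟨x', hx', rfl⟩)) ?_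
    unfold PX at h
    rw [Prod.mk.injEq] at h
    unfold PW
    exact Prod.ext (mul_left_cancel₀ (by omega) h.1) (mul_left_cancel₀ (by omega) h.2)
  · exact absurd h (key _ _ hx ht')
  · exact absurd h.symm (key _ _ hx' ht)
  · unfold PX at h
    rw [Prod.mk.injEq] at h
    congr 1
    omega

/-- the coordinates are small -/
theorem PX_bd {n K : ℕ} (hm : 1 ≤ m) (hn : 5000 * m ^ 3 ≤ n) (hK : K ≤ n) {u : Nd ⊕ ℕ}
    (hu : u ∈ NW m K) : |(PX m n (1000 * (m * m)) a u).1| ≤ (n : ℤ) ^ 3 ∧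
      |(PX m n (1000 * (m * m)) a u).2| ≤ (n : ℤ) ^ 3 := by
  have hn' : (5000 : ℤ) * (m : ℤ) ^ 3 ≤ n := by exact_mod_cast hn
  have hm' : (1 : ℤ) ≤ m := by exact_mod_cast hm
  have hm2 : (1 : ℤ) ≤ (m : ℤ) ^ 2 := by nlinarith
  have hm3 : (m : ℤ) ^ 2 ≤ (m : ℤ) ^ 3 := by nlinarith
  have hm4 : (m : ℤ) ≤ (m : ℤ) ^ 2 := by nlinarith
  have hn0 : (5000 : ℤ) ≤ n := by linarith
  have h5m : (5000 : ℤ) * (m : ℤ) ^ 2 ≤ n := by linarith
  have hm44 : 25000000 * ((m : ℤ) ^ 2 * (m : ℤ) ^ 2) ≤ (n : ℤ) * n := by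
    have := mul_le_mul h5m h5m (by positivity) (by linarith)
    nlinarith
  have hnn : (n : ℤ) * n ≤ (n : ℤ) * (n * n) := by nlinarith
  have h3 : (n : ℤ) ^ 3 = n * (n * n) := by ring
  rw [mem_NW] at hu
  rcases hu with ⟨x, hx, rfl⟩ | ⟨t, ht, rfl⟩
  · have h1 := px_le hx
    have h2 := py_bd hx
    have h3' := de_bound (m := m) (a := a) x
    have h4 : -19 ≤ (bo m).px x := by
      rcases px_cases (a := a) hx with ⟨g1, -⟩ | ⟨g1, -⟩ | g1 <;> omega
    have hM : ((bo m).M : ℤ) = 9 * (m : ℤ) ^ 2 + 6 := by rw [bo_M]; push_cast; ring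
    rw [hM] at h1
    have h5 : |(bo m).px x| ≤ 1011 * (m : ℤ) ^ 2 := by
      rw [abs_le]; constructor <;> linarith
    have h6 : |(bo m).py x| ≤ 1011 * (m : ℤ) ^ 2 := by linarith
    have hpos : (0 : ℤ) ≤ 1000 * (m * m) := by positivity
    constructor
    · simp only [PX, P]
      rw [abs_mul, abs_of_nonneg (by linarith : (0 : ℤ) ≤ n), h3]
      refine mul_le_mul_of_nonneg_left ?_ (by linarith)
      refine (abs_add_le _ _).trans ?_
      rw [abs_mul, abs_of_nonneg hpos]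
      have h7 : (1000 * ((m : ℤ) * m)) * |(bo m).px x| ≤ (1000 * ((m : ℤ) * m)) * (1011 * (m : ℤ) ^ 2) :=
        mul_le_mul_of_nonneg_left h5 hpos
      nlinarith
    · simp only [PX, P]
      rw [abs_mul, abs_of_nonneg (by linarith : (0 : ℤ) ≤ n), h3]
      refine mul_le_mul_of_nonneg_left ?_ (by linarith)
      rw [abs_mul, abs_of_nonneg hpos]
      have h7 : (1000 * ((m : ℤ) * m)) * |(bo m).py x| ≤ (1000 * ((m : ℤ) * m)) * (1011 * (m : ℤ) ^ 2) :=
        mul_le_mul_of_nonneg_left h6 hpos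
      nlinarith
  · have h3' : (t : ℤ) < K := by exact_mod_cast ht
    have h4 : (K : ℤ) ≤ n := by exact_mod_cast hK
    constructor
    · simp only [PX]
      rw [abs_le, h3]
      have h5 : (n : ℤ) * (1000 * ((m : ℤ) * m)) ≤ n * n :=
        mul_le_mul_of_nonneg_left (by nlinarith) (by linarith)
      have h6 : (0 : ℤ) ≤ n * (1000 * ((m : ℤ) * m)) := by positivity
      have h7 : 5000 * ((n : ℤ) * n) ≤ n * (n * n) := by nlinarith
      constructor <;> nlinarith
    · simp only [PX]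
      rw [abs_zero]
      positivity

theorem DX_tri (u v w : Nd ⊕ ℕ) : DX m q L a u w ≤ DX m q L a u v + DX m q L a v w :=
  eucl_tri _ _ _

theorem DX_nonneg (u v : Nd ⊕ ℕ) : 0 ≤ DX m q L a u v := eucl_nonneg _ _

theorem DX_inl (hq : 0 ≤ q) (v w : Nd) :
    DX m q L a (.inl v) (.inl w) = q * dd (bo m) L (de m a) v w := by
  have hq' : (0 : ℝ) ≤ q := by exact_mod_cast hq
  unfold DX dd PX
  rw [eucl_eq, eucl_eq]
  simp only [Int.cast_mul]
  generalize P (bo m) L (de m a) v = x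
  generalize P (bo m) L (de m a) w = y
  rw [show ((q : ℝ) * y.1 - q * x.1) ^ 2 + ((q : ℝ) * y.2 - q * x.2) ^ 2 =
    q ^ 2 * (((y.1 : ℝ) - x.1) ^ 2 + ((y.2 : ℝ) - x.2) ^ 2) by ring,
    Real.sqrt_mul (by positivity), Real.sqrt_sq hq']

theorem pl_mul (d : Nd → Nd → ℝ) (c : ℝ) (l : List Nd) : ∀ a b,
    pl (fun v w => c * d v w) a l b = c * pl d a l b := by
  induction l with
  | nil => intro a b; simp [pl]
  | cons x l ih => intro a b; simp only [pl, ih]; ring

theorem tl_mul (d : Nd → Nd → ℝ) (c : ℝ) (l : List Nd) :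
    tl (fun v w => c * d v w) l = c * tl d l := by
  cases l with
  | nil => simp [tl]
  | cons x l => simp only [tl]; exact pl_mul d c l x x

theorem PX_C : PX m q L a (.inl (.C 0 false)) = (-19 * (q * L), 0) := by
  unfold PX P
  simp only [px, py]
  rw [de_zero (by simp) (by simp)]
  norm_num
  ring

theorem PX_S : PX m q L a (.inl (.S 0 false)) = (-(q * L), 0) := by
  unfold PX P
  simp only [px, py]
  rw [de_zero (by simp) (by simp)]
  norm_num

theorem pl_extraX (hqL : 0 ≤ q * L) (K : ℕ) :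
    pl (DX m q L a) (.inl (.C 0 false)) ((List.range K).map .inr) (.inr K) = K + 1 := by
  induction K with
  | zero =>
    simp only [List.range_zero, List.map_nil, pl]
    unfold DX
    rw [PX_C]
    unfold PX
    rw [eucl_hor _ _ (by push_cast; omega)]
    push_cast; ring
  | succ K ih =>
    rw [List.range_succ, List.map_append, List.map_singleton, pl_append, ih]
    simp only [pl]
    unfold DX PX
    rw [eucl_hor _ _ (by push_cast; omega)]
    push_cast; ring

theorem pl_extraX' (hqL : 0 ≤ q * L) (K : ℕ) (hK : (K : ℤ) < 18 * (q * L)) :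
    pl (DX m q L a) (.inl (.C 0 false)) ((List.range K).map .inr) (.inl (.S 0 false)) =
      DX m q L a (.inl (.C 0 false)) (.inl (.S 0 false)) := by
  have h1 : DX m q L a (.inl (.C 0 false)) (.inl (.S 0 false)) = 18 * (q * L) := by
    unfold DX
    rw [PX_C, PX_S, eucl_hor _ _ (by omega)]
    push_cast; ring
  rw [h1]
  cases K with
  | zero =>
    simp only [List.range_zero, List.map_nil, pl]
    exact h1
  | succ K =>
    rw [List.range_succ, List.map_append, List.map_singleton, pl_append, pl_extraX hqL]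
    simp only [pl]
    unfold DX
    rw [PX_S]
    unfold PX
    rw [eucl_hor _ _ (by push_cast at hK ⊢; omega)]
    push_cast; ring

/-- the lower bound for the tours through the nodes and the additional points -/
theorem lower_X (hm : 1 ≤ m) (hL : 1000 * ((m : ℤ) * m) ≤ L) (hq : 0 ≤ q) {K : ℕ}
    {l : List (Nd ⊕ ℕ)} (hl : l.Nodup) (hv : ∀ v, v ∈ l ↔ v ∈ NW m K) :
    q * (ca m a L - 2) ≤ tl (DX m q L a) l := by
  have h1 : (l.filterMap Sum.getLeft?).Nodup := by
    have := hl.sublist (sub_left l)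
    exact this.of_map _
  have h2 : ∀ v, v ∈ l.filterMap Sum.getLeft? ↔ (bo m).Val (ac m) v := by
    intro v
    rw [mem_left, hv, mem_NW]
    constructor
    · rintro (⟨w, hw, h⟩ | ⟨t, -, h⟩)
      · simp at h; rwa [h]
      · simp at h
    · intro h; exact Or.inl ⟨v, h, rfl⟩
  have hq' : (0 : ℝ) ≤ q := by exact_mod_cast hq
  have h3 := mul_le_mul_of_nonneg_left (lower (a := a) hm hL h1 h2) hq'
  have h4 := tl_sublist (d := DX m q L a) DX_tri DX_nonneg (sub_left l)
  rw [tl_map Sum.inl (DX m q L a) (d := fun v w => (q : ℝ) * dd (bo m) L (de m a) v w)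
    (fun v w => DX_inl hq v w), tl_mul] at h4
  linarith

/-- the tours of the sets of bits -/
theorem upper_X (hm : 1 ≤ m) (K : ℕ) (bb : ℕ → Bool) : ∃ l : List (Nd ⊕ ℕ), l.Nodup ∧
    (∀ v, v ∈ l ↔ v ∈ NW m K) ∧
    ∀ (a : ℕ → Bool) (q L : ℤ), 1 ≤ L → 0 ≤ q → (K : ℤ) < 18 * (q * L) →
      tl (DX m q L a) l = q * (ca m a L -
      2 * ∑ i ∈ (Finset.range m).filter (fun i => a i = true), ind bb i +
      (e1 L + 1) * ∑ j ∈ pa m a, ind bb (j / m) * ind bb (j % m)) := by
  obtain ⟨l', h1, h2, h3⟩ := upper hm bb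
  refine ⟨(Nd.S 0 false :: (l' ++ [Nd.C 0 false])).map .inl ++ (List.range K).map .inr, ?_, ?_,
    fun a q L hL hq hK => ?_⟩
  · rw [List.nodup_append']
    refine ⟨h1.map Sum.inl_injective, (List.nodup_range).map Sum.inr_injective, ?_⟩
    intro u h1 h2
    rw [List.mem_map] at h1 h2
    obtain ⟨v, -, rfl⟩ := h1
    obtain ⟨t, -, h⟩ := h2
    simp at h
  · intro v
    rw [mem_NW, List.mem_append, List.mem_map, List.mem_map]
    constructor
    · rintro (⟨w, hw, rfl⟩ | ⟨t, ht, rfl⟩)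
      · exact Or.inl ⟨w, (h2 w).1 hw, rfl⟩
      · exact Or.inr ⟨t, List.mem_range.1 ht, rfl⟩
    · rintro (⟨w, hw, rfl⟩ | ⟨t, ht, rfl⟩)
      · exact Or.inl ⟨w, (h2 w).2 hw, rfl⟩
      · exact Or.inr ⟨t, List.mem_range.2 ht, rfl⟩
  · rw [← h3 a L hL, ← tl_mul, ← tl_map Sum.inl (DX m q L a)
      (d := fun v w => (q : ℝ) * dd (bo m) L (de m a) v w) (fun v w => DX_inl hq v w)]
    simp only [List.map_cons, List.map_append, List.map_nil, List.cons_append,
      List.append_assoc, List.nil_append, tl]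
    rw [pl_append, pl_append, pl_extraX' (mul_nonneg hq (by omega)) K hK]
    rfl

end Pool.Agent.T9h88.XC
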