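import Pool.Agent.T9h88.XC.Corr2
import Pool.Agent.H575R2.Farkas

/-!
# Nonnegative factorisations that nearly vanish on the pairs that meet in one element
-/

set_option autoImplicit false

namespace Pool.Agent.T9h88.XC

open Finset

variable {m : ℕ}

theorem WW_eq (u v : Finset (Fin m) → ℝ) : WW u v = ∑ T : Finset (Fin m), ∑ i ∈ T,
    ∑ a ∈ (T.erase i).powerset, ∑ b ∈ (Tᶜ).powerset, u (insert i a) * v (insert i b) := by
  unfold WW
  refine sum_congr rfl fun T _ => sum_congr rfl fun i hi => ?_
  have h1 : Us v (T.erase i)ᶜ - Us v Tᶜ = ∑ b ∈ (Tᶜ).powerset, v (insert i b) := by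
    have h2 : i ∈ (T.erase i)ᶜ := by simp
    have h3 := Us_insert v h2
    rwa [compl_erase' hi] at h3
  rw [Us_insert u hi, h1, sum_mul_sum]

theorem DD_eq (u v : Finset (Fin m) → ℝ) : DD u v = ∑ T : Finset (Fin m),
    ∑ a ∈ T.powerset, ∑ b ∈ (Tᶜ).powerset, u a * v b := by
  unfold DD Us
  refine sum_congr rfl fun T _ => ?_
  rw [sum_mul_sum]

theorem pow_compl (T : Finset (Fin m)) : (2 : ℝ) ^ T.card * 2 ^ (Tᶜ).card = 2 ^ m := by
  rw [← pow_add, card_add_card_compl, Fintype.card_fin]

/-- The number of terms of a nonnegative factorisation. -/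
theorem robust {ι : Type*} [Fintype ι] (u v : ι → Finset (Fin m) → ℝ) (hu : ∀ r a, 0 ≤ u r a)
    (hv : ∀ r b, 0 ≤ v r b) {K ε g : ℝ} (hε : 0 ≤ ε)
    (hK : ∀ a b, ∑ r, u r a * v r b ≤ K)
    (h1 : ∀ a b i, a ∩ b = {i} → ∑ r, u r a * v r b ≤ ε)
    (h0 : ∀ a b, a ∩ b = ∅ → g ≤ ∑ r, u r a * v r b) (hm : 1 ≤ m) {k : ℕ} (hk : 40 * k ≤ m) :
    g ≤ 48 * ε + 20 * Fintype.card ι * K * Real.exp (-(c0 * k)) := by
  classical
  set R := Fintype.card ι with hR
  set E := Real.exp (-(c0 * k)) with hE
  have hE0 : 0 < E := Real.exp_pos _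
  have hK0 : 0 ≤ K := le_trans (sum_nonneg fun r _ => mul_nonneg (hu r ∅) (hv r ∅)) (hK ∅ ∅)
  have hm0 : (0 : ℝ) < m := by exact_mod_cast hm
  have h4 : (0 : ℝ) < 4 ^ m := by positivity
  have hone : ∀ r, m * DD (u r) (v r) ≤ 48 * WW (u r) (v r) + 20 * m * 4 ^ m * (K * E) := by
    intro r
    obtain ⟨a0, ha0⟩ := Finite.exists_max (u r)
    obtain ⟨b0, hb0⟩ := Finite.exists_max (v r)
    have hW0 : 0 ≤ WW (u r) (v r) := by
      rw [WW_eq]
      exact sum_nonneg fun T _ => sum_nonneg fun i _ => sum_nonneg fun a _ => sum_nonneg fun b _ =>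
        mul_nonneg (hu _ _) (hv _ _)
    have hrest : 0 ≤ 48 * WW (u r) (v r) + 20 * m * 4 ^ m * (K * E) := by positivity
    rcases (hu r a0).eq_or_lt with hz | hα
    · have : DD (u r) (v r) = 0 := by
        rw [DD_eq]
        refine sum_eq_zero fun T _ => sum_eq_zero fun a _ => sum_eq_zero fun b _ => ?_
        have : u r a = 0 := le_antisymm (by rw [hz]; exact ha0 a) (hu r a)
        rw [this, zero_mul]
      rw [this, mul_zero]; exact hrest
    rcases (hv r b0).eq_or_lt with hz | hβ
    · have : DD (u r) (v r) = 0 := by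
        rw [DD_eq]
        refine sum_eq_zero fun T _ => sum_eq_zero fun a _ => sum_eq_zero fun b _ => ?_
        have : v r b = 0 := le_antisymm (by rw [hz]; exact hb0 b) (hv r b)
        rw [this, mul_zero]
      rw [this, mul_zero]; exact hrest
    have h2 := corr hα hβ (hu r) ha0 (hv r) hb0 hm hk
    have h3 : u r a0 * v r b0 ≤ K :=
      (single_le_sum (f := fun r => u r a0 * v r b0) (fun r _ => mul_nonneg (hu r a0) (hv r b0))
        (mem_univ r)).trans (hK a0 b0)
    rw [← hE] at h2
    have h5 : 20 * (m : ℝ) * 4 ^ m * (u r a0 * v r b0 * E) ≤ 20 * m * 4 ^ m * (K * E) := by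
      gcongr
    linarith
  have hsum : m * ∑ r, DD (u r) (v r) ≤ 48 * ∑ r, WW (u r) (v r) +
      R * (20 * m * 4 ^ m * (K * E)) := by
    rw [mul_sum, mul_sum]
    have := sum_le_sum fun r (_ : r ∈ univ) => hone r
    rwa [sum_add_distrib, sum_const, card_univ, nsmul_eq_mul] at this
  have hD : g * 4 ^ m ≤ ∑ r, DD (u r) (v r) := by
    simp only [DD_eq]
    rw [sum_comm]
    have h2 : ∀ T : Finset (Fin m), g * 2 ^ m ≤ ∑ r, ∑ a ∈ T.powerset, ∑ b ∈ (Tᶜ).powerset,
        u r a * v r b := by
      intro T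
      rw [sum_comm]
      have h3 : ∀ a ∈ T.powerset, g * 2 ^ (Tᶜ).card ≤ ∑ r, ∑ b ∈ (Tᶜ).powerset, u r a * v r b := by
        intro a ha
        rw [sum_comm]
        have h5 : ∀ b ∈ (Tᶜ).powerset, g ≤ ∑ r, u r a * v r b := by
          intro b hb
          refine h0 a b ?_
          rw [mem_powerset] at ha hb
          rw [← disjoint_iff_inter_eq_empty]
          exact disjoint_of_subset_left ha (disjoint_of_subset_right hb disjoint_compl_right)
        have h6 := sum_le_sum h5
        rw [sum_const, card_powerset, nsmul_eq_mul] at h6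
        push_cast at h6
        linarith
      have h6 := sum_le_sum h3
      rw [sum_const, card_powerset, nsmul_eq_mul] at h6
      push_cast at h6
      have h7 := pow_compl T
      calc g * 2 ^ m = 2 ^ T.card * (g * 2 ^ (Tᶜ).card) := by rw [← h7]; ring
        _ ≤ _ := h6
    have h3 := sum_le_sum fun T (_ : T ∈ univ) => h2 T
    rw [sum_const, card_univ, Fintype.card_finset, Fintype.card_fin, nsmul_eq_mul] at h3
    push_cast at h3
    have h7 : (4 : ℝ) ^ m = 2 ^ m * 2 ^ m := by rw [← mul_pow]; norm_num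
    calc g * 4 ^ m = 2 ^ m * (g * 2 ^ m) := by rw [h7]; ring
      _ ≤ _ := h3
  have hWs : ∑ r, WW (u r) (v r) ≤ ε * (m * 4 ^ m) := by
    simp only [WW_eq]
    rw [sum_comm]
    have h2 : ∀ T : Finset (Fin m), ∑ r, ∑ i ∈ T, ∑ a ∈ (T.erase i).powerset,
        ∑ b ∈ (Tᶜ).powerset, u r (insert i a) * v r (insert i b) ≤ m * (ε * 2 ^ m) := by
      intro T
      rw [sum_comm]
      have h3 : ∀ i ∈ T, ∑ r, ∑ a ∈ (T.erase i).powerset,
          ∑ b ∈ (Tᶜ).powerset, u r (insert i a) * v r (insert i b) ≤ ε * 2 ^ m := by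
        intro i hi
        rw [sum_comm]
        have h5 : ∀ a ∈ (T.erase i).powerset, ∑ r, ∑ b ∈ (Tᶜ).powerset,
            u r (insert i a) * v r (insert i b) ≤ ε * 2 ^ (Tᶜ).card := by
          intro a ha
          rw [sum_comm]
          have h6 : ∀ b ∈ (Tᶜ).powerset, ∑ r, u r (insert i a) * v r (insert i b) ≤ ε := by
            intro b hb
            refine h1 _ _ i ?_
            rw [mem_powerset] at ha hb
            ext j
            rw [mem_inter, mem_insert, mem_insert, mem_singleton]
            constructor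
            · rintro ⟨h7 | h7, h8 | h8⟩
              · exact h7
              · exact h7
              · exact h8
              · have h9 := mem_of_mem_erase (ha h7)
                have h10 := hb h8
                rw [mem_compl] at h10
                exact absurd h9 h10
            · intro h; exact ⟨Or.inl h, Or.inl h⟩
          have h7 := sum_le_sum h6
          rw [sum_const, card_powerset, nsmul_eq_mul] at h7
          push_cast at h7
          linarith
        have h7 := sum_le_sum h5
        rw [sum_const, card_powerset, nsmul_eq_mul] at h7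
        push_cast at h7
        refine h7.trans ?_
        rw [← pow_compl T]
        have h8 : (2 : ℝ) ^ (T.erase i).card ≤ 2 ^ T.card :=
          pow_le_pow_right₀ (by norm_num) (card_le_card (erase_subset _ _))
        have h9 : 0 ≤ ε * 2 ^ (Tᶜ).card := by positivity
        nlinarith
      have h7 := sum_le_sum h3
      rw [sum_const, nsmul_eq_mul] at h7
      refine h7.trans ?_
      have h8 : (T.card : ℝ) ≤ m := by
        have := card_le_card (subset_univ T)
        rw [card_univ, Fintype.card_fin] at this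
        exact_mod_cast this
      exact mul_le_mul_of_nonneg_right h8 (by positivity)
    have h3 := sum_le_sum fun T (_ : T ∈ univ) => h2 T
    rw [sum_const, card_univ, Fintype.card_finset, Fintype.card_fin, nsmul_eq_mul] at h3
    push_cast at h3
    have h7 : (4 : ℝ) ^ m = 2 ^ m * 2 ^ m := by rw [← mul_pow]; norm_num
    calc _ ≤ _ := h3
      _ = ε * (m * 4 ^ m) := by rw [h7]; ring
  have hfin : (m * 4 ^ m : ℝ) * g ≤ (m * 4 ^ m) * (48 * ε + 20 * R * K * E) := by
    have h2 := mul_le_mul_of_nonneg_left hD hm0.le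
    calc (m * 4 ^ m : ℝ) * g = m * (g * 4 ^ m) := by ring
      _ ≤ m * ∑ r, DD (u r) (v r) := h2
      _ ≤ 48 * ∑ r, WW (u r) (v r) + R * (20 * m * 4 ^ m * (K * E)) := hsum
      _ ≤ 48 * (ε * (m * 4 ^ m)) + R * (20 * m * 4 ^ m * (K * E)) := by linarith
      _ = _ := by ring
  exact le_of_mul_le_mul_left hfin (by positivity)

end Pool.Agent.T9h88.XC
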