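import Mathlib

/-!
# Covering the disjoint pairs by rectangles without pairs that meet in one element
-/

set_option autoImplicit false

namespace Pool.Agent.T9h88.XC

open Finset

/-- the two sets are disjoint -/
def Dj {m : ℕ} (a b : Fin m → Bool) : Prop := ∀ i, ¬ (a i = true ∧ b i = true)

/-- the two sets have exactly one common element -/
def One {m : ℕ} (a b : Fin m → Bool) : Prop :=
  ∃ i, (a i = true ∧ b i = true) ∧ ∀ j, a j = true ∧ b j = true → j = i

open Classical in
/-- the number of disjoint pairs in a rectangle -/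
noncomputable def cnt {m : ℕ} (A B : (Fin m → Bool) → Prop) : ℕ :=
  ∑ a : Fin m → Bool, ∑ b : Fin m → Bool, if A a ∧ B b ∧ Dj a b then 1 else 0

theorem sum_cons {m : ℕ} (f : (Fin (m + 1) → Bool) → ℕ) :
    ∑ a, f a = ∑ a : Fin m → Bool, (f (Fin.cons false a) + f (Fin.cons true a)) := by
  have h := Fintype.sum_equiv (Fin.consEquiv fun _ : Fin (m + 1) => Bool).symm f
    (fun x => f (Fin.cons x.1 x.2)) (fun a => by simp [Fin.consEquiv])
  rw [h, Fintype.sum_prod_type]
  simp only [Fintype.sum_bool]
  rw [← sum_add_distrib]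
  refine sum_congr rfl fun a _ => add_comm _ _

theorem dj_cons {m : ℕ} (x y : Bool) (a b : Fin m → Bool) :
    Dj (Fin.cons x a : Fin (m + 1) → Bool) (Fin.cons y b) ↔ ¬ (x = true ∧ y = true) ∧ Dj a b := by
  unfold Dj
  constructor
  · intro h
    exact ⟨by simpa using h 0, fun i => by simpa using h i.succ⟩
  · rintro ⟨h0, h⟩ i
    refine Fin.cases ?_ (fun i => ?_) i
    · simpa using h0
    · simpa using h i

/-- Kaibel and Weltge: a rectangle without pairs that meet in one element contains at most `2 ^ m`
disjoint pairs. -/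
theorem kw (m : ℕ) : ∀ A B : (Fin m → Bool) → Prop, (∀ a b, A a → B b → ¬ One a b) →
    cnt A B ≤ 2 ^ m := by
  classical
  induction m with
  | zero =>
    intro A B _
    unfold cnt
    refine (sum_le_sum fun a _ => sum_le_sum fun b _ =>
      (show (if A a ∧ B b ∧ Dj a b then 1 else 0) ≤ 1 by split_ifs <;> norm_num)).trans ?_
    simp
  | succ m ih =>
    intro A B hAB
    set A0 : (Fin m → Bool) → Prop := fun a => A (Fin.cons false a) with hA0
    set A1 : (Fin m → Bool) → Prop := fun a => A (Fin.cons true a) with hA1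
    set B0 : (Fin m → Bool) → Prop := fun a => B (Fin.cons false a) with hB0
    set B1 : (Fin m → Bool) → Prop := fun a => B (Fin.cons true a) with hB1
    have one_cons : ∀ (x y : Bool) (a b : Fin m → Bool), ¬ (x = true ∧ y = true) → One a b →
        One (Fin.cons x a : Fin (m + 1) → Bool) (Fin.cons y b) := by
      rintro x y a b hxy ⟨i, hi, hu⟩
      refine ⟨i.succ, by simpa using hi, fun j => ?_⟩
      refine Fin.cases ?_ (fun j => ?_) j
      · intro h; exact absurd (by simpa using h) hxy
      · intro h; rw [hu j (by simpa using h)]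
    have one_new : ∀ a b : Fin m → Bool, Dj a b →
        One (Fin.cons true a : Fin (m + 1) → Bool) (Fin.cons true b) := by
      intro a b hd
      refine ⟨0, by simp, fun j => ?_⟩
      refine Fin.cases ?_ (fun j => ?_) j
      · intro _; rfl
      · intro h; exact absurd (by simpa using h) (hd j)
    have h1 := ih (fun a => A0 a ∨ A1 a) B0 (by
      rintro a b (ha | ha) hb hone
      · exact hAB _ _ ha hb (one_cons _ _ a b (by simp) hone)
      · exact hAB _ _ ha hb (one_cons _ _ a b (by simp) hone))
    have h2 := ih A0 (fun b => B0 b ∨ B1 b) (by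
      rintro a b ha (hb | hb) hone
      · exact hAB _ _ ha hb (one_cons _ _ a b (by simp) hone)
      · exact hAB _ _ ha hb (one_cons _ _ a b (by simp) hone))
    have h3 : cnt A B ≤ cnt (fun a => A0 a ∨ A1 a) B0 + cnt A0 (fun b => B0 b ∨ B1 b) := by
      unfold cnt
      rw [sum_cons, ← sum_add_distrib]
      refine sum_le_sum fun a _ => ?_
      rw [sum_cons, sum_cons, ← sum_add_distrib, ← sum_add_distrib]
      refine sum_le_sum fun b _ => ?_
      simp only [dj_cons]
      have h4 : A1 a → B1 b → ¬ Dj a b := fun h5 h6 h7 => hAB _ _ h5 h6 (one_new a b h7)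
      change (if A0 a ∧ B0 b ∧ _ ∧ Dj a b then 1 else 0) +
        (if A0 a ∧ B1 b ∧ _ ∧ Dj a b then 1 else 0) +
        ((if A1 a ∧ B0 b ∧ _ ∧ Dj a b then 1 else 0) +
          (if A1 a ∧ B1 b ∧ _ ∧ Dj a b then 1 else 0)) ≤ _
      by_cases c0 : A0 a <;> by_cases c1 : A1 a <;> by_cases d0 : B0 b <;>
        by_cases d1 : B1 b <;> by_cases e : Dj a b <;> simp [c0, c1, d0, d1, e] <;>
        exact absurd e (h4 c1 d1)
    rw [pow_succ]
    omega

theorem cnt_top (m : ℕ) : cnt (fun _ : Fin m → Bool => True) (fun _ => True) = 3 ^ m := by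
  classical
  induction m with
  | zero =>
    unfold cnt
    have : ∀ a b : Fin 0 → Bool, Dj a b := fun a b i => i.elim0
    simp [this]
  | succ m ih =>
    have h : cnt (fun _ : Fin (m + 1) → Bool => True) (fun _ => True) =
        3 * cnt (fun _ : Fin m → Bool => True) (fun _ => True) := by
      unfold cnt
      rw [sum_cons, mul_sum]
      refine sum_congr rfl fun a _ => ?_
      rw [sum_cons, sum_cons, ← sum_add_distrib, mul_sum]
      refine sum_congr rfl fun b _ => ?_
      simp only [dj_cons]
      by_cases e : Dj a b <;> simp [e]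
    rw [h, ih, pow_succ]; ring

/-- Rectangles without pairs that meet in one element that cover all disjoint pairs `(a, b)` with
`a` nonempty are many. -/
theorem rect {m : ℕ} {ι : Type*} [Fintype ι] (A B : ι → (Fin m → Bool) → Prop)
    (h1 : ∀ i a b, A i a → B i b → ¬ One a b)
    (h0 : ∀ a b, (∃ i, a i = true) → Dj a b → ∃ i, A i a ∧ B i b) :
    3 ^ m ≤ (Fintype.card ι + 1) * 2 ^ m := by
  classical
  rw [← cnt_top m]
  have h2 : cnt (fun _ : Fin m → Bool => True) (fun _ => True) ≤
      cnt (fun a : Fin m → Bool => ∀ i, a i = false) (fun _ => True) + ∑ i, cnt (A i) (B i) := by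
    unfold cnt
    rw [sum_comm (s := (univ : Finset ι)), ← sum_add_distrib]
    refine sum_le_sum fun a _ => ?_
    rw [sum_comm (s := (univ : Finset ι)), ← sum_add_distrib]
    refine sum_le_sum fun b _ => ?_
    by_cases e : Dj a b
    · by_cases ha : ∀ i, a i = false
      · simp [e, ha]
      · push Not at ha
        obtain ⟨i, hi⟩ := ha
        obtain ⟨j, hj1, hj2⟩ := h0 a b ⟨i, by simpa using hi⟩ e
        have : (if A j a ∧ B j b ∧ Dj a b then 1 else 0) ≤
            ∑ i, if A i a ∧ B i b ∧ Dj a b then 1 else 0 :=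
          single_le_sum (f := fun i => if A i a ∧ B i b ∧ Dj a b then 1 else 0)
            (fun _ _ => Nat.zero_le _) (mem_univ j)
        simp only [hj1, hj2, e, and_self, if_true] at this ⊢
        omega
    · simp [e]
  have h3 : cnt (fun a : Fin m → Bool => ∀ i, a i = false) (fun _ => True) ≤ 2 ^ m := by
    refine kw m _ _ ?_
    rintro a b ha - ⟨i, hi, -⟩
    rw [ha i] at hi
    simp at hi
  have h4 : ∑ i, cnt (A i) (B i) ≤ Fintype.card ι * 2 ^ m := by
    refine (sum_le_sum fun i _ => kw m (A i) (B i) (h1 i)).trans ?_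
    simp
  calc _ ≤ _ := h2
    _ ≤ 2 ^ m + Fintype.card ι * 2 ^ m := by omega
    _ = (Fintype.card ι + 1) * 2 ^ m := by ring

end Pool.Agent.T9h88.XC
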