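import Pool.Agent.T9h88.XC.Lower
import Pool.Agent.T9h21.TB.TourC

/-!
# The tour of a set of bits
-/

set_option autoImplicit false

namespace Pool.Agent.T9h88.XC

open Pool.Agent.ETSP Pool.Agent.T9h21.TB Pool.Agent.T9h21.TB.Board

section

variable {V : Type}

/-- a closed walk through all nodes can be oriented so that a given neighbour comes last -/
theorem orient (G : SimpleGraph V) {v0 c0 : V} {l : List V} (hnd : (v0 :: l).Nodup)
    (hch : (v0 :: (l ++ [v0])).IsChain G.Adj) (h2 : (G.neighborSet v0).ncard = 2)
    (hc : G.Adj v0 c0) (hl : 2 ≤ l.length) :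
    ∃ l', (l' ++ [c0]).Perm l ∧ (v0 :: ((l' ++ [c0]) ++ [v0])).IsChain G.Adj := by
  classical
  obtain ⟨x, l1, rfl⟩ : ∃ x l1, l = x :: l1 := by
    cases l with
    | nil => simp at hl
    | cons x l1 => exact ⟨x, l1, rfl⟩
  have hne : x :: l1 ≠ [] := by simp
  obtain ⟨l2, y, hy⟩ : ∃ l2 y, x :: l1 = l2 ++ [y] :=
    ⟨_, _, (List.dropLast_append_getLast hne).symm⟩
  have hx : G.Adj v0 x := by
    rw [List.cons_append, List.isChain_cons_cons] at hch
    exact hch.1
  have hy1 : G.Adj y v0 := by
    have h3 := hch
    rw [hy, List.append_assoc, ← List.cons_append] at h3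
    have h4 := h3.right_of_append
    simp only [List.cons_append, List.nil_append, List.isChain_cons_cons] at h4
    exact h4.1
  have hxy : x ≠ y := by
    intro h
    subst h
    have h3 : (x :: l1).Nodup := (List.nodup_cons.1 hnd).2
    cases l2 with
    | nil =>
      rw [List.nil_append] at hy
      rw [hy] at hl
      simp at hl
    | cons z l3 =>
      rw [List.cons_append, List.cons.injEq] at hy
      rw [List.nodup_cons, hy.2] at h3
      exact h3.1 (by simp)
  have hfin : (G.neighborSet v0).Finite := Set.finite_of_ncard_ne_zero (by omega)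
  have hset : ({x, y} : Set V) = G.neighborSet v0 := by
    refine Set.eq_of_subset_of_ncard_le ?_ ?_ hfin
    · rintro w (rfl | rfl)
      · exact hx
      · exact hy1.symm
    · rw [h2, Set.ncard_pair hxy]
  have hc' : c0 ∈ ({x, y} : Set V) := by rw [hset]; exact hc
  rcases hc' with rfl | rfl
  · refine ⟨l1.reverse, ?_, ?_⟩
    · rw [← List.reverse_cons]; exact List.reverse_perm _
    · have h3 : v0 :: ((l1.reverse ++ [c0]) ++ [v0]) = (v0 :: ((c0 :: l1) ++ [v0])).reverse := by
        simp
      rw [h3, List.isChain_reverse]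
      exact hch.imp fun _ _ h => h.symm
  · exact ⟨l2, by rw [hy], by rw [← hy]; exact hch⟩

theorem chain_formPerm [DecidableEq V] {R : V → V → Prop} {a : V} {l' : List V}
    (hl : (a :: l').Nodup) (hch2 : (a :: (l' ++ [a])).IsChain R) :
    ∀ v ∈ a :: l', R v ((a :: l').formPerm v) := by
  intro v hv
  obtain ⟨i, hi, rfl⟩ := List.getElem_of_mem hv
  rw [List.formPerm_apply_getElem _ hl]
  rw [List.isChain_iff_getElem] at hch2
  have h4 := hch2 i (by simp at hi ⊢; omega)
  have e1 : (a :: (l' ++ [a]))[i]'(by simp at hi ⊢; omega) = (a :: l')[i] := by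
    change ((a :: l') ++ [a])[i]'(by simp at hi ⊢; omega) = _
    rw [List.getElem_append_left]
  have e2 : (a :: (l' ++ [a]))[i + 1]'(by simp at hi ⊢; omega) =
      (a :: l')[(i + 1) % (a :: l').length]'(Nat.mod_lt _ (by simp)) := by
    by_cases h5 : i + 1 < l'.length + 1
    · change ((a :: l') ++ [a])[i + 1]'(by simp at hi ⊢; omega) = _
      rw [List.getElem_append_left (by simpa using h5)]
      congr 1
      rw [Nat.mod_eq_of_lt (by simpa using h5)]
    · have : i = l'.length := by simp at hi; omega
      subst this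
      simp
  rw [e1, e2] at h4
  exact h4

end

section

variable {b : Board} {act : ℕ → ℕ → Bool} {mm : ℕ → Bool} {z : ℕ → ℕ → Bool}

theorem gp_flag (hM : 1 ≤ b.M) {σ : Equiv.Perm Nd}
    (hadj : ∀ v, b.Val act v → (Gr b hM act mm z).Adj v (σ v)) {i n k : ℕ} {s : Bool}
    (hv : b.Val act (.X i n k s)) (h : gp b (Ad σ) i n k s = 1) : b.gu mm z i n k s = true := by
  have hnk : ¬ (n = 0 ∧ k = 0) := by
    rintro ⟨h1, h2⟩
    have := hv.2.2.2 h2
    omega
  unfold gp at h
  rw [if_neg hnk] at h
  have hmem : b.rt i n k s ∈ b.nb act (.X i n k s) := mem_rt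
  have hw : b.Val act (b.rt i n k s) := val_nb hM hv hmem
  have h1 : (b.rt i n k s, true) ∈ b.cand act mm z (.X i n k s) := by
    by_contra hcon
    have h2 : ¬ (Ad σ (.X i n k s) (b.rt i n k s) ∨ Ad σ (b.rt i n k s) (.X i n k s)) := by
      rintro (h3 | h3)
      · have h4 := (hadj _ hv).2.2
        unfold Ad at h3
        rw [h3] at h4
        exact hcon h4
      · have h4 := (hadj _ hw).symm.2.2
        unfold Ad at h3
        rw [h3] at h4
        exact hcon h4
    unfold ua at h
    rw [if_neg h2] at h
    omega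
  have h2 : (b.rt i n k s, b.gu mm z i n k s) ∈ b.cand act mm z (.X i n k s) := by
    simp [cand]
  have h3 : ((b.cand act mm z (.X i n k s)).map Prod.fst).Nodup := by
    rw [map_cand]; exact nodup_nb hv
  have h4 := List.inj_on_of_nodup_map h3 h1 h2 rfl
  rw [Prod.mk.injEq] at h4
  exact h4.2.symm

end

variable {m : ℕ}

/-- the assignment of a set of bits -/
def m0 (bb : ℕ → Bool) (i : ℕ) : Bool := decide (i = 1) || (decide (2 ≤ i) && bb (i - 2))

/-- the indicator of the bits -/
noncomputable def ind (bb : ℕ → Bool) (i : ℕ) : ℝ := if bb i = true then 1 else 0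

theorem upper (hm : 1 ≤ m) (bb : ℕ → Bool) : ∃ l' : List Nd,
    (Nd.S 0 false :: (l' ++ [Nd.C 0 false])).Nodup ∧
    (∀ v, v ∈ Nd.S 0 false :: (l' ++ [Nd.C 0 false]) ↔ (bo m).Val (ac m) v) ∧
    ∀ (a : ℕ → Bool) (L : ℤ), 1 ≤ L →
      tl (dd (bo m) L (de m a)) (Nd.S 0 false :: (l' ++ [Nd.C 0 false])) = ca m a L -
      2 * ∑ i ∈ (Finset.range m).filter (fun i => a i = true), ind bb i +
      (e1 L + 1) * ∑ j ∈ pa m a, ind bb (j / m) * ind bb (j % m) := by
  classical
  have hM := one_le m
  have hF := fm_ok hm
  obtain ⟨mm, z0, hmm, hz0, hG⟩ := good2 hF (x := fun _ _ => true) (m0 bb) (by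
    intro j hj e he _ htm
    change e ≤ 2 * m at he
    simp only [fm, decide_eq_true_eq] at htm
    refine ⟨1, by omega, ?_, fun _ _ _ => rfl⟩
    simp [Fm.tl, fm, m0])
  obtain ⟨z, hLeg, hz, hMem⟩ := conn2 hM val_fin hG
  have hval0 : (bo m).Val (ac m) (.S 0 false) := by simp only [Val]; rw [bo_H]; omega
  have hvalC : (bo m).Val (ac m) (.C 0 false) := by simp only [Val]; rw [bo_H]; omega
  obtain ⟨l0, h1, h2, h3⟩ := list_of_cycles (Gr (bo m) hM (ac m) mm z) (P := (bo m).Val (ac m))
    val_fin (fun v w h => h.1) (fun v hv => ncard_Gr hLeg hv) hval0 hMem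
  have hlen : 2 ≤ l0.length := by
    have := three_le h2
    simp at this
    omega
  have hadj0 : (Gr (bo m) hM (ac m) mm z).Adj (.S 0 false) (.C 0 false) :=
    ⟨hval0, hvalC, by simp [cand]⟩
  obtain ⟨l', hperm, hch⟩ := orient _ h1 h3 (ncard_Gr hLeg hval0) hadj0 hlen
  have hperm' : (Nd.S 0 false :: (l' ++ [Nd.C 0 false])).Perm (Nd.S 0 false :: l0) :=
    hperm.cons _
  have hnd : (Nd.S 0 false :: (l' ++ [Nd.C 0 false])).Nodup := hperm'.nodup_iff.2 h1
  have hmem : ∀ v, v ∈ Nd.S 0 false :: (l' ++ [Nd.C 0 false]) ↔ (bo m).Val (ac m) v := fun v => by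
    rw [hperm'.mem_iff, h2]
  refine ⟨l', hnd, hmem, ?_⟩
  set l := Nd.S 0 false :: (l' ++ [Nd.C 0 false]) with hl
  have ht : tl (bo m).dst l ≤ 2 * (l.map fun v => ((bo m).rad v : ℝ)).sum := by
    refine tl_of_chain (r := fun v => ((bo m).rad v : ℝ)) ?_
    refine hch.imp fun v w h => ?_
    exact (tight_iff v w).2 (nb_tight hM h.1 (mem_nb h.2.2))
  have hC : Cyc ((bo m).Val (ac m)) (bo m).Tight l.formPerm :=
    cyc_of_tight hnd hmem (by linarith)
  have hLoc : Loc (bo m) (ac m) (Ad l.formPerm) := loc_of_cyc hM hC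
  have hadj : ∀ v, (bo m).Val (ac m) v → (Gr (bo m) hM (ac m) mm z).Adj v (l.formPerm v) :=
    fun v hv => chain_formPerm hnd hch v ((hmem v).2 hv)
  have hgle : ∀ i n k s, gp (bo m) (Ad l.formPerm) i n k s = 0 ∨
      gp (bo m) (Ad l.formPerm) i n k s = 1 := fun i n k s => by
    have := gp_le (b := bo m) (A := Ad l.formPerm) i n k s
    omega
  -- the rows
  have hrow : ∀ i, i < m → (gp (bo m) (Ad l.formPerm) (i + 2) 0 2 true : ℝ) = ind bb i := by
    intro i hi
    have hmi : mm (i + 2) = bb i := by
      rw [hmm]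
      have h4 : (fm m).te (i + 2) = false := by
        simp only [fm, decide_eq_false_iff_not]; omega
      rw [h4]
      simp [m0]
    have h12 : (bo m).len (i + 2) 0 = 12 := by unfold Board.len; rw [ty_F']; rfl
    have hgu : ∀ k, (bo m).gu mm z (i + 2) 0 k true = xor (bb i) (decide (k % 2 = 1)) := by
      intro k
      unfold gu tr base lm
      rw [hmi]
      simp [par]
    have g4 : gp (bo m) (Ad l.formPerm) (i + 2) 0 2 true +
        gp (bo m) (Ad l.formPerm) (i + 2) 0 3 true = 1 :=
      gp_step (s := true) hM hLoc (i := i + 2) (n := 0) (k := 2) (by rw [bo_H]; omega)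
        (by omega) (by omega)
    unfold ind
    cases hb : bb i with
    | true =>
      have g5 : gp (bo m) (Ad l.formPerm) (i + 2) 0 3 true = 0 := by
        rcases hgle (i + 2) 0 3 true with h | h
        · exact h
        · have := gp_flag hM hadj (val_R hm hi true 3 (by omega) (by omega)) h
          rw [hgu, hb] at this
          simp at this
      have g6 : gp (bo m) (Ad l.formPerm) (i + 2) 0 2 true = 1 := by omega
      rw [g6]; simp
    | false =>
      have g5 : gp (bo m) (Ad l.formPerm) (i + 2) 0 2 true = 0 := by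
        rcases hgle (i + 2) 0 2 true with h | h
        · exact h
        · have := gp_flag hM hadj (val_R hm hi true 2 (by omega) (by omega)) h
          rw [hgu, hb] at this
          simp at this
      rw [g5]; simp
  -- the escapes
  have hesc : ∀ j, j < m * m → j / m ≠ j % m →
      (gp (bo m) (Ad l.formPerm) 1 (18 * j + 15) 0 true : ℝ) +
        (gp (bo m) (Ad l.formPerm) 1 (18 * j + 15) 0 false : ℝ) - 1 =
      ind bb (j / m) * ind bb (j % m) := by
    intro j hj hpq
    have hp : j / m < m := Nat.div_lt_of_lt_mul hj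
    have hq : j % m < m := Nat.mod_lt _ (by omega)
    have hc7 : (9 * j + 7) % 9 = 7 := by omega
    have hcj : (9 * j + 7) / 9 = j := by omega
    have hkc : (fun c => decide (c % 9 = 0 ∨ c % 9 = 1 ∨ c % 9 = 3 ∨ c % 9 = 4)) (9 * j + 7) =
        false := by
      simp only [decide_eq_false_iff_not]; omega
    have hup : up z 1 (9 * j + 7) = false := by
      change z 0 (9 * j + 7) = false
      rw [hz 0 _ hkc, ← Bool.not_eq_true, hz0]
      rintro ⟨-, -, e, he, -, htm, -, hlast⟩
      rw [hcj] at hlast htm
      simp only [fm, decide_eq_true_eq] at htm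
      have h5 := hlast 1 (by omega) (by omega)
      have hm1 : mm 1 = true := by
        rw [hmm]
        have h4 : (fm m).te 1 = false := by
          simp only [fm, decide_eq_false_iff_not]; omega
        rw [h4]
        simp [m0]
      unfold Fm.tl at h5
      rw [hm1] at h5
      simp [fm] at h5
    have hz1 : z 1 (9 * j + 7) = (bb (j / m) && bb (j % m)) := by
      rw [hz 1 _ hkc]
      have hiff : z0 1 (9 * j + 7) = true ↔ (bb (j / m) && bb (j % m)) = true := by
        rw [hz0, hcj, Bool.and_eq_true]
        have hmv : ∀ p, p < m → mm (p + 2) = bb p := by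
          intro p hp
          rw [hmm]
          have h4 : (fm m).te (p + 2) = false := by
            simp only [fm, decide_eq_false_iff_not]; omega
          rw [h4]
          simp [m0]
        constructor
        · rintro ⟨-, -, e, he, -, htm, -, hlast⟩
          simp only [fm, decide_eq_true_eq] at htm
          have key : ∀ p, p < m → (p = j / m ∨ p = j % m) → bb p = true := by
            intro p hp' hpp
            have h5 := hlast (p + 2) (by omega) (by omega)
            have h6 : (fm m).nr j (p + 2) = true := by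
              simp only [fm, decide_eq_true_eq]
              refine ⟨hp, hpq, ?_⟩
              rcases hpp with h | h
              · left; rw [h]
              · right; rw [h]
            unfold Fm.tl at h5
            rw [h6, hmv p hp'] at h5
            rw [Bool.or_eq_false_iff] at h5
            simpa using h5.2
          exact ⟨key _ hp (Or.inl rfl), key _ hq (Or.inr rfl)⟩
        · rintro ⟨g1, g2⟩
          refine ⟨hc7, hj, 2 * m, le_rfl, rfl, by simp [fm], by omega, ?_⟩
          intro i' h5 h6
          unfold Fm.tl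
          have h7 : (fm m).pr j i' = false := by
            simp only [fm, decide_eq_false_iff_not]; omega
          rw [h7]
          cases h8 : (fm m).nr j i' with
          | false => simp
          | true =>
            simp only [fm, decide_eq_true_eq] at h8
            obtain ⟨-, -, rfl | rfl⟩ := h8
            · rw [hmv _ hp, g1]; simp
            · rw [hmv _ hq, g2]; simp
      cases h : z0 1 (9 * j + 7) with
      | true => exact (hiff.1 h).symm
      | false =>
        cases h' : (bb (j / m) && bb (j % m)) with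
        | false => rfl
        | true =>
          rw [hiff.2 h'] at h
          simp at h
    have hn1 : (18 * j + 15) % 2 = 1 := by omega
    have hn2 : (18 * j + 15) / 2 = 9 * j + 7 := by omega
    have htr : tr z 1 (18 * j + 15) = (bb (j / m) && bb (j % m)) := by
      unfold tr
      rw [hn1, hn2, hup, hz1]
      simp
    have hlen2 : (bo m).len 1 (18 * j + 15) = 2 := by unfold Board.len; rw [ty_E15 m j hj]; rfl
    have hstep : ∀ s, gp (bo m) (Ad l.formPerm) 1 (18 * j + 15) 0 s +
        gp (bo m) (Ad l.formPerm) 1 (18 * j + 15) 1 s = 1 := fun s =>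
      gp_step (s := s) hM hLoc (i := 1) (n := 18 * j + 15) (k := 0)
        (by rw [bo_H]; omega) (by rw [bo_M]; omega) (by omega)
    have hpos := gp_pos hM hLoc (i := 1) (n := 18 * j + 15) (by rw [bo_H]; omega)
      (by rw [bo_M]; omega)
    unfold ind
    cases hbb : (bb (j / m) && bb (j % m)) with
    | true =>
      rw [Bool.and_eq_true] at hbb
      rw [if_pos hbb.1, if_pos hbb.2]
      have g5 : ∀ s, gp (bo m) (Ad l.formPerm) 1 (18 * j + 15) 0 s = 1 := by
        intro s
        have g6 : gp (bo m) (Ad l.formPerm) 1 (18 * j + 15) 1 s = 0 := by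
          rcases hgle 1 (18 * j + 15) 1 s with h | h
          · exact h
          · have := gp_flag hM hadj (val_E hj s 1 (by omega)) h
            unfold gu at this
            rw [htr, hbb.1, hbb.2] at this
            simp at this
        have := hstep s
        omega
      rw [g5 true, g5 false]
      norm_num
    | false =>
      have g5 : ∃ s, gp (bo m) (Ad l.formPerm) 1 (18 * j + 15) 0 s = 0 := by
        refine ⟨(bo m).base mm 1 (18 * j + 15) == false, ?_⟩
        rcases hgle 1 (18 * j + 15) 0 ((bo m).base mm 1 (18 * j + 15) == false) with h | h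
        · exact h
        · have := gp_flag hM hadj (val_E hj _ 0 (by omega)) h
          unfold gu at this
          rw [htr, hbb] at this
          generalize (bo m).base mm 1 (18 * j + 15) = x at this
          cases x <;> simp at this
      have g6 : gp (bo m) (Ad l.formPerm) 1 (18 * j + 15) 0 true +
          gp (bo m) (Ad l.formPerm) 1 (18 * j + 15) 0 false = 1 := by
        obtain ⟨s, hs⟩ := g5
        rcases hgle 1 (18 * j + 15) 0 true with h | h <;>
          rcases hgle 1 (18 * j + 15) 0 false with h' | h' <;> cases s <;> omega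
      have g7 : (gp (bo m) (Ad l.formPerm) 1 (18 * j + 15) 0 true : ℝ) +
          (gp (bo m) (Ad l.formPerm) 1 (18 * j + 15) 0 false : ℝ) = 1 := by exact_mod_cast g6
      rw [g7]
      rw [Bool.and_eq_false_iff] at hbb
      rcases hbb with h | h
      · rw [h]; simp
      · rw [h]; simp
  intro a L hL
  rw [tight_len' hm hL hnd hmem hC]
  have e2 : ∑ i ∈ (Finset.range m).filter (fun i => a i = true),
      (gp (bo m) (Ad l.formPerm) (i + 2) 0 2 true : ℝ) =
      ∑ i ∈ (Finset.range m).filter (fun i => a i = true), ind bb i := by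
    refine Finset.sum_congr rfl fun i hi => ?_
    rw [Finset.mem_filter, Finset.mem_range] at hi
    exact hrow i hi.1
  have e3 : ∑ j ∈ pa m a, ((gp (bo m) (Ad l.formPerm) 1 (18 * j + 15) 0 true : ℝ) +
        (gp (bo m) (Ad l.formPerm) 1 (18 * j + 15) 0 false : ℝ) - 1) =
      ∑ j ∈ pa m a, ind bb (j / m) * ind bb (j % m) := by
    refine Finset.sum_congr rfl fun j hj => ?_
    obtain ⟨hj1, -, -, hj2⟩ := mem_pa.1 hj
    exact hesc j hj1 hj2
  rw [e2, e3]

end Pool.Agent.T9h88.XC
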