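import Pool.Agent.T9h88.XC.Fml

/-!
# The cost of the displaced nodes
-/

set_option autoImplicit false

namespace Pool.Agent.T9h88.XC

open Pool.Agent.ETSP Pool.Agent.T9h21.TB Pool.Agent.T9h21.TB.Board

/-- the excess of the rung of a displaced row node -/
noncomputable def k1 (L : ℤ) : ℝ := √((L : ℝ) ^ 2 + 1) - L

/-- the excess of the rung of an escape -/
noncomputable def k4 (L : ℤ) : ℝ := √((4 * (L : ℝ)) ^ 2 + 1) - 4 * L

/-- the excess of the left edge of an escape -/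
noncomputable def e1 (L : ℤ) : ℝ := √((12 * (L : ℝ) + 1) ^ 2 + (5 * (L : ℝ)) ^ 2) - 13 * L

theorem k1_bd {L : ℤ} (hL : 1 ≤ L) : 0 ≤ k1 L ∧ k1 L ≤ 1 := by
  have hL' : (1 : ℝ) ≤ L := by exact_mod_cast hL
  unfold k1
  constructor
  · have : (L : ℝ) ≤ √((L : ℝ) ^ 2 + 1) := Real.le_sqrt_of_sq_le (by linarith)
    linarith
  · have : √((L : ℝ) ^ 2 + 1) ≤ L + 1 := Real.sqrt_le_iff.2 ⟨by linarith, by nlinarith⟩
    linarith

theorem k4_bd {L : ℤ} (hL : 1 ≤ L) : 0 ≤ k4 L ∧ k4 L ≤ 1 := by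
  have hL' : (1 : ℝ) ≤ L := by exact_mod_cast hL
  unfold k4
  constructor
  · have : 4 * (L : ℝ) ≤ √((4 * (L : ℝ)) ^ 2 + 1) := Real.le_sqrt_of_sq_le (by linarith)
    linarith
  · have : √((4 * (L : ℝ)) ^ 2 + 1) ≤ 4 * L + 1 := Real.sqrt_le_iff.2 ⟨by linarith, by nlinarith⟩
    linarith

theorem e1_bd {L : ℤ} (hL : 1 ≤ L) : 0 ≤ e1 L ∧ e1 L ≤ 1 := by
  have hL' : (1 : ℝ) ≤ L := by exact_mod_cast hL
  unfold e1
  constructor
  · have : 13 * (L : ℝ) ≤ √((12 * (L : ℝ) + 1) ^ 2 + (5 * (L : ℝ)) ^ 2) :=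
      Real.le_sqrt_of_sq_le (by nlinarith)
    linarith
  · have : √((12 * (L : ℝ) + 1) ^ 2 + (5 * (L : ℝ)) ^ 2) ≤ 13 * L + 1 :=
      Real.sqrt_le_iff.2 ⟨by linarith, by nlinarith⟩
    linarith

variable {m : ℕ} {a : ℕ → Bool} {L : ℤ}

theorem F_off : FT.F.off 2 = 6 ∧ FT.F.off 3 = 8 ∧ FT.F.off 4 = 10 ∧ FT.F.sz 2 = 1 ∧
    FT.F.sz 3 = 1 ∧ FT.F.sz 4 = 1 := by decide

theorem L_off : FT.L.off 0 = 0 ∧ FT.L.off 1 = 12 ∧ FT.L.off 2 = 20 ∧ FT.L.sz 0 = 3 ∧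
    FT.L.sz 1 = 2 ∧ FT.L.sz 2 = 2 := by decide

theorem xx_R (i k : ℕ) : (bo m).xx (i + 2) 0 k = FT.F.off k := by
  unfold Board.xx; rw [ty_F']; simp

theorem sz_R (i k : ℕ) : (bo m).sz (i + 2) 0 k = FT.F.sz k := by
  unfold Board.sz; rw [ty_F']

theorem xx_E {j : ℕ} (hj : j < m * m) (k : ℕ) :
    (bo m).xx 1 (18 * j + 15) k = 32 * (18 * j + 15) + FT.L.off k := by
  unfold Board.xx; rw [ty_E15 m j hj]; push_cast; ring

theorem sz_E {j : ℕ} (hj : j < m * m) (k : ℕ) : (bo m).sz 1 (18 * j + 15) k = FT.L.sz k := by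
  unfold Board.sz; rw [ty_E15 m j hj]

theorem sqh {A c r : ℝ} (B : ℝ) (h1 : A = B ^ 2) (h2 : 0 ≤ B) (h3 : B - c = r) : √A - c = r := by
  rw [h1, Real.sqrt_sq h2, h3]

theorem sqh2 {A B c c' : ℝ} (h1 : A = B) (h2 : c = c') : √A - c = √B - c' := by rw [h1, h2]

theorem ex_R (hL : 1 ≤ L) {i : ℕ} (hi : i < m) (ha : a i = true) :
    ex (bo m) L (de m a) (.X (i + 2) 0 3 true) (.X (i + 2) 0 2 true) = -1 ∧
    ex (bo m) L (de m a) (.X (i + 2) 0 3 true) (.X (i + 2) 0 4 true) = 1 ∧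
    ex (bo m) L (de m a) (.X (i + 2) 0 3 true) (.Q (i + 2) 0 3) = k1 L := by
  have hL' : (1 : ℝ) ≤ L := by exact_mod_cast hL
  obtain ⟨o2, o3, o4, s2, s3, s4⟩ := F_off
  have z2 : de m a (.X (i + 2) 0 2 true) = 0 := de_zero (by simp) (by simp)
  have z4 : de m a (.X (i + 2) 0 4 true) = 0 := de_zero (by simp) (by simp)
  have zQ : de m a (.Q (i + 2) 0 3) = 0 := de_zero (by simp) (by simp)
  have hsg : sg true = 1 := rfl
  unfold ex k1
  refine ⟨?_, ?_, ?_⟩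
  · rw [dd_eq, de_R hi ha, z2]
    simp only [px, py, rad, xx_R, sz_R, o2, o3, s2, s3, hsg]
    push_cast
    exact sqh (2 * L - 1) (by ring) (by linarith) (by ring)
  · rw [dd_eq, de_R hi ha, z4]
    simp only [px, py, rad, xx_R, sz_R, o4, o3, s4, s3, hsg]
    push_cast
    exact sqh (2 * L + 1) (by ring) (by linarith) (by ring)
  · rw [dd_eq, de_R hi ha, zQ]
    simp only [px, py, rad, xx_R, sz_R, o3, s3, hsg]
    push_cast
    exact sqh2 (by ring) (by ring)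

theorem ex_E (hL : 1 ≤ L) {j : ℕ} (hj : j ∈ pa m a) (s : Bool) :
    ex (bo m) L (de m a) (.X 1 (18 * j + 15) 1 s) (.X 1 (18 * j + 15) 0 s) = e1 L ∧
    ex (bo m) L (de m a) (.X 1 (18 * j + 15) 1 s) (.X 1 (18 * j + 15) 2 s) = -1 ∧
    ex (bo m) L (de m a) (.X 1 (18 * j + 15) 1 s) (.Q 1 (18 * j + 15) 1) = k4 L := by
  have hL' : (1 : ℝ) ≤ L := by exact_mod_cast hL
  have hj' := (mem_pa.1 hj).1
  obtain ⟨o0, o1, o2, s0, s1, s2⟩ := L_off
  have z0 : de m a (.X 1 (18 * j + 15) 0 s) = 0 := de_zero (by simp) (by simp)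
  have z2 : de m a (.X 1 (18 * j + 15) 2 s) = 0 := de_zero (by simp) (by simp)
  have zQ : de m a (.Q 1 (18 * j + 15) 1) = 0 := de_zero (by simp) (by simp)
  have hsg : ((sg s : ℤ) : ℝ) ^ 2 = 1 := by cases s <;> simp [sg]
  unfold ex k4 e1
  refine ⟨?_, ?_, ?_⟩
  · rw [dd_eq, de_E hj, z0]
    simp only [px, py, rad, xx_E hj', sz_E hj', o0, o1, s0, s1]
    push_cast
    generalize ((sg s : ℤ) : ℝ) = g at hsg
    exact sqh2 (by linear_combination (25 * (L : ℝ) ^ 2) * hsg) (by ring)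
  · rw [dd_eq, de_E hj, z2]
    simp only [px, py, rad, xx_E hj', sz_E hj', o2, o1, s2, s1]
    push_cast
    generalize ((sg s : ℤ) : ℝ) = g at hsg
    exact sqh (8 * L - 1) (by ring) (by linarith) (by ring)
  · rw [dd_eq, de_E hj, zQ]
    simp only [px, py, rad, xx_E hj', sz_E hj', o1, s1]
    push_cast
    generalize ((sg s : ℤ) : ℝ) = g at hsg
    exact sqh2 (by linear_combination (16 * (L : ℝ) ^ 2) * hsg) (by ring)

end Pool.Agent.T9h88.XC
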